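import Pool.Agent.Work.MP_2a0c1d_co.Stmts

/-!
# Lower order improvement of the diagonal Ramsey lower bound: assembly
-/

set_option autoImplicit false

namespace Pool.Agent.Work.MP_2a0c1d_co

open Finset

lemma wt_nonneg {ρ : ℝ} (h0 : 0 ≤ ρ) (h1 : ρ ≤ 1) (x : X) : 0 ≤ wt ρ x := by
  unfold wt
  split <;> nlinarith

lemma wt_sum (ρ : ℝ) : ∑ x : X, wt ρ x = 1 := by
  rw [Fintype.sum_prod_type]
  simp [wt]

lemma prB_nonneg {n : ℕ} {ρ : ℝ} (h0 : 0 ≤ ρ) (h1 : ρ ≤ 1) (B : Bx n) : 0 ≤ prB ρ B :=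
  Finset.prod_nonneg fun _ _ => Finset.sum_nonneg fun _ _ => wt_nonneg h0 h1 _

lemma sum_BB {n t h d : ℕ} {ρ : ℝ} (h0 : 0 ≤ ρ) (h1 : ρ ≤ 1) :
    ∑ B ∈ BB n t h d, prB ρ B ≤ ∑ B ∈ B1 n t h, prB ρ B + ∑ B ∈ B2 n t, prB ρ B +
      ∑ B ∈ B3 n t, prB ρ B + ∑ B ∈ B4 n t (h + h * d), prB ρ B +
      ∑ B ∈ B5 n t h d, prB ρ B := by
  classical
  have key : ∀ (A C : Finset (Bx n)), ∑ B ∈ A ∪ C, prB ρ B ≤
      ∑ B ∈ A, prB ρ B + ∑ B ∈ C, prB ρ B := by
    intro A C
    rw [← Finset.sum_union_inter]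
    have : 0 ≤ ∑ B ∈ A ∩ C, prB ρ B := Finset.sum_nonneg fun B _ => prB_nonneg h0 h1 B
    linarith
  have e : BB n t h d = B1 n t h ∪ B2 n t ∪ B3 n t ∪ B4 n t (h + h * d) ∪ B5 n t h d := by
    unfold BB
    congr
  rw [e]
  have k1 := key (B1 n t h ∪ B2 n t ∪ B3 n t ∪ B4 n t (h + h * d)) (B5 n t h d)
  have k2 := key (B1 n t h ∪ B2 n t ∪ B3 n t) (B4 n t (h + h * d))
  have k3 := key (B1 n t h ∪ B2 n t) (B3 n t)
  have k4 := key (B1 n t h) (B2 n t)
  linarith

lemma pm_pos (t : ℕ) : 0 < pm t := by unfold pm; positivity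

lemma W_nonneg (n t : ℕ) : 0 ≤ W n t := by
  unfold W
  have := pm_pos t
  positivity

lemma choose_id {n t : ℕ} (ht : 2 ≤ t) :
    ((mm t : ℝ)) * (n.choose t : ℝ) = (n.choose 2 : ℝ) * ((n - 2).choose (t - 2) : ℝ) := by
  rcases le_or_gt t n with h | h
  · have := Nat.choose_mul (n := n) (k := t) (s := 2) ht
    unfold mm
    rw [mul_comm]
    exact_mod_cast this
  · rw [Nat.choose_eq_zero_of_lt h]
    have : (n - 2).choose (t - 2) = 0 ∨ n.choose 2 = 0 := by
      rcases Nat.lt_or_ge n 2 with h2 | h2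
      · right; exact Nat.choose_eq_zero_of_lt h2
      · left; apply Nat.choose_eq_zero_of_lt; omega
    rcases this with h3 | h3 <;> simp [h3]

theorem pr_SUMALL (hS1 : S1) (hS2 : S2) (hS3 : S3) (hS4 : S4) (hS5 : S5) (hN1 : N1)
    (hE1 : NE1) (hE2 : NE2) (hE3 : NE3) (hE4 : NE4) (hE5 : NE5) : SUMALL := by
  intro ε hε hε2
  obtain ⟨h, d, hh, T5, h5⟩ := hE5 ε hε hε2
  obtain ⟨T1, h1⟩ := hN1 ε hε hε2
  obtain ⟨Ta, ha⟩ := hE1 h (h + h * d)
  obtain ⟨Tb, hb⟩ := hE2 (h + h * d)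
  obtain ⟨Tc, hc⟩ := hE3 ε (h + h * d) hε hε2
  obtain ⟨Td, hd⟩ := hE4 ε (h + h * d) hε hε2 (by omega)
  refine ⟨h, d, hh, T5 + T1 + Ta + Tb + Tc + Td + 2, fun t ht => ?_⟩
  obtain ⟨r1, r2, b2⟩ := hb t (by omega)
  refine ⟨r1, r2, fun n hn => ?_⟩
  have hW1 := h1 t (by omega) n hn
  have ht1 : (1 : ℝ) ≤ t := by exact_mod_cast (by omega : 1 ≤ t)
  have hWle : W n t ≤ 1 := hW1.trans (Real.rpow_le_one_of_one_le_of_nonpos ht1 (by linarith))
  have b1 := ha t (by omega)
  have b3 := hc t (by omega) n hn hWle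
  have b4 := hd t (by omega) n hn hWle
  have b5 := h5 t (by omega) n hW1
  have hs := sum_BB (n := n) (t := t) (h := h) (d := d) r1.le (by linarith : rho t ≤ 1)
  have s1 := hS1 n t h (rho t) r1.le (by linarith)
  have s2 := hS2 n t (rho t) r1.le (by linarith)
  have s3 := hS3 n t (rho t) r1.le (by linarith)
  have s4 := hS4 n t (h + h * d) (rho t) r1.le (by linarith) (by omega)
  have s5 := hS5 n t h d (rho t) r1.le (by linarith) (by omega)
  set η : ℝ := 1 / (20 * (((h + h * d : ℕ) : ℝ) + 1) ^ 2 * (t : ℝ) ^ 2) with hη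
  have hC : (0 : ℝ) ≤ (n.choose t : ℝ) := by positivity
  have hP := pm_pos t
  have c1 : (n.choose t : ℝ) * (pm t * sum1 t h (rho t)) ≤ (n.choose t : ℝ) * (pm t * η) :=
    mul_le_mul_of_nonneg_left (mul_le_mul_of_nonneg_left b1 hP.le) hC
  have c2 : (n.choose t : ℝ) * rho t ^ mm t ≤ (n.choose t : ℝ) * (pm t * η) :=
    mul_le_mul_of_nonneg_left b2 hC
  have c3 : (n.choose t : ℝ) * sum3 n t (rho t) ≤ (n.choose t : ℝ) * (pm t * η) :=
    mul_le_mul_of_nonneg_left b3 hC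
  have c4 : (n.choose t : ℝ) * sum4 n t (h + h * d) (rho t) ≤ (n.choose t : ℝ) * (pm t * η) :=
    mul_le_mul_of_nonneg_left b4 hC
  have c5 : (n.choose t : ℝ) * (pm t * sum5 n t h d (rho t)) ≤ (n.choose t : ℝ) * (pm t * η) :=
    mul_le_mul_of_nonneg_left (mul_le_mul_of_nonneg_left b5 hP.le) hC
  have tot : ∑ B ∈ BB n t h d, prB (rho t) B ≤ 5 * ((n.choose t : ℝ) * (pm t * η)) := by
    linarith
  have hid := choose_id (n := n) (t := t) (by omega)
  have hR : (0 : ℝ) < (((h + h * d : ℕ) : ℝ) + 1) := by positivity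
  have ht0 : (0 : ℝ) < t := by linarith
  have hmt : (mm t : ℝ) ≤ (t : ℝ) ^ 2 := by
    unfold mm
    have : t.choose 2 ≤ t ^ 2 := Nat.choose_le_pow t 2
    exact_mod_cast this
  have hcast : (((h + h * d + 1) * mm t : ℕ) : ℝ) = (((h + h * d : ℕ) : ℝ) + 1) * (mm t : ℝ) := by
    push_cast; ring
  rw [hcast]
  calc 4 * ((((h + h * d : ℕ) : ℝ) + 1) * (mm t : ℝ)) ^ 2 * ∑ B ∈ BB n t h d, prB (rho t) B
      ≤ 4 * ((((h + h * d : ℕ) : ℝ) + 1) * (mm t : ℝ)) ^ 2 *
        (5 * ((n.choose t : ℝ) * (pm t * η))) := by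
        apply mul_le_mul_of_nonneg_left tot (by positivity)
    _ = (mm t : ℝ) * ((mm t : ℝ) * (n.choose t : ℝ)) * pm t / (t : ℝ) ^ 2 := by
        rw [hη]; field_simp; ring
    _ = ((mm t : ℝ) / (t : ℝ) ^ 2) * ((n.choose 2 : ℝ) * W n t) := by
        rw [hid]; unfold W; ring
    _ ≤ 1 * ((n.choose 2 : ℝ) * 1) := by
        apply mul_le_mul
        · rw [div_le_one (by positivity)]; exact hmt
        · apply mul_le_mul_of_nonneg_left hWle (by positivity)
        · have := W_nonneg n t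
          positivity
        · norm_num
    _ = (n.choose 2 : ℝ) := by ring

theorem pr_CORE (hL : LLL) (hY : SYM) (hSP : SUPP) (hI : INV14) (hI5 : INV5) (hX : EXT)
    (hS : SUMALL) (hG : GRA) : CORE := by
  classical
  intro ε hε hε2
  obtain ⟨h, d, hh, T0, hT⟩ := hS ε hε hε2
  refine ⟨T0 + 2, fun t ht n hn => ?_⟩
  obtain ⟨r1, r2, hsum⟩ := hT t (by omega)
  have hsum := hsum n hn
  have ht2 : 2 ≤ t := by omega
  set M := (h + h * d + 1) * mm t with hM
  have hrho1 : rho t ≤ 1 := by linarith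
  have hinv : ∀ σ : Equiv.Perm (Fin n), ∀ B ∈ BB n t h d,
      (fun e => B (e.map σ)) ∈ BB n t h d := by
    intro σ B hB
    obtain ⟨i1, i2, i3, i4⟩ := hI n t h (h + h * d) σ
    have i5 := hI5 n t h d σ
    simp only [BB, Finset.mem_union] at hB ⊢
    rcases hB with (((hB | hB) | hB) | hB) | hB
    · exact Or.inl (Or.inl (Or.inl (Or.inl (i1 B hB))))
    · exact Or.inl (Or.inl (Or.inl (Or.inr (i2 B hB))))
    · exact Or.inl (Or.inl (Or.inr (i3 B hB)))
    · exact Or.inl (Or.inr (i4 B hB))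
    · exact Or.inr (i5 B hB)
  have hsupp := hSP n t h d hh ht2
  have hper := hY n M (rho t) r1.le hrho1 (BB n t h d) hinv
    (fun B hB => ⟨(hsupp B hB).2.1, (hsupp B hB).2.2⟩)
  have hn0 : ∀ B ∈ BB n t h d, 0 ≤ prB (rho t) B := fun B _ => prB_nonneg r1.le hrho1 B
  obtain ⟨ω, hω⟩ := hL (Sym2 (Fin n)) X (wt (rho t)) (wt_nonneg r1.le hrho1) (wt_sum _)
    (BB n t h d) (fun B hB => (hsupp B hB).1) (by
    intro B hB
    obtain ⟨⟨e1, he1⟩, hcard, hdiag⟩ := hsupp B hB
    have he1' : e1 ∈ supp B := by simp [supp, he1]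
    have hc2 : (0 : ℝ) < (n.choose 2 : ℝ) := by
      have hnd := hdiag e1 he1'
      have : 2 ≤ n := by
        by_contra hlt
        have hs : Subsingleton (Fin n) := by
          rw [← Fintype.card_le_one_iff_subsingleton, Fintype.card_fin]; omega
        apply hnd
        induction e1 using Sym2.ind with
        | _ x y => exact Sym2.mk_isDiag_iff.2 (Subsingleton.elim x y)
      exact_mod_cast Nat.choose_pos this
    calc ∑ B' ∈ (BB n t h d).filter (fun B' => ∃ e, B e ≠ univ ∧ B' e ≠ univ),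
          ∏ e, ∑ y ∈ B' e, wt (rho t) y
        ≤ ∑ e ∈ supp B, ∑ B' ∈ (BB n t h d).filter (fun B' => e ∈ supp B'),
            prB (rho t) B' := by
          have e1 : ∀ e ∈ supp B, ∑ B' ∈ (BB n t h d).filter (fun B' => e ∈ supp B'),
              prB (rho t) B' = ∑ B' ∈ BB n t h d, if e ∈ supp B' then prB (rho t) B' else 0 := by
            intro e _
            rw [Finset.sum_filter]
          rw [Finset.sum_congr rfl e1, Finset.sum_comm, Finset.sum_filter]
          apply Finset.sum_le_sum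
          intro B' hB'
          split_ifs with hc
          · obtain ⟨e, he, he'⟩ := hc
            have hes : e ∈ supp B := by simp [supp, he]
            refine le_trans ?_ (Finset.single_le_sum (f := fun e => if e ∈ supp B' then
              prB (rho t) B' else 0) ?_ hes)
            · have : e ∈ supp B' := by simp [supp, he']
              simp only [this, if_true]
              exact le_refl _
            · intro i _
              split_ifs
              · exact hn0 B' hB'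
              · exact le_refl _
          · apply Finset.sum_nonneg
            intro i _
            split_ifs
            · exact hn0 B' hB'
            · exact le_refl _
      _ ≤ ∑ e ∈ supp B, (M : ℝ) * (∑ B' ∈ BB n t h d, prB (rho t) B') / (n.choose 2 : ℝ) := by
          apply Finset.sum_le_sum
          intro e he
          rw [le_div_iff₀ hc2]
          exact hper e (hdiag e he)
      _ = ((supp B).card : ℝ) * ((M : ℝ) * (∑ B' ∈ BB n t h d, prB (rho t) B') /
            (n.choose 2 : ℝ)) := by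
          rw [Finset.sum_const, nsmul_eq_mul]
      _ ≤ (M : ℝ) * ((M : ℝ) * (∑ B' ∈ BB n t h d, prB (rho t) B') / (n.choose 2 : ℝ)) := by
          apply mul_le_mul_of_nonneg_right (by exact_mod_cast hcard)
          have := Finset.sum_nonneg hn0
          positivity
      _ ≤ 1 / 4 := by
          rw [← mul_div_assoc, div_le_iff₀ hc2]
          have : 4 * (M : ℝ) ^ 2 * ∑ B ∈ BB n t h d, prB (rho t) B ≤ (n.choose 2 : ℝ) := hsum
          nlinarith)
  apply hG.1 n t (cst t ω)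
  intro S a
  apply hX n t h d ω hh ht2
  intro B hB hBh
  obtain ⟨e, he⟩ := hω B hB
  exact he (hBh e)

theorem pr_MAIN (hC : CORE) (hG : GRA) : MAIN := by
  intro ε hε
  obtain ⟨T0, hT⟩ := hC (min ε (1 / 4)) (lt_min hε (by norm_num)) (by
    have := min_le_right ε (1 / 4); linarith)
  refine ⟨T0 + 4, fun t ht n hn => ?_⟩
  set ε' := min ε (1 / 4) with hε'
  have hle : ε' ≤ ε := min_le_left _ _
  have hle2 : ε' ≤ 1 / 4 := min_le_right _ _
  set b : ℝ := (1 + (1 / 2 - ε') * Real.log t / t) * (Real.sqrt 2 * t / Real.exp 1) *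
    Real.sqrt 2 ^ t with hb
  have ht4 : (4 : ℝ) ≤ t := by exact_mod_cast (by omega : 4 ≤ t)
  have hlog : 0 ≤ Real.log t := Real.log_nonneg (by linarith)
  have hs2 : (1 : ℝ) ≤ Real.sqrt 2 := by
    rw [Real.one_le_sqrt]; norm_num
  have hs2' : (1.4 : ℝ) ≤ Real.sqrt 2 := by
    apply Real.le_sqrt_of_sq_le; norm_num
  have hpow : (1 : ℝ) ≤ Real.sqrt 2 ^ t := one_le_pow₀ hs2
  have hfac : 2 ≤ Real.sqrt 2 * t / Real.exp 1 := by
    rw [le_div_iff₀ (Real.exp_pos 1)]
    have := Real.exp_one_lt_d9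
    nlinarith
  have hx : 0 ≤ (1 / 2 - ε') * Real.log t / t := by
    apply div_nonneg (mul_nonneg (by linarith) hlog) (by linarith)
  have hbge : Real.sqrt 2 ^ t + 1 ≤ b := by
    have h1 : 2 ≤ (1 + (1 / 2 - ε') * Real.log t / t) * (Real.sqrt 2 * t / Real.exp 1) := by
      nlinarith
    calc Real.sqrt 2 ^ t + 1 ≤ 2 * Real.sqrt 2 ^ t := by linarith
      _ ≤ b := by
        rw [hb]
        exact mul_le_mul_of_nonneg_right h1 (by linarith)
  have hnb : (n : ℝ) < b := by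
    refine hn.trans_le ?_
    rw [hb]
    apply mul_le_mul_of_nonneg_right _ (by linarith)
    apply mul_le_mul_of_nonneg_right _ (by linarith)
    have : (1 / 2 - ε) * Real.log t / t ≤ (1 / 2 - ε') * Real.log t / t := by
      apply div_le_div_of_nonneg_right _ (by linarith)
      exact mul_le_mul_of_nonneg_right (by linarith) hlog
    linarith
  have hb0 : 0 < b := by linarith
  have hc1 : 1 ≤ ⌈b⌉₊ := Nat.one_le_ceil_iff.2 hb0
  set n0 := ⌈b⌉₊ - 1 with hn0
  have hn0' : (n0 : ℝ) = (⌈b⌉₊ : ℝ) - 1 := by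
    rw [hn0]; push_cast [Nat.cast_sub hc1]; ring
  have hlt : (n0 : ℝ) < b := by
    have := Nat.ceil_lt_add_one hb0.le
    linarith
  have hge : Real.sqrt 2 ^ t ≤ (n0 : ℝ) := by
    have := Nat.le_ceil b
    linarith
  have hnn : n ≤ n0 := by
    have : n < ⌈b⌉₊ := Nat.lt_ceil.2 hnb
    omega
  exact hG.2 n0 n t hnn (hT t (by omega) n0 ⟨hge, hlt⟩)

end Pool.Agent.Work.MP_2a0c1d_co
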