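import Pool.Agent.Work.MP_2a0c1d_co.Stmts

/-!
# Item EXT: an outcome in no bad box gives a colouring without monochromatic sets
-/

set_option autoImplicit false

namespace Pool.Agent.Work.MP_2a0c1d_co

open Finset

namespace EXT_aux

theorem mem_ed {n : ℕ} {S : Finset (Fin n)} {e : Sym2 (Fin n)} :
    e ∈ ed S ↔ (∀ v ∈ e, v ∈ S) ∧ ¬ e.IsDiag := by
  unfold ed
  rw [Finset.mem_filter, Finset.mem_sym2_iff]

theorem not_mem_ed_empty {n : ℕ} (e : Sym2 (Fin n)) : e ∉ ed (∅ : Finset (Fin n)) := by
  intro he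
  rw [mem_ed] at he
  induction e with
  | _ x y => exact absurd (he.1 x (by simp)) (by simp)

theorem ed_two {n : ℕ} {A : Finset (Fin n)} (hA : A.card = 2) {e e' : Sym2 (Fin n)}
    (he : e ∈ ed A) (he' : e' ∈ ed A) : e = e' := by
  obtain ⟨u, v, huv, rfl⟩ := Finset.card_eq_two.mp hA
  have key : ∀ e : Sym2 (Fin n), e ∈ ed {u, v} → e = s(u, v) := by
    intro e he
    rw [mem_ed] at he
    induction e with
    | _ x y =>
      obtain ⟨h1, h2⟩ := he
      have hx := h1 x (by simp)
      have hy := h1 y (by simp)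
      simp only [Finset.mem_insert, Finset.mem_singleton] at hx hy
      rw [Sym2.mk_isDiag_iff] at h2
      rcases hx with rfl | rfl <;> rcases hy with rfl | rfl
      · exact absurd rfl h2
      · rfl
      · exact Sym2.eq_swap
      · exact absurd rfl h2
  rw [key e he, key e' he']

theorem exists_slots {α : Type*} (M : Finset α) (d : ℕ) :
    ∃ g : Fin d → Option α, (∀ l f, g l = some f → f ∈ M) ∧
      (∀ l l' f, g l = some f → g l' = some f → l = l') ∧
      ((∀ f ∈ M, ∃ l, g l = some f) ∨ ∀ l, g l ≠ none) := by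
  classical
  rcases le_total d M.card with hd | hd
  · obtain ⟨φ⟩ : Nonempty (Fin d ↪ M) :=
      Function.Embedding.nonempty_of_card_le (by simpa using hd)
    refine ⟨fun l => some (φ l : α), ?_, ?_, Or.inr ?_⟩
    · intro l f hf
      simp only [Option.some.injEq] at hf
      rw [← hf]
      exact (φ l).2
    · intro l l' f h h'
      simp only [Option.some.injEq] at h h'
      exact φ.injective (Subtype.ext (h.trans h'.symm))
    · intro l
      simp
  · obtain ⟨φ⟩ : Nonempty (M ↪ Fin d) :=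
      Function.Embedding.nonempty_of_card_le (by simpa using hd)
    refine ⟨fun l => if h : ∃ f : M, φ f = l then some (h.choose : α) else none, ?_, ?_,
      Or.inl ?_⟩
    · intro l f hf
      simp only at hf
      split_ifs at hf with h
      simp only [Option.some.injEq] at hf
      rw [← hf]
      exact h.choose.2
    · intro l l' f h1 h2
      simp only at h1 h2
      split_ifs at h1 with c1
      split_ifs at h2 with c2
      have e1 := c1.choose_spec
      have e2 := c2.choose_spec
      simp only [Option.some.injEq] at h1 h2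
      have h3 : c1.choose = c2.choose := Subtype.ext (h1.trans h2.symm)
      rw [← e1, ← e2, h3]
    · intro f hf
      refine ⟨φ ⟨f, hf⟩, ?_⟩
      have h : ∃ f' : M, φ f' = φ ⟨f, hf⟩ := ⟨_, rfl⟩
      simp only
      rw [dif_pos h]
      have h4 := φ.injective h.choose_spec
      rw [h4]

variable {n h d : ℕ}

/-- total version of the threatening sets -/
def tS (S' : Fin h → Finset (Fin n)) (i : ℕ) : Finset (Fin n) :=
  if hi : i < h then S' ⟨i, hi⟩ else ∅

/-- total version of the threatened pairs -/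
def tE (e0 : Sym2 (Fin n)) (e : Fin h → Sym2 (Fin n)) (i : ℕ) : Sym2 (Fin n) :=
  if hi : i < h then e ⟨i, hi⟩ else e0

/-- total version of the slots -/
def tG (g : Fin h → Fin d → Wit n) (i l : ℕ) : Wit n :=
  if hh : i < h ∧ l < d then g ⟨i, hh.1⟩ ⟨l, hh.2⟩ else none

/-- set of a slot -/
def wQ : Wit n → Finset (Fin n)
  | none => ∅
  | some (_, Q) => Q

/-- pair of a slot -/
def wP (e0 : Sym2 (Fin n)) : Wit n → Sym2 (Fin n)
  | none => e0
  | some (f, _) => f

/-- the sets of the tree -/
def TT (S : Finset (Fin n)) (S' : Fin h → Finset (Fin n)) (g : Fin h → Fin d → Wit n) (r : ℕ) :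
    Finset (Fin n) :=
  if r = 0 then S else if r ≤ h then tS S' (r - 1)
  else wQ (tG g ((r - 1 - h) / d) ((r - 1 - h) % d))

/-- the pairs of the tree -/
def EE (e0 : Sym2 (Fin n)) (e : Fin h → Sym2 (Fin n)) (g : Fin h → Fin d → Wit n) (r : ℕ) :
    Sym2 (Fin n) :=
  if r ≤ h then tE e0 e (r - 1) else wP e0 (tG g ((r - 1 - h) / d) ((r - 1 - h) % d))

/-- the parents -/
def pp (h d r : ℕ) : ℕ := if r ≤ h then 0 else 1 + (r - 1 - h) / d

/-- number of a node -/
def nd : Option (Fin h × Option (Fin d)) → ℕ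
  | none => 0
  | some (i, none) => 1 + i
  | some (i, some l) => 1 + h + (i * d + l)

theorem idx_lt {i : Fin h} {l : Fin d} : (i : ℕ) * d + l < h * d := by
  calc (i : ℕ) * d + l < i * d + d := by have := l.2; omega
    _ = (i + 1) * d := by ring
    _ ≤ h * d := Nat.mul_le_mul_right _ i.2

theorem nd_le (u : Option (Fin h × Option (Fin d))) : nd u ≤ h + h * d := by
  rcases u with _ | ⟨i, _ | l⟩
  · simp [nd]
  · simp only [nd]
    have := i.2
    omega
  · simp only [nd]
    have := idx_lt (i := i) (l := l)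
    omega

theorem nd_inj : Function.Injective (nd (h := h) (d := d)) := by
  intro u v huv
  rcases u with _ | ⟨i, _ | l⟩ <;> rcases v with _ | ⟨j, _ | m⟩
  · rfl
  · simp only [nd] at huv; omega
  · simp only [nd] at huv; omega
  · simp only [nd] at huv; omega
  · simp only [nd] at huv
    have : i = j := Fin.ext (by omega)
    rw [this]
  · simp only [nd] at huv
    have := i.2
    omega
  · simp only [nd] at huv; omega
  · simp only [nd] at huv
    have := j.2
    omega
  · simp only [nd] at huv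
    have hd : 0 < d := lt_of_le_of_lt (Nat.zero_le _) l.2
    have h1 : (i : ℕ) * d + l = j * d + m := by omega
    have h2 : ((i : ℕ) * d + l) / d = i := by
      rw [mul_comm, Nat.mul_add_div hd, Nat.div_eq_of_lt l.2, add_zero]
    have h3 : ((j : ℕ) * d + m) / d = j := by
      rw [mul_comm, Nat.mul_add_div hd, Nat.div_eq_of_lt m.2, add_zero]
    have h4 : i = j := Fin.ext (by rw [← h2, ← h3, h1])
    subst h4
    have h5 : l = m := Fin.ext (by omega)
    rw [h5]

theorem TT_zero (S : Finset (Fin n)) (S' : Fin h → Finset (Fin n))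
    (g : Fin h → Fin d → Wit n) : TT S S' g 0 = S := by
  simp [TT]

theorem TT_one (S : Finset (Fin n)) (S' : Fin h → Finset (Fin n))
    (g : Fin h → Fin d → Wit n) (i : Fin h) : TT S S' g (1 + i) = S' i := by
  have := i.2
  unfold TT
  rw [if_neg (by omega), if_pos (by omega)]
  have h1 : 1 + (i : ℕ) - 1 = i := by omega
  rw [h1]
  unfold tS
  rw [dif_pos i.2]

theorem EE_one (e0 : Sym2 (Fin n)) (e : Fin h → Sym2 (Fin n))
    (g : Fin h → Fin d → Wit n) (i : Fin h) : EE e0 e g (1 + i) = e i := by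
  have := i.2
  unfold EE
  rw [if_pos (by omega)]
  have h1 : 1 + (i : ℕ) - 1 = i := by omega
  rw [h1]
  unfold tE
  rw [dif_pos i.2]

theorem pp_one (i : Fin h) : pp h d (1 + i) = 0 := by
  have := i.2
  unfold pp
  rw [if_pos (by omega)]

theorem idx_div (i : Fin h) (l : Fin d) : (1 + h + ((i : ℕ) * d + l) - 1 - h) / d = i := by
  have hd : 0 < d := lt_of_le_of_lt (Nat.zero_le _) l.2
  have h1 : 1 + h + ((i : ℕ) * d + l) - 1 - h = i * d + l := by omega
  rw [h1, mul_comm, Nat.mul_add_div hd, Nat.div_eq_of_lt l.2, add_zero]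

theorem idx_mod (i : Fin h) (l : Fin d) : (1 + h + ((i : ℕ) * d + l) - 1 - h) % d = l := by
  have h1 : 1 + h + ((i : ℕ) * d + l) - 1 - h = i * d + l := by omega
  rw [h1, mul_comm, Nat.mul_add_mod, Nat.mod_eq_of_lt l.2]

theorem tG_fin (g : Fin h → Fin d → Wit n) (i : Fin h) (l : Fin d) : tG g i l = g i l := by
  unfold tG
  rw [dif_pos ⟨i.2, l.2⟩]

theorem TT_two (S : Finset (Fin n)) (S' : Fin h → Finset (Fin n))
    (g : Fin h → Fin d → Wit n) (i : Fin h) (l : Fin d) :
    TT S S' g (1 + h + (i * d + l)) = wQ (g i l) := by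
  unfold TT
  rw [if_neg (by omega), if_neg (by omega), idx_div, idx_mod, tG_fin]

theorem EE_two (e0 : Sym2 (Fin n)) (e : Fin h → Sym2 (Fin n))
    (g : Fin h → Fin d → Wit n) (i : Fin h) (l : Fin d) :
    EE e0 e g (1 + h + (i * d + l)) = wP e0 (g i l) := by
  unfold EE
  rw [if_neg (by omega), idx_div, idx_mod, tG_fin]

theorem pp_two (i : Fin h) (l : Fin d) : pp h d (1 + h + (i * d + l)) = 1 + i := by
  unfold pp
  rw [if_neg (by omega), idx_div]

/-- every node number is of one of the three forms -/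
theorem node_cases {r : ℕ} (hr : r ≤ h + h * d) : r = 0 ∨ (∃ i : Fin h, r = 1 + i) ∨
    ∃ (i : Fin h) (l : Fin d), r = 1 + h + (i * d + l) := by
  rcases Nat.eq_zero_or_pos r with h0 | h0
  · exact Or.inl h0
  by_cases h1 : r ≤ h
  · exact Or.inr (Or.inl ⟨⟨r - 1, by omega⟩, by simp only; omega⟩)
  · right; right
    have h2 : r - 1 - h < h * d := by omega
    have hd : 0 < d := by
      rcases Nat.eq_zero_or_pos d with hd | hd
      · rw [hd] at h2; omega
      · exact hd
    refine ⟨⟨(r - 1 - h) / d, Nat.div_lt_of_lt_mul (by rw [mul_comm]; exact h2)⟩,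
      ⟨(r - 1 - h) % d, Nat.mod_lt _ hd⟩, ?_⟩
    have h3 := Nat.div_add_mod' (r - 1 - h) d
    simp only
    omega

/-- the blocks in terms of the tree -/
theorem blk_sub (S : Finset (Fin n)) (e0 : Sym2 (Fin n)) (e : Fin h → Sym2 (Fin n))
    (S' : Fin h → Finset (Fin n)) (g : Fin h → Fin d → Wit n)
    (u : Option (Fin h × Option (Fin d))) (e' : Sym2 (Fin n))
    (he' : e' ∈ blk S (fun i => ((e i, S' i, g i) : Thr n d)) u) :
    e' ∈ ed (TT S S' g (nd u)) ∧ (1 ≤ nd u → e' ≠ EE e0 e g (nd u)) := by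
  rcases u with _ | ⟨i, _ | l⟩
  · simp only [blk, nd, TT_zero] at he' ⊢
    exact ⟨he', fun h => absurd h (by norm_num)⟩
  · simp only [blk, nd, TT_one, EE_one, Finset.mem_erase] at he' ⊢
    exact ⟨he'.2, fun _ => he'.1⟩
  · simp only [nd, TT_two, EE_two]
    rcases hg : g i l with _ | ⟨f, Q⟩
    · simp [blk, hg] at he'
    · simp only [blk, hg, Finset.mem_erase] at he'
      simp only [wQ, wP]
      exact ⟨he'.2, fun _ => he'.1⟩

theorem mem_ed_inter {A B : Finset (Fin n)} {e : Sym2 (Fin n)} (h1 : e ∈ ed A) (h2 : e ∈ ed B) :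
    e ∈ ed (A ∩ B) := by
  rw [mem_ed] at *
  exact ⟨fun v hv => Finset.mem_inter.mpr ⟨h1.1 v hv, h2.1 v hv⟩, h1.2⟩

theorem mem_ed_Un {T : ℕ → Finset (Fin n)} {i j : ℕ} {e : Sym2 (Fin n)} (hj : j < i)
    (h1 : e ∈ ed (T j)) : e ∈ ed (Un T i) := by
  rw [mem_ed] at *
  refine ⟨fun v hv => ?_, h1.2⟩
  unfold Un
  exact Finset.mem_biUnion.mpr ⟨j, Finset.mem_range.mpr hj, h1.1 v hv⟩

end EXT_aux

open EXT_aux in
theorem pr_EXT : LOOK → CLEAN → EXT := by
  classical
  intro hLook hClean n t h d ω hh ht hBB S a hM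
  obtain ⟨hS, hbad⟩ := hLook n t ω S a hM
  -- no box holds
  have hB1 : ∀ B ∈ B1 n t h, ¬ Holds ω B := fun B hB => hBB B (by
    simp only [BB, Finset.mem_union]; tauto)
  have hB2 : ∀ B ∈ B2 n t, ¬ Holds ω B := fun B hB => hBB B (by
    simp only [BB, Finset.mem_union]; tauto)
  have hB3 : ∀ B ∈ B3 n t, ¬ Holds ω B := fun B hB => hBB B (by
    simp only [BB, Finset.mem_union]; tauto)
  have hB4 : ∀ B ∈ B4 n t (h + h * d), ¬ Holds ω B := fun B hB => hBB B (by
    simp only [BB, Finset.mem_union]; tauto)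
  have hB5 : ∀ B ∈ B5 n t h d, ¬ Holds ω B := fun B hB => hBB B (by
    simp only [BB, Finset.mem_union]; tauto)
  -- no set has all its pairs marked
  have hmk : ∀ A : Finset (Fin n), A.card = t → ¬ ∀ f ∈ ed A, mk ω f = true := by
    intro A hA hall
    have : ∃ B ∈ B2 n t, Holds ω B := by
      refine ⟨_, by unfold B2; rw [Finset.mem_filter]; exact ⟨Finset.mem_univ _, A, hA, rfl⟩, ?_⟩
      intro f
      by_cases hf : f ∈ ed A
      · simp only [hf, if_true, Finset.mem_filter, Finset.mem_univ, true_and]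
        exact hall f hf
      · simp only [hf, if_false, Finset.mem_univ]
    obtain ⟨B, hB, hB'⟩ := this
    exact hB2 B hB hB'
  -- many marked pairs
  set J := (ed S).filter (fun e => mk ω e = true) with hJ
  have hJc : h ≤ J.card := by
    by_contra hcon
    have : ∃ B ∈ B1 n t h, Holds ω B := by
      refine ⟨_, by
        unfold B1; rw [Finset.mem_filter]
        exact ⟨Finset.mem_univ _, S, a, J, hS.1, Finset.filter_subset _ _, by omega, rfl⟩, ?_⟩
      intro f
      by_cases hf : f ∈ J
      · simp only [hf, if_true, Finset.mem_singleton]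
        rw [hJ, Finset.mem_filter] at hf
        exact Prod.ext (hS.2 f hf.1) hf.2
      · by_cases hf' : f ∈ ed S
        · simp only [hf, hf', if_true, if_false, Finset.mem_singleton]
          rw [hJ, Finset.mem_filter] at hf
          refine Prod.ext (hS.2 f hf') ?_
          have : ¬ mk ω f = true := fun hc => hf ⟨hf', hc⟩
          simpa [mk] using this
        · simp only [hf, hf', if_false, Finset.mem_univ]
    obtain ⟨B, hB, hB'⟩ := this
    exact hB1 B hB hB'
  obtain ⟨φ⟩ : Nonempty (Fin h ↪ J) :=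
    Function.Embedding.nonempty_of_card_le (by simpa using hJc)
  set e : Fin h → Sym2 (Fin n) := fun i => (φ i : Sym2 (Fin n)) with he
  have heJ : ∀ i, e i ∈ J := fun i => (φ i).2
  have heS : ∀ i, e i ∈ ed S := fun i => (Finset.mem_filter.mp (heJ i)).1
  have hemk : ∀ i, mk ω (e i) = true := fun i => (Finset.mem_filter.mp (heJ i)).2
  have hecol : ∀ i, col ω (e i) = a := fun i => hS.2 _ (heS i)
  have heinj : Function.Injective e := fun i j hij => φ.injective (Subtype.ext hij)
  have hthr : ∀ i, ∃ S' : Finset (Fin n), Threat t ω (e i) S' := fun i =>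
    hbad (e i) (heS i) (hemk i)
  choose S' hS' using hthr
  have hS'c : ∀ i, (S' i).card = t := fun i => (hS' i).1
  have heS' : ∀ i, e i ∈ ed (S' i) := fun i => (hS' i).2.1
  -- witnesses
  have hwit : ∀ f : Sym2 (Fin n), ∃ Q : Finset (Fin n), Hot t ω f →
      f ∈ ed Q ∧ Mono t (col ω) Q (col ω f) := by
    intro f
    by_cases hf : Hot t ω f
    · obtain ⟨Q, hQ⟩ := hf
      exact ⟨Q, fun _ => hQ⟩
    · exact ⟨∅, fun h => absurd h hf⟩
  choose Qf hQf using hwit
  set M : Fin h → Finset (Sym2 (Fin n)) := fun i =>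
    (ed (S' i)).filter (fun f => f ≠ e i ∧ col ω f = a) with hMdef
  have hMp : ∀ i, ∀ f ∈ M i, f ∈ ed (S' i) ∧ f ≠ e i ∧ col ω f = a ∧ mk ω f = true ∧
      f ∈ ed (Qf f) ∧ Mono t (col ω) (Qf f) a := by
    intro i f hf
    simp only [hMdef, Finset.mem_filter] at hf
    obtain ⟨h1, h2, h3⟩ := hf
    rcases (hS' i).2.2 f h1 h2 with h4 | ⟨-, h5, h6⟩
    · rw [h3, hecol i] at h4
      exact absurd rfl h4
    · have h7 := hQf f h6
      rw [h3] at h7
      exact ⟨h1, h2, h3, h5, h7.1, h7.2⟩
  have hsl := fun i => exists_slots (M i) d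
  choose g0 hg0 hg1 hg2 using hsl
  set g : Fin h → Fin d → Wit n := fun i l => (g0 i l).map (fun f => (f, Qf f)) with hg
  have hgs : ∀ i l f Q, g i l = some (f, Q) → g0 i l = some f ∧ Q = Qf f := by
    intro i l f Q hf
    simp only [hg, Option.map_eq_some_iff, Prod.mk.injEq] at hf
    obtain ⟨f', h1, h2, h3⟩ := hf
    subst h2
    exact ⟨h1, h3.symm⟩
  have hgM : ∀ i l f Q, g i l = some (f, Q) → f ∈ ed (S' i) ∧ f ≠ e i ∧ col ω f = a ∧
      mk ω f = true ∧ f ∈ ed Q ∧ Mono t (col ω) Q a := by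
    intro i l f Q hf
    obtain ⟨h1, rfl⟩ := hgs i l f Q hf
    exact hMp i f (hg0 i l f h1)
  have hgi : ∀ i l l' f Q Q', g i l = some (f, Q) → g i l' = some (f, Q') → l = l' := by
    intro i l l' f Q Q' h1 h2
    exact hg1 i l l' f (hgs i l f Q h1).1 (hgs i l' f Q' h2).1
  have hgall : ∀ i, (∀ f ∈ M i, ∃ l Q, g i l = some (f, Q)) ∨ ∀ l, g i l ≠ none := by
    intro i
    rcases hg2 i with h1 | h1
    · left
      intro f hf
      obtain ⟨l, hl⟩ := h1 f hf
      exact ⟨l, Qf f, by simp [hg, hl]⟩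
    · right
      intro l hl
      apply h1 l
      simpa [hg] using hl
  -- differences
  have hne1 : ∀ i, S' i ≠ S := by
    intro i hi
    apply hmk S hS.1
    intro f hf
    by_cases hfe : f = e i
    · rw [hfe]; exact hemk i
    · rcases (hS' i).2.2 f (by rw [hi]; exact hf) hfe with h4 | ⟨-, h5, -⟩
      · rw [hecol i, hS.2 f hf] at h4
        exact absurd rfl h4
      · exact h5
  have hne2 : ∀ i l f Q, g i l = some (f, Q) → Q ≠ S' i := by
    intro i l f Q hf hQ
    obtain ⟨-, -, -, -, -, hQm⟩ := hgM i l f Q hf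
    apply hmk (S' i) (hS'c i)
    intro f' hf'
    by_cases hfe : f' = e i
    · rw [hfe]; exact hemk i
    · rcases (hS' i).2.2 f' hf' hfe with h4 | ⟨-, h5, -⟩
      · rw [hecol i, hQm.2 f' (by rw [hQ]; exact hf')] at h4
        exact absurd rfl h4
      · exact h5
  -- the tree
  set e0 := e ⟨0, hh⟩ with he0
  set T := TT S S' g with hT
  set E := EE e0 e g with hE
  have hTree : TreeData (h + h * d) T (pp h d) E := by
    intro r hr1 hrR hTr
    rcases node_cases hrR with rfl | ⟨i, rfl⟩ | ⟨i, l, rfl⟩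
    · omega
    · rw [hT, hE, pp_one, TT_one, EE_one, TT_zero]
      refine ⟨by omega, heS' i, heS i, hne1 i, fun hc => absurd hc (by norm_num), ?_⟩
      intro j hj1 hji _ _
      rcases node_cases (show j ≤ h + h * d by omega) with rfl | ⟨i', rfl⟩ | ⟨i', l', rfl⟩
      · omega
      · rw [EE_one]
        intro hc
        have := heinj hc
        subst this
        omega
      · have := i.2
        omega
    · rw [hT, TT_two] at hTr
      rcases hgl : g i l with _ | ⟨f, Q⟩
      · rw [hgl] at hTr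
        exact absurd rfl hTr
      obtain ⟨hf1, hf2, hf3, hf4, hf5, hf6⟩ := hgM i l f Q hgl
      rw [hT, hE, pp_two, TT_two, EE_two, TT_one, EE_one, hgl]
      simp only [wQ, wP]
      refine ⟨by have := i.2; omega, hf5, hf1, hne2 i l f Q hgl, fun _ => hf2, ?_⟩
      intro j hj1 hji hTj hpj
      rcases node_cases (show j ≤ h + h * d by omega) with rfl | ⟨i', rfl⟩ | ⟨i', l', rfl⟩
      · omega
      · rw [pp_one] at hpj
        omega
      · rw [pp_two] at hpj
        have hii : i' = i := Fin.ext (by omega)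
        subst hii
        rw [TT_two] at hTj
        rw [EE_two]
        rcases hgl' : g i' l' with _ | ⟨f', Q'⟩
        · rw [hgl'] at hTj
          exact absurd rfl hTj
        · simp only [wP]
          intro hc
          subst hc
          have hll := hgi i' l l' f' Q Q' hgl hgl'
          subst hll
          omega
  have hcard : ∀ r ≤ h + h * d, T r = ∅ ∨ (T r).card = t := by
    intro r hr
    rcases node_cases hr with rfl | ⟨i, rfl⟩ | ⟨i, l, rfl⟩
    · rw [hT, TT_zero]; exact Or.inr hS.1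
    · rw [hT, TT_one]; exact Or.inr (hS'c i)
    · rw [hT, TT_two]
      rcases hgl : g i l with _ | ⟨f, Q⟩
      · exact Or.inl rfl
      · exact Or.inr (hgM i l f Q hgl).2.2.2.2.2.1
  have hnear : ∀ r ≤ h + h * d, Near ω (T r) (if r = 0 then a else if r ≤ h then !a else a) := by
    intro r hr
    rcases node_cases hr with rfl | ⟨i, rfl⟩ | ⟨i, l, rfl⟩
    · rw [hT, TT_zero, if_pos rfl]
      exact fun f hf => Or.inl (hS.2 f hf)
    · rw [hT, TT_one, if_neg (by omega), if_pos (by have := i.2; omega)]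
      intro f hf
      by_cases hfe : f = e i
      · right; rw [hfe]; exact hemk i
      · rcases (hS' i).2.2 f hf hfe with h4 | ⟨-, h5, -⟩
        · left
          rw [hecol i] at h4
          exact Bool.eq_not_of_ne h4
        · exact Or.inr h5
    · rw [hT, TT_two, if_neg (by omega), if_neg (by omega)]
      rcases hgl : g i l with _ | ⟨f, Q⟩
      · exact fun f hf => absurd hf (not_mem_ed_empty f)
      · exact fun f' hf' => Or.inl ((hgM i l f Q hgl).2.2.2.2.2.2 f' hf')
  have hcl := hClean n t (h + h * d) ω hB3 hB4 T _ (pp h d) E (by rw [hT, TT_zero]; exact hS.1)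
    hcard hnear hTree
  -- common pairs of two nodes
  have hcommon : ∀ r j, 1 ≤ r → r ≤ h + h * d → j < r → ∀ e', e' ∈ ed (T r) → e' ∈ ed (T j) →
      e' = E r := by
    intro r j hr1 hr hj e' h1 h2
    have hne : T r ≠ ∅ := by
      intro hc
      rw [hc] at h1
      exact not_mem_ed_empty _ h1
    have h3 := hcl r hr1 hr hne
    obtain ⟨h4, h5, h6, -⟩ := hTree r hr1 hr hne
    exact ed_two h3 (mem_ed_inter h1 (mem_ed_Un hj h2)) (mem_ed_inter h5 (mem_ed_Un h4 h6))
  set x : Fin h → Thr n d := fun i => (e i, S' i, g i) with hx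
  have hdisj : ∀ u v, nd v < nd u → Disjoint (blk S x u) (blk S x v) := by
    intro u v huv
    rw [Finset.disjoint_left]
    intro e' h1 h2
    obtain ⟨h3, h4⟩ := blk_sub S e0 e S' g u e' h1
    obtain ⟨h5, -⟩ := blk_sub S e0 e S' g v e' h2
    exact h4 (by omega) (hcommon (nd u) (nd v) (by omega) (nd_le u) huv e' h3 h5)
  have hOkD : OkD t S x := by
    refine ⟨hS.1, ?_, heinj, ?_⟩
    · intro i
      refine ⟨heS i, heS' i, hS'c i, ?_, ?_⟩
      · intro l f Q hf
        obtain ⟨h1, h2, -, -, h5, h6⟩ := hgM i l f Q hf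
        exact ⟨h1, h2, h6.1, h5⟩
      · exact hgi i
    · intro u v huv
      rcases lt_trichotomy (nd u) (nd v) with h1 | h1 | h1
      · exact (hdisj v u h1).symm
      · exact absurd (nd_inj h1) huv
      · exact hdisj u v h1
  have : ∃ B ∈ B5 n t h d, Holds ω B := by
    refine ⟨_, by
      unfold B5; rw [Finset.mem_filter]
      exact ⟨Finset.mem_univ _, a, S, x, hOkD, rfl⟩, ?_⟩
    intro f
    unfold box5
    rw [Finset.mem_filter]
    refine ⟨Finset.mem_univ _, fun hf => hS.2 f hf, ?_, ?_, ?_⟩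
    · rintro i rfl
      exact Prod.ext (hecol i) (hemk i)
    · intro i l f' Q hl
      obtain ⟨h1, h2, h3, h4, h5, h6⟩ := hgM i l f' Q hl
      refine ⟨?_, fun hf => h6.2 f hf⟩
      rintro rfl
      exact Prod.ext h3 h4
    · intro i hf1 hf2 hf3
      rcases (hS' i).2.2 f hf1 hf2 with h4 | ⟨h5, h6, h7⟩
      · left
        rw [hecol i] at h4
        exact Bool.eq_not_of_ne h4
      · right
        refine ⟨?_, h6⟩
        rcases hgall i with h8 | h8
        · have h9 : f ∈ M i := by
            simp only [hMdef, Finset.mem_filter]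
            exact ⟨hf1, hf2, by rw [h5, hecol i]⟩
          obtain ⟨l, Q, hl⟩ := h8 f h9
          exact absurd rfl (hf3 l f Q hl)
        · exact h8
  obtain ⟨B, hB, hB'⟩ := this
  exact hB5 B hB hB'

end Pool.Agent.Work.MP_2a0c1d_co
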