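import Pool.Agent.Work.MP_2a0c1d_co.Stmts

set_option autoImplicit false

namespace Pool.Agent.Work.MP_2a0c1d_co

open Finset

theorem GRA_ed {n : ℕ} {S : Finset (Fin n)} {e : Sym2 (Fin n)} (he : e ∈ ed S) :
    ∃ i j : Fin n, i ∈ S ∧ j ∈ S ∧ i ≠ j ∧ e = s(i, j) := by
  unfold ed at he
  rw [Finset.mem_filter] at he
  obtain ⟨h1, h2⟩ := he
  induction e using Sym2.ind with
  | _ i j =>
    rw [Finset.mk_mem_sym2_iff] at h1
    rw [Sym2.mk_isDiag_iff] at h2
    exact ⟨i, j, h1.1, h1.2, h2, rfl⟩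

theorem pr_GRA : GRA := by
  classical
  refine ⟨?_, ?_⟩
  · intro n t f hf
    refine ⟨SimpleGraph.fromRel (fun i j => f s(i, j) = true), ?_, ?_⟩
    · intro S hS
      apply hf S true
      refine ⟨hS.card_eq, ?_⟩
      intro e he
      obtain ⟨i, j, hi, hj, hij, rfl⟩ := GRA_ed he
      have h := hS.isClique hi hj hij
      rw [SimpleGraph.fromRel_adj] at h
      rcases h.2 with h | h
      · exact h
      · rw [Sym2.eq_swap]; exact h
    · intro S hS
      apply hf S false
      refine ⟨hS.card_eq, ?_⟩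
      intro e he
      obtain ⟨i, j, hi, hj, hij, rfl⟩ := GRA_ed he
      have h := hS.isClique hi hj hij
      rw [SimpleGraph.compl_adj, SimpleGraph.fromRel_adj] at h
      by_contra hne
      rw [Bool.not_eq_false] at hne
      exact h.2 ⟨hij, Or.inl hne⟩
  · intro n n' t hn h
    obtain ⟨G, h1, h2⟩ := h
    let g : Fin n' ↪ Fin n := Fin.castLEEmb hn
    refine ⟨G.comap g, ?_, ?_⟩
    · exact SimpleGraph.CliqueFree.comap ⟨(SimpleGraph.Embedding.comap g G).toCopy⟩ h1
    · have e : (G.comap g)ᶜ = Gᶜ.comap g := by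
        ext i j
        simp only [SimpleGraph.compl_adj, SimpleGraph.comap_adj]
        constructor
        · rintro ⟨a, b⟩; exact ⟨fun h => a (g.injective h), b⟩
        · rintro ⟨a, b⟩; exact ⟨fun h => a (by rw [h]), b⟩
      rw [e]
      exact SimpleGraph.CliqueFree.comap ⟨(SimpleGraph.Embedding.comap g Gᶜ).toCopy⟩ h2

end Pool.Agent.Work.MP_2a0c1d_co
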