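import Pool.Agent.Work.MP_2a0c1d_co.Stmts

/-!
# Item INV14: invariance of the families 1 to 4
-/

set_option autoImplicit false

namespace Pool.Agent.Work.MP_2a0c1d_co

open Finset

namespace INV14h

variable {n : ℕ} (σ : Equiv.Perm (Fin n))

/-- the preimage of a set -/
def im (S : Finset (Fin n)) : Finset (Fin n) := S.map σ.symm.toEmbedding

theorem mem_im (S : Finset (Fin n)) (x : Fin n) : x ∈ im σ S ↔ σ x ∈ S := by
  rw [im, Finset.mem_map_equiv, Equiv.symm_symm]

theorem mem_ed (S : Finset (Fin n)) (e : Sym2 (Fin n)) : e.map σ ∈ ed S ↔ e ∈ ed (im σ S) := by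
  induction e using Sym2.ind with
  | _ x y =>
    rw [Sym2.map_mk, ed, ed, Finset.mem_filter, Finset.mem_filter, Finset.mk_mem_sym2_iff,
      Finset.mk_mem_sym2_iff, mem_im, mem_im, Sym2.mk_isDiag_iff, Sym2.mk_isDiag_iff]
    exact and_congr_right fun _ => not_congr σ.injective.eq_iff

theorem card_im (S : Finset (Fin n)) : (im σ S).card = S.card := Finset.card_map _

theorem im_inter (S T : Finset (Fin n)) : im σ (S ∩ T) = im σ S ∩ im σ T := by
  ext x
  rw [Finset.mem_inter, mem_im, mem_im, mem_im, Finset.mem_inter]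

theorem im_Un (T : ℕ → Finset (Fin n)) (k : ℕ) : Un (fun i => im σ (T i)) k = im σ (Un T k) := by
  ext x
  rw [mem_im, Un, Un, Finset.mem_biUnion, Finset.mem_biUnion]
  simp only [mem_im]

theorem near_im (k : ℕ) (T : ℕ → Finset (Fin n)) (a : ℕ → Bool) :
    (fun e => nearB k T a (e.map σ)) = nearB k (fun i => im σ (T i)) a := by
  funext e
  unfold nearB
  refine Finset.filter_congr fun x _ => ?_
  simp only [mem_ed]

theorem clean_im (t k : ℕ) (T : ℕ → Finset (Fin n)) (h : CleanSeq t k T) :
    CleanSeq t k (fun i => im σ (T i)) := by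
  refine ⟨by rw [card_im]; exact h.1, fun i h1 h2 => ?_⟩
  rcases h.2 i h1 h2 with h3 | h3
  · left
    show im σ (T i) = ∅
    rw [h3]
    rfl
  · right
    rw [im_Un, ← im_inter, card_im, card_im]
    exact h3

end INV14h

open INV14h in
theorem pr_INV14 : INV14 := by
  classical
  intro n t h R σ
  refine ⟨?_, ?_, ?_, ?_⟩
  · intro B hB
    rw [B1, Finset.mem_filter] at hB ⊢
    obtain ⟨-, S, a, J, hS, hJ, hJh, rfl⟩ := hB
    have hmemJ : ∀ e : Sym2 (Fin n), e ∈ J.image (Sym2.map σ.symm) ↔ e.map σ ∈ J := by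
      intro e
      rw [Finset.mem_image]
      constructor
      · rintro ⟨f, hf, rfl⟩
        rw [Sym2.map_map]
        have : (σ : Fin n → Fin n) ∘ σ.symm = id := by
          funext x
          simp
        rw [this, Sym2.map_id]
        exact hf
      · intro he
        refine ⟨e.map σ, he, ?_⟩
        rw [Sym2.map_map]
        have : (σ.symm : Fin n → Fin n) ∘ σ = id := by
          funext x
          simp
        rw [this, Sym2.map_id]
        rfl
    refine ⟨Finset.mem_univ _, im σ S, a, J.image (Sym2.map σ.symm), ?_, ?_, ?_, ?_⟩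
    · rw [card_im]; exact hS
    · intro e he
      rw [← mem_ed]
      exact hJ ((hmemJ e).1 he)
    · rw [Finset.card_image_of_injective _ (Sym2.map.injective σ.symm.injective)]
      exact hJh
    · funext e
      simp only [hmemJ, mem_ed]
  · intro B hB
    rw [B2, Finset.mem_filter] at hB ⊢
    obtain ⟨-, S, hS, rfl⟩ := hB
    refine ⟨Finset.mem_univ _, im σ S, by rw [card_im]; exact hS, ?_⟩
    funext e
    simp only [mem_ed]
  · intro B hB
    rw [B3, Finset.mem_filter] at hB ⊢
    obtain ⟨-, T, a, h0, h1, h3, ht, rfl⟩ := hB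
    refine ⟨Finset.mem_univ _, fun i => im σ (T i), a, ?_, ?_, ?_, ?_, near_im σ 2 T a⟩
    · rw [card_im]; exact h0
    · rw [card_im]; exact h1
    · rw [← im_inter, card_im]; exact h3
    · rw [← im_inter, card_im]; exact ht
  · intro B hB
    rw [B4, Finset.mem_filter] at hB ⊢
    obtain ⟨-, T, a, hc, hR, h3, h2, rfl⟩ := hB
    refine ⟨Finset.mem_univ _, fun i => im σ (T i), a, clean_im σ t R T hc, ?_, ?_, ?_,
      near_im σ (R + 1) T a⟩
    · rw [card_im]; exact hR
    · rw [im_Un, ← im_inter, card_im]; exact h3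
    · intro j hj
      rw [← im_inter, card_im]; exact h2 j hj

end Pool.Agent.Work.MP_2a0c1d_co
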