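import Pool.Agent.Work.MP_2a0c1d_co.Stmts

/-!
# Item INV5: invariance of family 5
-/

set_option autoImplicit false

namespace Pool.Agent.Work.MP_2a0c1d_co

open Finset

namespace INV5aux

variable {n h d : ℕ}

theorem map_eq_iff (σ : Equiv.Perm (Fin n)) (e f : Sym2 (Fin n)) :
    e = f.map σ.symm ↔ e.map σ = f := by
  constructor
  · rintro rfl
    rw [Sym2.map_map]
    have : (⇑σ ∘ ⇑σ.symm) = id := by
      funext x
      simp
    rw [this, Sym2.map_id]
    rfl
  · rintro rfl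
    rw [Sym2.map_map]
    have : (⇑σ.symm ∘ ⇑σ) = id := by
      funext x
      simp
    rw [this, Sym2.map_id]
    rfl

theorem mem_im (σ : Equiv.Perm (Fin n)) (A : Finset (Fin n)) (a : Fin n) :
    a ∈ A.image σ.symm ↔ σ a ∈ A := by
  rw [Finset.mem_image]
  constructor
  · rintro ⟨b, hb, rfl⟩
    simpa using hb
  · intro ha
    exact ⟨σ a, ha, by simp⟩

theorem mem_ed (σ : Equiv.Perm (Fin n)) (A : Finset (Fin n)) (e : Sym2 (Fin n)) :
    e ∈ ed (A.image σ.symm) ↔ e.map σ ∈ ed A := by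
  induction e using Sym2.ind with
  | _ a b =>
    unfold ed
    rw [Finset.mem_filter, Finset.mem_filter, Finset.mk_mem_sym2_iff, Sym2.map_mk,
      mem_im, mem_im]
    show _ ↔ s(σ a, σ b) ∈ A.sym2 ∧ _
    rw [Finset.mk_mem_sym2_iff]
    refine and_congr Iff.rfl (not_congr ?_)
    show s(a, b).IsDiag ↔ s(σ a, σ b).IsDiag
    rw [Sym2.mk_isDiag_iff, Sym2.mk_isDiag_iff]
    exact (σ.injective.eq_iff).symm

def mvW (σ : Equiv.Perm (Fin n)) (w : Wit n) : Wit n :=
  Option.map (fun p => (p.1.map σ.symm, p.2.image σ.symm)) w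

def mvT (σ : Equiv.Perm (Fin n)) (x : Thr n d) : Thr n d :=
  (x.1.map σ.symm, x.2.1.image σ.symm, fun l => mvW σ (x.2.2 l))

theorem mvW_some (σ : Equiv.Perm (Fin n)) (w : Wit n) (f : Sym2 (Fin n)) (Q : Finset (Fin n)) :
    mvW σ w = some (f, Q) ↔ ∃ f0 Q0, w = some (f0, Q0) ∧ f = f0.map σ.symm ∧
      Q = Q0.image σ.symm := by
  cases w with
  | none => simp [mvW]
  | some p =>
    obtain ⟨f1, Q1⟩ := p
    simp only [mvW, Option.map_some, Option.some.injEq, Prod.mk.injEq]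
    constructor
    · rintro ⟨rfl, rfl⟩
      exact ⟨f1, Q1, ⟨rfl, rfl⟩, rfl, rfl⟩
    · rintro ⟨f0, Q0, ⟨rfl, rfl⟩, rfl, rfl⟩
      exact ⟨rfl, rfl⟩

theorem mvW_none (σ : Equiv.Perm (Fin n)) (w : Wit n) : mvW σ w = none ↔ w = none := by
  cases w <;> simp [mvW]

theorem mem_blk (σ : Equiv.Perm (Fin n)) (S : Finset (Fin n)) (x : Fin h → Thr n d)
    (u : Option (Fin h × Option (Fin d))) (e : Sym2 (Fin n)) :
    e ∈ blk (S.image σ.symm) (fun i => mvT σ (x i)) u ↔ e.map σ ∈ blk S x u := by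
  match u with
  | none => exact mem_ed σ S e
  | some (i, none) =>
    show e ∈ (ed ((x i).2.1.image σ.symm)).erase ((x i).1.map σ.symm) ↔
      e.map σ ∈ (ed (x i).2.1).erase (x i).1
    rw [Finset.mem_erase, Finset.mem_erase, mem_ed, Ne, Ne, map_eq_iff]
  | some (i, some l) =>
    have h1 : blk (S.image σ.symm) (fun i => mvT σ (x i)) (some (i, some l)) =
      (match mvW σ ((x i).2.2 l) with
        | none => ∅
        | some (f, Q) => (ed Q).erase f) := rfl
    have h2 : blk S x (some (i, some l)) =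
      (match (x i).2.2 l with
        | none => ∅
        | some (f, Q) => (ed Q).erase f) := rfl
    rw [h1, h2]
    cases hw : (x i).2.2 l with
    | none => simp [mvW]
    | some p =>
      obtain ⟨f, Q⟩ := p
      show e ∈ (ed (Q.image σ.symm)).erase (f.map σ.symm) ↔ e.map σ ∈ (ed Q).erase f
      rw [Finset.mem_erase, Finset.mem_erase, mem_ed, Ne, Ne, map_eq_iff]

theorem map_mem (σ : Equiv.Perm (Fin n)) (A : Finset (Fin n)) (e : Sym2 (Fin n))
    (he : e ∈ ed A) : e.map σ.symm ∈ ed (A.image σ.symm) := by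
  rw [mem_ed, (map_eq_iff σ (e.map σ.symm) e).mp rfl]
  exact he

theorem map_inj (σ : Equiv.Perm (Fin n)) (e f : Sym2 (Fin n))
    (he : e.map σ.symm = f.map σ.symm) : e = f := by
  have h1 := (map_eq_iff σ (e.map σ.symm) f).mp he
  rw [(map_eq_iff σ (e.map σ.symm) e).mp rfl] at h1
  exact h1

theorem okT (σ : Equiv.Perm (Fin n)) (t : ℕ) (S : Finset (Fin n)) (x : Thr n d)
    (hx : OkT t S x) : OkT t (S.image σ.symm) (mvT σ x) := by
  obtain ⟨h1, h2, h3, h4, h5⟩ := hx
  refine ⟨map_mem σ S _ h1, map_mem σ _ _ h2, ?_, ?_, ?_⟩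
  · show (x.2.1.image σ.symm).card = t
    rw [Finset.card_image_of_injective _ σ.symm.injective, h3]
  · intro l f Q hl
    obtain ⟨f0, Q0, hl0, rfl, rfl⟩ := (mvW_some σ (x.2.2 l) f Q).mp hl
    obtain ⟨k1, k2, k3, k4⟩ := h4 l f0 Q0 hl0
    refine ⟨map_mem σ _ _ k1, ?_, ?_, map_mem σ _ _ k4⟩
    · intro hc
      exact k2 (map_inj σ _ _ hc)
    · rw [Finset.card_image_of_injective _ σ.symm.injective, k3]
  · intro l l' f Q Q' hl hl'
    obtain ⟨f0, Q0, hl0, hf, -⟩ := (mvW_some σ (x.2.2 l) f Q).mp hl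
    obtain ⟨f1, Q1, hl1, hf1, -⟩ := (mvW_some σ (x.2.2 l') f Q').mp hl'
    have : f0 = f1 := map_inj σ _ _ (hf.symm.trans hf1)
    subst this
    exact h5 l l' f0 Q0 Q1 hl0 hl1

theorem okD (σ : Equiv.Perm (Fin n)) (t : ℕ) (S : Finset (Fin n)) (x : Fin h → Thr n d)
    (hx : OkD t S x) : OkD t (S.image σ.symm) (fun i => mvT σ (x i)) := by
  obtain ⟨h1, h2, h3, h4⟩ := hx
  refine ⟨?_, fun i => okT σ t S (x i) (h2 i), ?_, ?_⟩
  · rw [Finset.card_image_of_injective _ σ.symm.injective, h1]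
  · intro i j hij
    exact h3 (map_inj σ _ _ hij)
  · intro u v huv
    rw [Finset.disjoint_left]
    intro e he he'
    rw [mem_blk] at he he'
    exact (Finset.disjoint_left.mp (h4 u v huv)) he he'

theorem ok5 (σ : Equiv.Perm (Fin n)) (a : Bool) (S : Finset (Fin n)) (x : Fin h → Thr n d)
    (e : Sym2 (Fin n)) (y : X) :
    Ok5 a (S.image σ.symm) (fun i => mvT σ (x i)) e y ↔ Ok5 a S x (e.map σ) y := by
  unfold Ok5
  refine and_congr (imp_congr (mem_ed σ S e) Iff.rfl) (and_congr ?_ (and_congr ?_ ?_))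
  · refine forall_congr' fun i => imp_congr ?_ Iff.rfl
    exact map_eq_iff σ e (x i).1
  · refine forall_congr' fun i => forall_congr' fun l => ?_
    constructor
    · intro H f Q hl
      have H1 := H (f.map σ.symm) (Q.image σ.symm) ((mvW_some σ _ _ _).mpr ⟨f, Q, hl, rfl, rfl⟩)
      rw [map_eq_iff, mem_ed] at H1
      exact H1
    · intro H f Q hl
      obtain ⟨f0, Q0, hl0, rfl, rfl⟩ := (mvW_some σ _ f Q).mp hl
      rw [map_eq_iff, mem_ed]
      exact H f0 Q0 hl0
  · refine forall_congr' fun i => ?_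
    refine imp_congr (mem_ed σ (x i).2.1 e) (imp_congr (not_congr (map_eq_iff σ e (x i).1))
      (imp_congr ?_ (or_congr Iff.rfl (and_congr ?_ Iff.rfl))))
    · refine forall_congr' fun l => ?_
      constructor
      · intro H f Q hl hc
        exact H (f.map σ.symm) (Q.image σ.symm) ((mvW_some σ _ _ _).mpr ⟨f, Q, hl, rfl, rfl⟩)
          ((map_eq_iff σ e f).mpr hc)
      · intro H f Q hl hc
        obtain ⟨f0, Q0, hl0, rfl, rfl⟩ := (mvW_some σ _ f Q).mp hl
        exact H f0 Q0 hl0 ((map_eq_iff σ e f0).mp hc)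
    · exact forall_congr' fun l => not_congr (mvW_none σ ((x i).2.2 l))

end INV5aux

theorem pr_INV5 : INV5 := by
  classical
  intro n t h d σ B hB
  unfold B5 at hB ⊢
  rw [Finset.mem_filter] at hB ⊢
  obtain ⟨-, a, S, x, hD, rfl⟩ := hB
  refine ⟨Finset.mem_univ _, a, S.image σ.symm, fun i => INV5aux.mvT σ (x i),
    INV5aux.okD σ t S x hD, ?_⟩
  funext e
  unfold box5
  ext y
  simp only [Finset.mem_filter, Finset.mem_univ, true_and]
  exact (INV5aux.ok5 σ a S x e y).symm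

end Pool.Agent.Work.MP_2a0c1d_co
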