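import Pool.Agent.Work.MP_2a0c1d_co.Stmts

/-!
# Item LLL: local lemma for boxes in a finite product space
-/

set_option autoImplicit false

namespace Pool.Agent.Work.MP_2a0c1d_co

open Finset

namespace LLL_aux

variable {E Y : Type} [Fintype E] [DecidableEq E] [Fintype Y] [DecidableEq Y]

/-- weight of an outcome -/
noncomputable def mu (w : Y → ℝ) (ω : E → Y) : ℝ := ∏ e, w (ω e)

/-- expectation -/
noncomputable def ex (w : Y → ℝ) (f : (E → Y) → ℝ) : ℝ := ∑ ω, mu w ω * f ω

/-- use `ω` on `S` and `ω'` outside -/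
def mix (S : Finset E) (ω ω' : E → Y) : E → Y := fun e => if e ∈ S then ω e else ω' e

/-- the swap of the coordinates outside `S` -/
def swp (S : Finset E) : Equiv.Perm ((E → Y) × (E → Y)) where
  toFun x := (mix S x.1 x.2, mix S x.2 x.1)
  invFun x := (mix S x.1 x.2, mix S x.2 x.1)
  left_inv x := by
    refine Prod.ext ?_ ?_ <;> funext e <;> by_cases h : e ∈ S <;> simp [mix, h]
  right_inv x := by
    refine Prod.ext ?_ ?_ <;> funext e <;> by_cases h : e ∈ S <;> simp [mix, h]

theorem mu_mix (w : Y → ℝ) (S : Finset E) (ω ω' : E → Y) :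
    mu w (mix S ω ω') * mu w (mix S ω' ω) = mu w ω * mu w ω' := by
  unfold mu
  rw [← Finset.prod_mul_distrib, ← Finset.prod_mul_distrib]
  refine Finset.prod_congr rfl fun e _ => ?_
  by_cases h : e ∈ S
  · simp [mix, h]
  · simp [mix, h, mul_comm]

theorem ex_one (w : Y → ℝ) (hw : ∑ y, w y = 1) : ex (E := E) w (fun _ => 1) = 1 := by
  unfold ex mu
  simp only [mul_one]
  have := Finset.prod_univ_sum (fun _ : E => (univ : Finset Y)) (fun _ y => w y)
  rw [Fintype.piFinset_univ] at this
  rw [← this, Finset.prod_eq_one]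
  intro e _
  exact hw

theorem ex_box (w : Y → ℝ) (B : E → Finset Y) :
    ex w (fun ω => if ∀ e, ω e ∈ B e then 1 else 0) = ∏ e, ∑ y ∈ B e, w y := by
  unfold ex mu
  rw [Finset.prod_univ_sum]
  simp only [mul_ite, mul_one, mul_zero]
  rw [← Finset.sum_filter]
  refine Finset.sum_congr ?_ fun _ _ => rfl
  ext ω
  simp [Fintype.mem_piFinset]

theorem ex_indep (w : Y → ℝ) (hw : ∑ y, w y = 1) (S : Finset E) (f g : (E → Y) → ℝ)
    (hf : ∀ ω ω' : E → Y, (∀ e ∈ S, ω e = ω' e) → f ω = f ω')
    (hg : ∀ ω ω' : E → Y, (∀ e ∉ S, ω e = ω' e) → g ω = g ω') :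
    ex w (fun ω => f ω * g ω) = ex w f * ex w g := by
  have h1 : ex w (fun ω => f ω * g ω) =
      ∑ x : (E → Y) × (E → Y), (mu w x.1 * mu w x.2) * (f x.1 * g x.1) := by
    have h2 : ex w (fun ω => f ω * g ω) =
        ex w (fun ω => f ω * g ω) * ex (E := E) w (fun _ => 1) := by
      rw [ex_one w hw, mul_one]
    rw [h2]
    unfold ex
    rw [Finset.sum_mul_sum, Fintype.sum_prod_type]
    refine Finset.sum_congr rfl fun a _ => Finset.sum_congr rfl fun b _ => ?_
    ring
  rw [h1]
  have h3 : ex w f * ex w g = ∑ x : (E → Y) × (E → Y), (mu w x.1 * mu w x.2) * (f x.1 * g x.2) := by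
    unfold ex
    rw [Finset.sum_mul_sum, Fintype.sum_prod_type]
    refine Finset.sum_congr rfl fun a _ => Finset.sum_congr rfl fun b _ => ?_
    ring
  rw [h3, ← Equiv.sum_comp (swp S)]
  refine Finset.sum_congr rfl fun x _ => ?_
  have e1 : (swp S x).1 = mix S x.1 x.2 := rfl
  have e2 : (swp S x).2 = mix S x.2 x.1 := rfl
  rw [e1, e2, mu_mix]
  have e3 : f (mix S x.1 x.2) = f x.1 := hf _ _ (fun e he => by simp [mix, he])
  have e4 : g (mix S x.1 x.2) = g x.2 := hg _ _ (fun e he => by simp [mix, he])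
  rw [e3, e4]

theorem mu_nonneg (w : Y → ℝ) (hw0 : ∀ y, 0 ≤ w y) (ω : E → Y) : 0 ≤ mu w ω :=
  Finset.prod_nonneg fun _ _ => hw0 _

theorem ex_mono (w : Y → ℝ) (hw0 : ∀ y, 0 ≤ w y) (f g : (E → Y) → ℝ) (h : ∀ ω, f ω ≤ g ω) :
    ex w f ≤ ex w g :=
  Finset.sum_le_sum fun ω _ => mul_le_mul_of_nonneg_left (h ω) (mu_nonneg w hw0 ω)

theorem ex_nonneg (w : Y → ℝ) (hw0 : ∀ y, 0 ≤ w y) (f : (E → Y) → ℝ) (h : ∀ ω, 0 ≤ f ω) :
    0 ≤ ex w f :=
  Finset.sum_nonneg fun ω _ => mul_nonneg (mu_nonneg w hw0 ω) (h ω)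

/-- indicator of a box -/
noncomputable def iB (B : E → Finset Y) (ω : E → Y) : ℝ := if ∀ e, ω e ∈ B e then 1 else 0

/-- indicator of the event that no box of `S` holds -/
noncomputable def iN (S : Finset (E → Finset Y)) (ω : E → Y) : ℝ :=
  if ∀ B ∈ S, ¬ ∀ e, ω e ∈ B e then 1 else 0

theorem iB_nonneg (B : E → Finset Y) (ω : E → Y) : 0 ≤ iB B ω := by
  unfold iB; split_ifs <;> norm_num

theorem iN_nonneg (S : Finset (E → Finset Y)) (ω : E → Y) : 0 ≤ iN S ω := by
  unfold iN; split_ifs <;> norm_num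

theorem iN_anti (S T : Finset (E → Finset Y)) (h : S ⊆ T) (ω : E → Y) : iN T ω ≤ iN S ω := by
  unfold iN
  by_cases h1 : ∀ B ∈ T, ¬ ∀ e, ω e ∈ B e
  · rw [if_pos h1, if_pos (fun B hB => h1 B (h hB))]
  · rw [if_neg h1]; split_ifs <;> norm_num

/-- union bound -/
theorem iN_union (S T : Finset (E → Finset Y)) (ω : E → Y) :
    iN S ω ≤ iN (T ∪ S) ω + ∑ B ∈ T, iB B ω * iN S ω := by
  by_cases h : ∀ B ∈ T ∪ S, ¬ ∀ e, ω e ∈ B e
  · have h1 : iN (T ∪ S) ω = 1 := if_pos h
    have h2 : 0 ≤ ∑ B ∈ T, iB B ω * iN S ω :=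
      Finset.sum_nonneg fun B _ => mul_nonneg (iB_nonneg B ω) (iN_nonneg S ω)
    have h3 : iN S ω ≤ 1 := by unfold iN; split_ifs <;> norm_num
    linarith
  · by_cases h1 : ∀ B ∈ S, ¬ ∀ e, ω e ∈ B e
    · push Not at h
      obtain ⟨B, hB, hBe⟩ := h
      have hBT : B ∈ T := by
        rcases Finset.mem_union.1 hB with h2 | h2
        · exact h2
        · exact absurd hBe (h1 B h2)
      have h2 : iB B ω * iN S ω ≤ ∑ B ∈ T, iB B ω * iN S ω :=
        Finset.single_le_sum (f := fun B => iB B ω * iN S ω)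
          (fun B _ => mul_nonneg (iB_nonneg B ω) (iN_nonneg S ω)) hBT
      have h3 : iB B ω = 1 := if_pos hBe
      rw [h3, one_mul] at h2
      have := iN_nonneg (T ∪ S) ω
      linarith
    · have h2 : iN S ω = 0 := if_neg h1
      have h3 : 0 ≤ ∑ B ∈ T, iB B ω * iN S ω :=
        Finset.sum_nonneg fun B _ => mul_nonneg (iB_nonneg B ω) (iN_nonneg S ω)
      have := iN_nonneg (T ∪ S) ω
      linarith

theorem ex_add (w : Y → ℝ) (f g : (E → Y) → ℝ) :
    ex w (fun ω => f ω + g ω) = ex w f + ex w g := by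
  unfold ex
  rw [← Finset.sum_add_distrib]
  exact Finset.sum_congr rfl fun ω _ => by ring

theorem ex_sum {ι : Type} (w : Y → ℝ) (s : Finset ι) (f : ι → (E → Y) → ℝ) :
    ex w (fun ω => ∑ i ∈ s, f i ω) = ∑ i ∈ s, ex w (f i) := by
  unfold ex
  rw [Finset.sum_comm]
  exact Finset.sum_congr rfl fun ω _ => by rw [Finset.mul_sum]

end LLL_aux

open LLL_aux in
theorem pr_LLL : LLL := by
  classical
  intro E Y _ _ _ _ w hw0 hw1 BS hne hsum
  let P : (E → Finset Y) → ℝ := fun B => ∏ e, ∑ y ∈ B e, w y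
  have hP : ∀ B, ex w (iB B) = P B := by
    intro B
    have := ex_box w B
    convert this using 1
    unfold ex
    refine Finset.sum_congr rfl fun ω _ => ?_
    unfold iB
    congr
  have hP0 : ∀ B, 0 ≤ P B := fun B => by
    rw [← hP B]; exact ex_nonneg w hw0 _ (iB_nonneg B)
  -- the key claim
  have key : ∀ (n : ℕ) (S : Finset (E → Finset Y)), S.card = n → S ⊆ BS → ∀ B ∈ BS,
      ex w (fun ω => iB B ω * iN S ω) ≤ 2 * P B * ex w (iN S) := by
    intro n
    induction n using Nat.strong_induction_on with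
    | _ n ih =>
      intro S hS hSB B hB
      let S1 := S.filter (fun B' => ∃ e, B e ≠ univ ∧ B' e ≠ univ)
      let S2 := S.filter (fun B' => ¬ ∃ e, B e ≠ univ ∧ B' e ≠ univ)
      have hS12 : S1 ∪ S2 = S := Finset.filter_union_filter_not_eq _ _
      have hS2S : S2 ⊆ S := Finset.filter_subset _ _
      have h1 : ex w (fun ω => iB B ω * iN S ω) ≤ ex w (fun ω => iB B ω * iN S2 ω) :=
        ex_mono w hw0 _ _ fun ω =>
          mul_le_mul_of_nonneg_left (iN_anti S2 S hS2S ω) (iB_nonneg B ω)
      have h2 : ex w (fun ω => iB B ω * iN S2 ω) = P B * ex w (iN S2) := by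
        rw [← hP B]
        refine ex_indep w hw1 (univ.filter fun e => B e ≠ univ) _ _ ?_ ?_
        · intro ω ω' h
          have h3 : (∀ e, ω e ∈ B e) ↔ ∀ e, ω' e ∈ B e := by
            refine forall_congr' fun e => ?_
            by_cases he : B e = univ
            · rw [he]; simp
            · rw [h e (by simp [he])]
          unfold iB
          by_cases h4 : ∀ e, ω e ∈ B e
          · rw [if_pos h4, if_pos (h3.1 h4)]
          · rw [if_neg h4, if_neg (fun h5 => h4 (h3.2 h5))]
        · intro ω ω' h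
          have h3 : (∀ B' ∈ S2, ¬ ∀ e, ω e ∈ B' e) ↔ ∀ B' ∈ S2, ¬ ∀ e, ω' e ∈ B' e := by
            refine forall_congr' fun B' => ?_
            refine imp_congr_right fun hB' => ?_
            refine not_congr (forall_congr' fun e => ?_)
            have h4 := (Finset.mem_filter.1 hB').2
            by_cases he : B' e = univ
            · rw [he]; simp
            · have h5 : B e = univ := by
                by_contra h6
                exact h4 ⟨e, h6, he⟩
              rw [h e (by simp [h5])]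
          unfold iN
          by_cases h4 : ∀ B' ∈ S2, ¬ ∀ e, ω e ∈ B' e
          · rw [if_pos h4, if_pos (h3.1 h4)]
          · rw [if_neg h4, if_neg (fun h5 => h4 (h3.2 h5))]
      have h0 : 0 ≤ ex w (iN S) := ex_nonneg w hw0 _ (iN_nonneg S)
      have h02 : 0 ≤ ex w (iN S2) := ex_nonneg w hw0 _ (iN_nonneg S2)
      have h3 : ex w (iN S2) ≤ 2 * ex w (iN S) := by
        by_cases hE : S1 = ∅
        · have : S2 = S := by rw [← hS12, hE, Finset.empty_union]
          rw [this]; linarith
        · have hlt : S2.card < n := by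
            rw [← hS]
            apply Finset.card_lt_card
            refine Finset.ssubset_iff_subset_ne.2 ⟨hS2S, fun h => hE ?_⟩
            rw [Finset.eq_empty_iff_forall_notMem]
            intro B' hB'
            have hm := Finset.mem_filter.1 hB'
            rw [← h] at hm
            exact (Finset.mem_filter.1 hm.1).2 hm.2
          have h4 : ex w (iN S2) ≤ ex w (iN S) +
              ∑ B' ∈ S1, ex w (fun ω => iB B' ω * iN S2 ω) := by
            rw [← ex_sum, ← ex_add]
            refine ex_mono w hw0 _ _ fun ω => ?_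
            have := iN_union S2 S1 ω
            rw [hS12] at this
            exact this
          have h5 : ∑ B' ∈ S1, ex w (fun ω => iB B' ω * iN S2 ω) ≤
              ∑ B' ∈ S1, 2 * P B' * ex w (iN S2) := by
            refine Finset.sum_le_sum fun B' hB' => ?_
            exact ih S2.card hlt S2 rfl (hS2S.trans hSB) B' (hSB (Finset.filter_subset _ _ hB'))
          have h6 : ∑ B' ∈ S1, 2 * P B' * ex w (iN S2) = 2 * (∑ B' ∈ S1, P B') * ex w (iN S2) := by
            rw [Finset.mul_sum, Finset.sum_mul]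
          have h7 : ∑ B' ∈ S1, P B' ≤ 1 / 4 := by
            refine le_trans ?_ (hsum B hB)
            refine Finset.sum_le_sum_of_subset_of_nonneg ?_ fun B' _ _ => hP0 B'
            exact Finset.filter_subset_filter _ hSB
          rw [h6] at h5
          nlinarith
      calc ex w (fun ω => iB B ω * iN S ω) ≤ P B * ex w (iN S2) := h1.trans_eq h2
        _ ≤ P B * (2 * ex w (iN S)) := mul_le_mul_of_nonneg_left h3 (hP0 B)
        _ = _ := by ring
  -- positivity
  have pos : ∀ S : Finset (E → Finset Y), S ⊆ BS → 0 < ex w (iN S) := by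
    intro S
    induction S using Finset.induction_on with
    | empty =>
      intro _
      have : ex w (iN (∅ : Finset (E → Finset Y))) = ex (E := E) w (fun _ => 1) := by
        unfold ex
        refine Finset.sum_congr rfl fun ω _ => ?_
        unfold iN
        rw [if_pos (by simp)]
      rw [this, ex_one w hw1]
      norm_num
    | insert B S hBS ih =>
      intro hsub
      have hB : B ∈ BS := hsub (Finset.mem_insert_self B S)
      have hS : S ⊆ BS := (Finset.subset_insert B S).trans hsub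
      have h1 := ih hS
      have h2 := key S.card S rfl hS B hB
      have h3 : ex w (iN S) ≤ ex w (iN (insert B S)) + ex w (fun ω => iB B ω * iN S ω) := by
        rw [← ex_add]
        refine ex_mono w hw0 _ _ fun ω => ?_
        have := iN_union S {B} ω
        rw [Finset.sum_singleton] at this
        exact this
      have h4 : P B ≤ 1 / 4 := by
        refine le_trans ?_ (hsum B hB)
        obtain ⟨e, he⟩ := hne B hB
        exact Finset.single_le_sum (f := P) (fun B' _ => hP0 B')
          (Finset.mem_filter.2 ⟨hB, e, he, he⟩)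
      nlinarith
  have hfin := pos BS (Finset.Subset.refl _)
  by_contra hcon
  push Not at hcon
  have : ex w (iN BS) = 0 := by
    unfold ex
    refine Finset.sum_eq_zero fun ω _ => ?_
    obtain ⟨B, hB, hBe⟩ := hcon ω
    unfold iN
    rw [if_neg (fun h => h B hB hBe), mul_zero]
  linarith

end Pool.Agent.Work.MP_2a0c1d_co
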