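import Pool.Agent.Work.MP_2a0c1d_co.Stmts

/-!
# Item LOOK: the look-ahead lemma
-/

set_option autoImplicit false

namespace Pool.Agent.Work.MP_2a0c1d_co

open Finset

theorem pr_LOOK : LOOK := by
  classical
  intro n t ω S a hS
  obtain ⟨hcard, hmono⟩ := hS
  have hno : ∀ e ∈ ed S, ¬ Flip t ω e := by
    intro e he hF
    have h1 : (!(col ω e)) = a := by
      have := hmono e he
      unfold cst at this
      rwa [if_pos hF] at this
    apply hF.2.2
    refine ⟨S, hcard, he, fun f hf hfe => ?_⟩
    have h2 := hmono f hf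
    unfold cst at h2
    by_cases hFf : Flip t ω f
    · rw [if_pos hFf] at h2
      right
      refine ⟨?_, hFf.1, hFf.2.1⟩
      have h3 := h2.trans h1.symm
      exact Bool.not_inj h3
    · rw [if_neg hFf] at h2
      left
      intro h3
      rw [h3] at h2
      rw [← h2] at h1
      cases h : col ω e <;> rw [h] at h1 <;> exact absurd h1 (by decide)
  have hcol : ∀ e ∈ ed S, col ω e = a := by
    intro e he
    have := hmono e he
    unfold cst at this
    rwa [if_neg (hno e he)] at this
  refine ⟨⟨hcard, hcol⟩, fun e he hm => ?_⟩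
  by_contra hB
  apply hno e he
  refine ⟨hm, ⟨S, he, hcard, fun f hf => ?_⟩, hB⟩
  rw [hcol f hf, hcol e he]

end Pool.Agent.Work.MP_2a0c1d_co
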