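import Pool.Agent.Work.MP_2a0c1d_co.Stmts

set_option autoImplicit false

namespace Pool.Agent.Work.MP_2a0c1d_co

open Finset

theorem N1_cancel (s : ℕ) : (Real.sqrt 2) ^ s * ((Real.sqrt 2) ^ (s + 2)) ^ s *
    (2 * (1 / 2 : ℝ) ^ (mm (s + 2))) = 1 := by
  have h2 : Real.sqrt 2 ^ 2 = 2 := Real.sq_sqrt (by norm_num)
  have hm : 2 * mm (s + 2) = (s + 2) * (s + 1) := by
    have := Nat.choose_two_right (s + 2)
    have h3 := Nat.triangle_succ (s + 1)
    unfold mm
    rw [this]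
    have : (s + 2) * (s + 2 - 1) % 2 = 0 := by
      have h := Nat.even_mul_pred_self (s + 2)
      exact Nat.even_iff.mp h
    have e : s + 2 - 1 = s + 1 := by omega
    rw [e] at this ⊢
    omega
  have h4 : (2 : ℝ) ^ (mm (s + 2)) = Real.sqrt 2 ^ ((s + 2) * (s + 1)) := by
    rw [← hm, pow_mul, h2]
  have h5 : (Real.sqrt 2) ^ s * ((Real.sqrt 2) ^ (s + 2)) ^ s * 2 =
      Real.sqrt 2 ^ ((s + 2) * (s + 1)) := by
    rw [← h2, Real.sqrt_sq (Real.sqrt_nonneg 2)]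
    rw [← pow_mul, ← pow_add, ← pow_add]
    congr 1
    ring
  have hp : (0 : ℝ) < Real.sqrt 2 ^ ((s + 2) * (s + 1)) := by positivity
  calc (Real.sqrt 2) ^ s * ((Real.sqrt 2) ^ (s + 2)) ^ s * (2 * (1 / 2 : ℝ) ^ (mm (s + 2)))
      = ((Real.sqrt 2) ^ s * ((Real.sqrt 2) ^ (s + 2)) ^ s * 2) / 2 ^ (mm (s + 2)) := by
        rw [one_div, inv_pow]; ring
    _ = 1 := by rw [h5, h4]; exact div_self hp.ne'

theorem pr_N1 : N1 := by
  intro ε h0 h1
  refine ⟨max 4 ⌈Real.exp (4 / ε)⌉₊, ?_⟩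
  intro t ht n hn
  have ht4 : 4 ≤ t := le_trans (le_max_left _ _) ht
  have hte : Real.exp (4 / ε) ≤ t := le_trans (Nat.le_ceil _)
    (by exact_mod_cast le_trans (le_max_right _ _) ht)
  obtain ⟨s, rfl⟩ : ∃ s, t = s + 2 := ⟨t - 2, by omega⟩
  have hs : 2 ≤ s := by omega
  have hsR : (2 : ℝ) ≤ (s : ℝ) := by exact_mod_cast hs
  obtain ⟨-, hn2⟩ := hn
  set x : ℝ := (1 / 2 - ε) * Real.log ((s + 2 : ℕ) : ℝ) / ((s + 2 : ℕ) : ℝ) with hx
  have htR : (4 : ℝ) ≤ ((s + 2 : ℕ) : ℝ) := by exact_mod_cast ht4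
  have htE : ((s + 2 : ℕ) : ℝ) = (s : ℝ) + 2 := by push_cast; ring
  set T : ℝ := ((s + 2 : ℕ) : ℝ) with hT
  have hTpos : 0 < T := by linarith
  have hlog : 0 ≤ Real.log T := Real.log_nonneg (by linarith)
  have hx0 : 0 ≤ x := by
    rw [hx]
    apply div_nonneg (mul_nonneg (by linarith) hlog) hTpos.le
  unfold W
  have hsub : s + 2 - 2 = s := by omega
  rw [hsub]
  -- the binomial coefficient
  have hc1 : (((n - 2).choose s : ℕ) : ℝ) ≤ ((n - 2 : ℕ) : ℝ) ^ s / (s.factorial : ℝ) := by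
    have := Nat.choose_le_pow_div (α := ℝ) s (n - 2)
    simpa using this
  have hn3 : ((n - 2 : ℕ) : ℝ) ≤ (1 + x) * (Real.sqrt 2 * T / Real.exp 1) * Real.sqrt 2 ^ (s + 2) := by
    refine le_trans ?_ hn2.le
    exact_mod_cast Nat.sub_le n 2
  have hfac : Real.sqrt (2 * Real.pi * s) * (s / Real.exp 1) ^ s ≤ (s.factorial : ℝ) :=
    Stirling.le_factorial_stirling s
  have hpi : 3 < Real.pi := Real.pi_gt_three
  have hsq : Real.sqrt T ≤ Real.sqrt (2 * Real.pi * s) := by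
    apply Real.sqrt_le_sqrt
    rw [htE]
    nlinarith
  have hsqT : 0 < Real.sqrt T := Real.sqrt_pos.mpr hTpos
  have hfac2 : Real.sqrt T * (s / Real.exp 1) ^ s ≤ (s.factorial : ℝ) := by
    refine le_trans ?_ hfac
    apply mul_le_mul_of_nonneg_right hsq
    positivity
  have hden : 0 < Real.sqrt T * (s / Real.exp 1) ^ s := by
    have : (0 : ℝ) < s := by linarith
    positivity
  have hpm : 0 ≤ pm (s + 2) := by unfold pm; positivity
  have hA : (((n - 2).choose s : ℕ) : ℝ) ≤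
      ((1 + x) * (Real.sqrt 2 * T / Real.exp 1) * Real.sqrt 2 ^ (s + 2)) ^ s /
        (Real.sqrt T * (s / Real.exp 1) ^ s) := by
    refine le_trans hc1 ?_
    apply div_le_div₀ (by positivity) (pow_le_pow_left₀ (by positivity) hn3 s) hden hfac2
  have hB : (((n - 2).choose s : ℕ) : ℝ) * pm (s + 2) ≤
      (1 + x) ^ s * (T / s) ^ s / Real.sqrt T := by
    refine le_trans (mul_le_mul_of_nonneg_right hA hpm) (le_of_eq ?_)
    have hc := N1_cancel s
    have hs0 : (s : ℝ) ≠ 0 := by linarith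
    have he : Real.exp 1 ≠ 0 := (Real.exp_pos 1).ne'
    unfold pm
    rw [mul_pow, mul_pow, div_pow (Real.sqrt 2 * T), mul_pow, div_pow (s : ℝ) (Real.exp 1),
      div_pow T (s : ℝ)]
    have hs1 : (s : ℝ) ^ s ≠ 0 := pow_ne_zero _ hs0
    have he1 : Real.exp 1 ^ s ≠ 0 := pow_ne_zero _ he
    have : (1 + x) ^ s * (Real.sqrt 2 ^ s * T ^ s / Real.exp 1 ^ s) * (Real.sqrt 2 ^ (s + 2)) ^ s /
        (Real.sqrt T * (↑s ^ s / Real.exp 1 ^ s)) * (2 * (1 / 2) ^ mm (s + 2)) =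
        (1 + x) ^ s * (T ^ s / s ^ s) / Real.sqrt T *
          (Real.sqrt 2 ^ s * (Real.sqrt 2 ^ (s + 2)) ^ s * (2 * (1 / 2 : ℝ) ^ (mm (s + 2)))) := by
      field_simp
    rw [this, hc, mul_one]
  refine le_trans hB ?_
  -- the three factors
  have h1x : (1 + x) ^ s ≤ T ^ (1 / 2 - ε) := by
    have e1 : 1 + x ≤ Real.exp x := by linarith [Real.add_one_le_exp x]
    calc (1 + x) ^ s ≤ (Real.exp x) ^ s := pow_le_pow_left₀ (by linarith) e1 s
      _ = Real.exp (s * x) := by rw [← Real.exp_nat_mul]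
      _ ≤ Real.exp (T * x) := by
          apply Real.exp_le_exp.mpr
          apply mul_le_mul_of_nonneg_right _ hx0
          rw [htE]; linarith
      _ = T ^ (1 / 2 - ε) := by
          rw [Real.rpow_def_of_pos hTpos, hx]
          congr 1
          field_simp
  have h2x : (T / s) ^ s ≤ Real.exp 2 := by
    have hs0 : (0 : ℝ) < s := by linarith
    have e1 : T / s = 1 + 2 / s := by rw [htE]; field_simp
    have e2 : 1 + 2 / (s : ℝ) ≤ Real.exp (2 / s) := by
      linarith [Real.add_one_le_exp (2 / (s : ℝ))]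
    calc (T / s) ^ s = (1 + 2 / (s : ℝ)) ^ s := by rw [e1]
      _ ≤ (Real.exp (2 / s)) ^ s := pow_le_pow_left₀ (by positivity) e2 s
      _ = Real.exp 2 := by
          rw [← Real.exp_nat_mul]
          congr 1
          field_simp
  have h3x : Real.exp 2 ≤ T ^ (ε / 2) := by
    rw [Real.rpow_def_of_pos hTpos]
    apply Real.exp_le_exp.mpr
    have : 4 / ε ≤ Real.log T := by
      rw [Real.le_log_iff_exp_le hTpos]
      exact hte
    calc (2 : ℝ) = 4 / ε * (ε / 2) := by field_simp; norm_num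
      _ ≤ Real.log T * (ε / 2) := mul_le_mul_of_nonneg_right this (by linarith)
  have hsqrt : Real.sqrt T = T ^ (1 / 2 : ℝ) := Real.sqrt_eq_rpow T
  rw [div_le_iff₀ hsqT]
  calc (1 + x) ^ s * (T / s) ^ s ≤ T ^ (1 / 2 - ε) * Real.exp 2 := by
        apply mul_le_mul h1x h2x (by positivity) (by positivity)
    _ ≤ T ^ (1 / 2 - ε) * T ^ (ε / 2) := by
        apply mul_le_mul_of_nonneg_left h3x (by positivity)
    _ = T ^ (-(ε / 2)) * Real.sqrt T := by
        rw [hsqrt, ← Real.rpow_add hTpos, ← Real.rpow_add hTpos]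
        congr 1
        ring

end Pool.Agent.Work.MP_2a0c1d_co
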