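import Pool.Agent.Work.MP_2a0c1d_co.Defs

/-!
# Lower order improvement of the diagonal Ramsey lower bound: items
-/

set_option autoImplicit false

namespace Pool.Agent.Work.MP_2a0c1d_co

open Finset

open Classical in
/-- Item LLL: local lemma for boxes in a finite product space. -/
def LLL : Prop := ∀ (E Y : Type) [Fintype E] [DecidableEq E] [Fintype Y] [DecidableEq Y]
  (w : Y → ℝ), (∀ y, 0 ≤ w y) → ∑ y, w y = 1 →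
  ∀ BS : Finset (E → Finset Y), (∀ B ∈ BS, ∃ e, B e ≠ univ) →
  (∀ B ∈ BS, (∑ B' ∈ BS.filter (fun B' => ∃ e, B e ≠ univ ∧ B' e ≠ univ),
    ∏ e, ∑ y ∈ B' e, w y) ≤ 1 / 4) →
  ∃ ω : E → Y, ∀ B ∈ BS, ∃ e, ω e ∉ B e

/-- Item SYM: the total weight through a pair, for a family invariant under permutations. -/
def SYM : Prop := ∀ (n M : ℕ) (ρ : ℝ), 0 ≤ ρ → ρ ≤ 1 → ∀ BS : Finset (Bx n),
  (∀ σ : Equiv.Perm (Fin n), ∀ B ∈ BS, (fun e => B (e.map σ)) ∈ BS) →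
  (∀ B ∈ BS, (supp B).card ≤ M ∧ ∀ e ∈ supp B, ¬ e.IsDiag) →
  ∀ e0 : Sym2 (Fin n), ¬ e0.IsDiag →
  (∑ B ∈ BS.filter (fun B => e0 ∈ supp B), prB ρ B) * (n.choose 2 : ℝ) ≤
    (M : ℝ) * ∑ B ∈ BS, prB ρ B

/-- Item LOOK: look-ahead lemma. -/
def LOOK : Prop := ∀ (n t : ℕ) (ω : Om n) (S : Finset (Fin n)) (a : Bool),
  Mono t (cst t ω) S a → Mono t (col ω) S a ∧ ∀ e ∈ ed S, mk ω e = true → Bad t ω e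

/-- Tree data on the nodes `0, ..., R` (empty sets are missing nodes). -/
def TreeData {n : ℕ} (R : ℕ) (T : ℕ → Finset (Fin n)) (p : ℕ → ℕ) (E : ℕ → Sym2 (Fin n)) :
    Prop :=
  ∀ i, 1 ≤ i → i ≤ R → T i ≠ ∅ → p i < i ∧ E i ∈ ed (T i) ∧ E i ∈ ed (T (p i)) ∧
    T i ≠ T (p i) ∧ (1 ≤ p i → E i ≠ E (p i)) ∧
    (∀ j, 1 ≤ j → j < i → T j ≠ ∅ → p j = p i → E j ≠ E i)

/-- Item TREE: in a clean tree a new set differs from all earlier ones. -/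
def TREE : Prop := ∀ (n R : ℕ) (T : ℕ → Finset (Fin n)) (p : ℕ → ℕ) (E : ℕ → Sym2 (Fin n)),
  TreeData R T p E → ∀ r, 1 ≤ r → r ≤ R → T r ≠ ∅ →
  (∀ i, 1 ≤ i → i < r → T i ≠ ∅ → (T i ∩ Un T i).card = 2) →
  ∀ j < r, T r ≠ T j

/-- Item CLEAN: without boxes of families 3 and 4 every tree of near sets is clean. -/
def CLEAN : Prop := ∀ (n t R : ℕ) (ω : Om n),
  (∀ B ∈ B3 n t, ¬ Holds ω B) → (∀ B ∈ B4 n t R, ¬ Holds ω B) →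
  ∀ (T : ℕ → Finset (Fin n)) (a : ℕ → Bool) (p : ℕ → ℕ) (E : ℕ → Sym2 (Fin n)),
  (T 0).card = t → (∀ i ≤ R, T i = ∅ ∨ (T i).card = t) → (∀ i ≤ R, Near ω (T i) (a i)) →
  TreeData R T p E → ∀ i, 1 ≤ i → i ≤ R → T i ≠ ∅ → (T i ∩ Un T i).card = 2

/-- Item EXT: an outcome in no bad box gives a colouring without monochromatic `t`-sets. -/
def EXT : Prop := ∀ (n t h d : ℕ) (ω : Om n), 1 ≤ h → 2 ≤ t →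
  (∀ B ∈ BB n t h d, ¬ Holds ω B) → ∀ (S : Finset (Fin n)) (a : Bool), ¬ Mono t (cst t ω) S a

/-- Item SUPP: supports of the bad boxes. -/
def SUPP : Prop := ∀ (n t h d : ℕ), 1 ≤ h → 2 ≤ t → ∀ B ∈ BB n t h d,
  (∃ e, B e ≠ univ) ∧ (supp B).card ≤ (h + h * d + 1) * mm t ∧ ∀ e ∈ supp B, ¬ e.IsDiag

/-- Item INV14: invariance of the families 1 to 4. -/
def INV14 : Prop := ∀ (n t h R : ℕ) (σ : Equiv.Perm (Fin n)),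
  (∀ B ∈ B1 n t h, (fun e => B (e.map σ)) ∈ B1 n t h) ∧
  (∀ B ∈ B2 n t, (fun e => B (e.map σ)) ∈ B2 n t) ∧
  (∀ B ∈ B3 n t, (fun e => B (e.map σ)) ∈ B3 n t) ∧
  (∀ B ∈ B4 n t R, (fun e => B (e.map σ)) ∈ B4 n t R)

/-- Item INV5: invariance of family 5. -/
def INV5 : Prop := ∀ (n t h d : ℕ) (σ : Equiv.Perm (Fin n)),
  ∀ B ∈ B5 n t h d, (fun e => B (e.map σ)) ∈ B5 n t h d

/-- Bound for family 1. -/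
noncomputable def sum1 (t h : ℕ) (ρ : ℝ) : ℝ :=
  ∑ j ∈ range h, ((mm t).choose j : ℝ) * ρ ^ j * (1 - ρ) ^ (mm t - j)

/-- Bound for family 3. -/
noncomputable def sum3 (n t : ℕ) (ρ : ℝ) : ℝ :=
  ∑ b ∈ Ico 3 t, (t.choose b : ℝ) * ((n - t).choose (t - b) : ℝ) * 4 *
    ((1 + ρ) / 2) ^ (2 * mm t - b.choose 2)

/-- Bound for family 4. -/
noncomputable def sum4 (n t R : ℕ) (ρ : ℝ) : ℝ :=
  2 * ((1 + ρ) / 2) ^ mm t *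
    (2 * (1 + ((t * R).choose 2 : ℝ) * ((n - 2).choose (t - 2) : ℝ) *
      ((1 + ρ) / 2) ^ (mm t - 1))) ^ (R - 1) *
    (((t * R).choose 3 : ℝ) * ((n - 3).choose (t - 3) : ℝ) * 2 * ((1 + ρ) / 2) ^ (mm t - R))

/-- Bound for family 5. -/
noncomputable def sum5 (n t h d : ℕ) (ρ : ℝ) : ℝ :=
  (ρ * mm t * W n t * ((1 + ρ * mm t * W n t) ^ d +
    (1 + ρ) ^ mm t * (ρ * mm t * W n t) ^ d)) ^ h

/-- Item S1. -/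
def S1 : Prop := ∀ (n t h : ℕ) (ρ : ℝ), 0 ≤ ρ → ρ ≤ 1 →
  ∑ B ∈ B1 n t h, prB ρ B ≤ (n.choose t : ℝ) * (pm t * sum1 t h ρ)

/-- Item S2. -/
def S2 : Prop := ∀ (n t : ℕ) (ρ : ℝ), 0 ≤ ρ → ρ ≤ 1 →
  ∑ B ∈ B2 n t, prB ρ B ≤ (n.choose t : ℝ) * ρ ^ mm t

/-- Item PN: probability of a near box. -/
def PN : Prop := ∀ (n k : ℕ) (T : ℕ → Finset (Fin n)) (a : ℕ → Bool) (ρ : ℝ), 0 ≤ ρ → ρ ≤ 1 →
  prB ρ (nearB k T a) ≤ ((1 + ρ) / 2) ^ ((range k).biUnion fun i => ed (T i)).card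

/-- Item S3. -/
def S3 : Prop := ∀ (n t : ℕ) (ρ : ℝ), 0 ≤ ρ → ρ ≤ 1 →
  ∑ B ∈ B3 n t, prB ρ B ≤ (n.choose t : ℝ) * sum3 n t ρ

/-- Item SEQ: sums over sequences, one entry at a time. -/
def SEQ : Prop := ∀ (α : Type) [Fintype α] (k : ℕ) (F : (j : ℕ) → (Fin j → α) → ℝ) (c : ℕ → ℝ),
  (∀ j, 0 ≤ c j) → (∀ T, F 0 T ≤ 1) →
  (∀ j < k, ∀ T : Fin j → α, ∑ x, F (j + 1) (Fin.snoc T x) ≤ c j * F j T) →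
  ∑ T : Fin k → α, F k T ≤ ∏ j ∈ range k, c j

/-- Item S4. -/
def S4 : Prop := ∀ (n t R : ℕ) (ρ : ℝ), 0 ≤ ρ → ρ ≤ 1 → 1 ≤ R →
  ∑ B ∈ B4 n t R, prB ρ B ≤ (n.choose t : ℝ) * sum4 n t R ρ

open Classical in
/-- Item PB5: probability of the box of a tree. -/
def PB5 : Prop := ∀ (n t h d : ℕ) (ρ : ℝ) (a : Bool) (S : Finset (Fin n)) (x : Fin h → Thr n d),
  0 ≤ ρ → ρ ≤ 1 → 2 ≤ t → OkD t S x →
  prB ρ (box5 a S x) ≤ (1 / 2) ^ mm t * ρ ^ h *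
    ∏ i, (pm t * (if ∀ l, (x i).2.2 l ≠ none then (1 + ρ) ^ mm t else 1) *
      ∏ l, (if (x i).2.2 l = none then 1 else ρ * pm t))

/-- Item S5. -/
def S5 : Prop := ∀ (n t h d : ℕ) (ρ : ℝ), 0 ≤ ρ → ρ ≤ 1 → 2 ≤ t →
  ∑ B ∈ B5 n t h d, prB ρ B ≤ (n.choose t : ℝ) * (pm t * sum5 n t h d ρ)

/-- Item N1: Stirling. -/
def N1 : Prop := ∀ ε : ℝ, 0 < ε → ε < 1 / 2 → ∃ T0 : ℕ, ∀ t, T0 ≤ t → ∀ n, InR ε t n →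
  W n t ≤ (t : ℝ) ^ (-(ε / 2))

/-- Item NE1. -/
def NE1 : Prop := ∀ h R : ℕ, ∃ T0 : ℕ, ∀ t, T0 ≤ t →
  sum1 t h (rho t) ≤ 1 / (20 * ((R : ℝ) + 1) ^ 2 * (t : ℝ) ^ 2)

/-- Item NE2. -/
def NE2 : Prop := ∀ R : ℕ, ∃ T0 : ℕ, ∀ t, T0 ≤ t →
  0 < rho t ∧ rho t ≤ 1 / 2 ∧
  rho t ^ mm t ≤ pm t * (1 / (20 * ((R : ℝ) + 1) ^ 2 * (t : ℝ) ^ 2))

/-- Item NE3. -/
def NE3 : Prop := ∀ (ε : ℝ) (R : ℕ), 0 < ε → ε < 1 / 2 → ∃ T0 : ℕ, ∀ t, T0 ≤ t → ∀ n,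
  InR ε t n → W n t ≤ 1 →
  sum3 n t (rho t) ≤ pm t * (1 / (20 * ((R : ℝ) + 1) ^ 2 * (t : ℝ) ^ 2))

/-- Item NE4. -/
def NE4 : Prop := ∀ (ε : ℝ) (R : ℕ), 0 < ε → ε < 1 / 2 → 1 ≤ R → ∃ T0 : ℕ, ∀ t, T0 ≤ t → ∀ n,
  InR ε t n → W n t ≤ 1 →
  sum4 n t R (rho t) ≤ pm t * (1 / (20 * ((R : ℝ) + 1) ^ 2 * (t : ℝ) ^ 2))

/-- Item NE5. -/
def NE5 : Prop := ∀ ε : ℝ, 0 < ε → ε < 1 / 2 → ∃ h d : ℕ, 1 ≤ h ∧ ∃ T0 : ℕ, ∀ t, T0 ≤ t → ∀ n,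
  W n t ≤ (t : ℝ) ^ (-(ε / 2)) →
  sum5 n t h d (rho t) ≤ 1 / (20 * (((h + h * d : ℕ) : ℝ) + 1) ^ 2 * (t : ℝ) ^ 2)

/-- Item SUMALL: the total weight of the bad boxes. -/
def SUMALL : Prop := ∀ ε : ℝ, 0 < ε → ε < 1 / 2 → ∃ h d : ℕ, 1 ≤ h ∧ ∃ T0 : ℕ, ∀ t, T0 ≤ t →
  0 < rho t ∧ rho t ≤ 1 / 2 ∧ ∀ n, InR ε t n →
  4 * (((h + h * d + 1) * mm t : ℕ) : ℝ) ^ 2 * ∑ B ∈ BB n t h d, prB (rho t) B ≤
    (n.choose 2 : ℝ)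

/-- Item GRA: from a colouring to a graph, and restriction to fewer vertices. -/
def GRA : Prop :=
  (∀ (n t : ℕ) (f : Sym2 (Fin n) → Bool), (∀ (S : Finset (Fin n)) (a : Bool), ¬ Mono t f S a) →
    ∃ G : SimpleGraph (Fin n), G.CliqueFree t ∧ Gᶜ.CliqueFree t) ∧
  (∀ (n n' t : ℕ), n' ≤ n → (∃ G : SimpleGraph (Fin n), G.CliqueFree t ∧ Gᶜ.CliqueFree t) →
    ∃ G : SimpleGraph (Fin n'), G.CliqueFree t ∧ Gᶜ.CliqueFree t)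

/-- Item CORE: one value of `n`. -/
def CORE : Prop := ∀ ε : ℝ, 0 < ε → ε < 1 / 2 → ∃ T0 : ℕ, ∀ t, T0 ≤ t → ∀ n, InR ε t n →
  ∃ G : SimpleGraph (Fin n), G.CliqueFree t ∧ Gᶜ.CliqueFree t

/-- The final statement. -/
def MAIN : Prop := ∀ ε : ℝ, 0 < ε → ∃ T : ℕ, ∀ t : ℕ, T ≤ t → ∀ n : ℕ,
  (n : ℝ) < (1 + (1 / 2 - ε) * Real.log t / t) * (Real.sqrt 2 * (t : ℝ) / Real.exp 1) *
    Real.sqrt 2 ^ t →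
  ∃ G : SimpleGraph (Fin n), G.CliqueFree t ∧ Gᶜ.CliqueFree t

end Pool.Agent.Work.MP_2a0c1d_co
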