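import Mathlib
import Pool.Agent.Work.MP_2a0c1d_co.Stmts

/-!
# Item NE1: numeric bound for family 1
-/

set_option autoImplicit false

namespace Pool.Agent.Work.MP_2a0c1d_co

open Finset

/-- The number of pairs of a `t`-set is at least `t` for `t >= 3`. -/
theorem ne1_mm_ge (t : ℕ) (ht : 3 ≤ t) : t ≤ mm t := by
  unfold mm
  rw [Nat.choose_two_right]
  rw [Nat.le_div_iff_mul_le (by norm_num)]
  have : 2 ≤ t - 1 := by omega
  exact Nat.mul_le_mul_left t this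

/-- One term of the sum. -/
theorem ne1_term (t h j : ℕ) (hj : j < h) (hth : h ≤ t) (ht : 3 ≤ t)
    (hr0 : 0 ≤ rho t) (hr1 : rho t ≤ 1) (hL : 1 ≤ 3 * Real.log t) :
    ((mm t).choose j : ℝ) * rho t ^ j * (1 - rho t) ^ (mm t - j)
      ≤ (3 * Real.log t) ^ h * Real.exp h * ((t : ℝ) ^ 3)⁻¹ := by
  have hmt : t ≤ mm t := ne1_mm_ge t ht
  have hjm : j ≤ mm t := by omega
  have hm0 : (0 : ℝ) < (mm t : ℝ) := by
    have : 0 < mm t := by omega
    exact_mod_cast this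
  have ht0 : (0 : ℝ) < (t : ℝ) := by
    have : 0 < t := by omega
    exact_mod_cast this
  have hmr : (mm t : ℝ) * rho t = 3 * Real.log t := by
    unfold rho
    field_simp
  have h1 : ((mm t).choose j : ℝ) * rho t ^ j ≤ (3 * Real.log t) ^ h := by
    have h2 : ((mm t).choose j : ℝ) ≤ (mm t : ℝ) ^ j := by
      exact_mod_cast Nat.choose_le_pow (mm t) j
    calc ((mm t).choose j : ℝ) * rho t ^ j ≤ (mm t : ℝ) ^ j * rho t ^ j :=
          mul_le_mul_of_nonneg_right h2 (pow_nonneg hr0 j)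
      _ = (3 * Real.log t) ^ j := by rw [← mul_pow, hmr]
      _ ≤ (3 * Real.log t) ^ h := pow_le_pow_right₀ hL hj.le
  have h3 : (1 - rho t) ^ (mm t - j) ≤ Real.exp h * ((t : ℝ) ^ 3)⁻¹ := by
    have h4 : 1 - rho t ≤ Real.exp (-rho t) := by
      have := Real.add_one_le_exp (-rho t)
      linarith
    have h5 : (1 - rho t) ^ (mm t - j) ≤ Real.exp (-rho t) ^ (mm t - j) :=
      pow_le_pow_left₀ (by linarith) h4 _
    have h6 : Real.exp (-rho t) ^ (mm t - j) = Real.exp (((mm t - j : ℕ) : ℝ) * (-rho t)) := by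
      rw [← Real.exp_nat_mul]
    have h7 : ((mm t - j : ℕ) : ℝ) = (mm t : ℝ) - j := by
      rw [Nat.cast_sub hjm]
    have h8 : (((mm t : ℝ) - j) * (-rho t)) = -(3 * Real.log t) + j * rho t := by
      rw [← hmr]; ring
    have h9 : Real.exp (-(3 * Real.log t)) = ((t : ℝ) ^ 3)⁻¹ := by
      rw [Real.exp_neg]
      congr 1
      have : (3 : ℝ) * Real.log t = ((3 : ℕ) : ℝ) * Real.log t := by norm_num
      rw [this, Real.exp_nat_mul, Real.exp_log ht0]
    have h10 : (j : ℝ) * rho t ≤ h := by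
      have hj' : (j : ℝ) ≤ (h : ℝ) := by exact_mod_cast hj.le
      have : (j : ℝ) * rho t ≤ (j : ℝ) * 1 := mul_le_mul_of_nonneg_left hr1 (Nat.cast_nonneg j)
      linarith
    calc (1 - rho t) ^ (mm t - j) ≤ Real.exp (-rho t) ^ (mm t - j) := h5
      _ = Real.exp (-(3 * Real.log t) + j * rho t) := by rw [h6, h7, h8]
      _ = ((t : ℝ) ^ 3)⁻¹ * Real.exp (j * rho t) := by rw [Real.exp_add, h9]
      _ ≤ ((t : ℝ) ^ 3)⁻¹ * Real.exp h := by
          apply mul_le_mul_of_nonneg_left (Real.exp_le_exp.mpr h10)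
          positivity
      _ = Real.exp h * ((t : ℝ) ^ 3)⁻¹ := by ring
  have h11 : (0 : ℝ) ≤ (1 - rho t) ^ (mm t - j) := pow_nonneg (by linarith) _
  have h12 : (0 : ℝ) ≤ (3 * Real.log t) ^ h := pow_nonneg (by linarith) _
  calc ((mm t).choose j : ℝ) * rho t ^ j * (1 - rho t) ^ (mm t - j)
      ≤ (3 * Real.log t) ^ h * (Real.exp h * ((t : ℝ) ^ 3)⁻¹) :=
        mul_le_mul h1 h3 h11 h12
    _ = (3 * Real.log t) ^ h * Real.exp h * ((t : ℝ) ^ 3)⁻¹ := by ring

/-- The marking probability is between `0` and `1` for large `t`. -/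
theorem ne1_rho : ∀ᶠ t : ℕ in Filter.atTop, 0 ≤ rho t ∧ rho t ≤ 1 := by
  have h1 : ∀ᶠ x : ℝ in Filter.atTop, ‖Real.log x ^ 1‖ ≤ (1 / 6) * ‖id x‖ :=
    (Real.isLittleO_pow_log_id_atTop (n := 1)).def (by norm_num)
  have h2 : ∀ᶠ t : ℕ in Filter.atTop, ‖Real.log (t : ℝ) ^ 1‖ ≤ (1 / 6) * ‖id (t : ℝ)‖ :=
    tendsto_natCast_atTop_atTop.eventually h1
  filter_upwards [h2, Filter.eventually_ge_atTop 3] with t h3 ht
  have hmt : t ≤ mm t := ne1_mm_ge t ht
  have hm0 : (0 : ℝ) < (mm t : ℝ) := by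
    have : 0 < mm t := by omega
    exact_mod_cast this
  have ht1 : (1 : ℝ) ≤ (t : ℝ) := by
    have : 1 ≤ t := by omega
    exact_mod_cast this
  have hlog : 0 ≤ Real.log t := Real.log_nonneg ht1
  have hmt' : (t : ℝ) ≤ (mm t : ℝ) := by exact_mod_cast hmt
  simp only [pow_one, Real.norm_eq_abs, id] at h3
  rw [abs_of_nonneg hlog, abs_of_nonneg (by linarith)] at h3
  constructor
  · unfold rho
    positivity
  · unfold rho
    rw [div_le_one hm0]
    linarith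

theorem pr_NE1 : NE1 := by
  intro h R
  have hC : (0 : ℝ) < 20 * ((R : ℝ) + 1) ^ 2 * h * 3 ^ h * Real.exp h + 1 := by positivity
  have h1 : ∀ᶠ x : ℝ in Filter.atTop, ‖Real.log x ^ h‖ ≤
      (1 / (20 * ((R : ℝ) + 1) ^ 2 * h * 3 ^ h * Real.exp h + 1)) * ‖id x‖ :=
    (Real.isLittleO_pow_log_id_atTop (n := h)).def (by positivity)
  have h2 : ∀ᶠ t : ℕ in Filter.atTop, ‖Real.log (t : ℝ) ^ h‖ ≤
      (1 / (20 * ((R : ℝ) + 1) ^ 2 * h * 3 ^ h * Real.exp h + 1)) * ‖id (t : ℝ)‖ :=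
    tendsto_natCast_atTop_atTop.eventually h1
  have h3 : ∀ᶠ t : ℕ in Filter.atTop,
      sum1 t h (rho t) ≤ 1 / (20 * ((R : ℝ) + 1) ^ 2 * (t : ℝ) ^ 2) := by
    filter_upwards [h2, ne1_rho, Filter.eventually_ge_atTop 3, Filter.eventually_ge_atTop h]
      with t h4 h5 ht hth
    have ht3 : (3 : ℝ) ≤ (t : ℝ) := by exact_mod_cast ht
    have hlog : 1 ≤ Real.log t := by
      rw [Real.le_log_iff_exp_le (by linarith)]
      have := Real.exp_one_lt_d9
      linarith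
    simp only [Real.norm_eq_abs, id] at h4
    rw [abs_of_nonneg (pow_nonneg (by linarith) h), abs_of_nonneg (by linarith)] at h4
    have h6 : Real.log t ^ h * (20 * ((R : ℝ) + 1) ^ 2 * h * 3 ^ h * Real.exp h + 1) ≤ t := by
      rw [one_div, inv_mul_eq_div, le_div_iff₀ hC] at h4
      exact h4
    have h7 : sum1 t h (rho t) ≤
        h * ((3 * Real.log t) ^ h * Real.exp h * ((t : ℝ) ^ 3)⁻¹) := by
      unfold sum1
      have h8 : ∀ j ∈ range h, ((mm t).choose j : ℝ) * rho t ^ j * (1 - rho t) ^ (mm t - j)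
          ≤ (3 * Real.log t) ^ h * Real.exp h * ((t : ℝ) ^ 3)⁻¹ := fun j hj =>
        ne1_term t h j (mem_range.mp hj) hth ht h5.1 h5.2 (by linarith)
      have h9 := sum_le_card_nsmul _ _ _ h8
      simpa [nsmul_eq_mul] using h9
    refine h7.trans ?_
    have hpos : (0 : ℝ) < (t : ℝ) := by linarith
    have h10 : (0 : ℝ) ≤ Real.log t ^ h := pow_nonneg (by linarith) h
    rw [le_div_iff₀ (by positivity), mul_pow]
    have h11 : (h : ℝ) * (3 ^ h * Real.log t ^ h * Real.exp h * ((t : ℝ) ^ 3)⁻¹) *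
        (20 * ((R : ℝ) + 1) ^ 2 * (t : ℝ) ^ 2) =
        (Real.log t ^ h * (20 * ((R : ℝ) + 1) ^ 2 * h * 3 ^ h * Real.exp h)) * (t : ℝ)⁻¹ := by
      field_simp
    rw [h11, ← div_eq_mul_inv, div_le_one hpos]
    nlinarith [h6, h10]
  exact Filter.eventually_atTop.mp h3

end Pool.Agent.Work.MP_2a0c1d_co
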