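import Pool.Agent.Work.MP_2a0c1d_co.Stmts

set_option autoImplicit false

namespace Pool.Agent.Work.MP_2a0c1d_co

open Finset

theorem pr_NE2 : NE2 := by
  intro R
  have hlim : Filter.Tendsto (fun n : ℕ => (n : ℝ) ^ 2 * (1 / 2 : ℝ) ^ n) Filter.atTop (nhds 0) :=
    tendsto_pow_const_mul_const_pow_of_abs_lt_one 2 (by rw [abs_of_pos] <;> norm_num)
  have hR : (0 : ℝ) < 1 / (10 * ((R : ℝ) + 1) ^ 2) := by positivity
  have hev := hlim.eventually (gt_mem_nhds hR)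
  obtain ⟨T1, hT1⟩ := Filter.eventually_atTop.1 hev
  refine ⟨max T1 25, fun t ht => ?_⟩
  have ht1 : T1 ≤ t := le_trans (le_max_left _ _) ht
  have ht25 : 25 ≤ t := le_trans (le_max_right _ _) ht
  have ht25R : (25 : ℝ) ≤ (t : ℝ) := by exact_mod_cast ht25
  have htpos : (0 : ℝ) < (t : ℝ) := by linarith
  have hm : (mm t : ℝ) = (t : ℝ) * ((t : ℝ) - 1) / 2 := by
    rw [mm, Nat.cast_choose_two]
  have hm12 : 12 * (t : ℝ) ≤ (mm t : ℝ) := by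
    rw [hm]
    nlinarith
  have hmpos : (0 : ℝ) < (mm t : ℝ) := by linarith
  have hlogpos : 0 < Real.log t := Real.log_pos (by linarith)
  have hlog : Real.log t ≤ (t : ℝ) := by
    have := Real.log_le_sub_one_of_pos htpos
    linarith
  have hrpos : 0 < rho t := by
    rw [rho]
    positivity
  have hr4 : rho t ≤ 1 / 4 := by
    rw [rho, div_le_iff₀ hmpos]
    linarith
  refine ⟨hrpos, by linarith, ?_⟩
  have h1 : rho t ^ mm t ≤ (1 / 4 : ℝ) ^ mm t := pow_le_pow_left₀ hrpos.le hr4 _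
  have h2 : (1 / 4 : ℝ) ^ mm t = (1 / 2 : ℝ) ^ mm t * (1 / 2 : ℝ) ^ mm t := by
    rw [← mul_pow]
    norm_num
  have hmt : t ≤ mm t := by
    have : (t : ℝ) ≤ (mm t : ℝ) := by linarith
    exact_mod_cast this
  have h3 : (1 / 2 : ℝ) ^ mm t ≤ (1 / 2 : ℝ) ^ t :=
    pow_le_pow_of_le_one (by norm_num) (by norm_num) hmt
  have h4 := hT1 t ht1
  have h5 : (1 / 2 : ℝ) ^ t ≤ 2 * (1 / (20 * ((R : ℝ) + 1) ^ 2 * (t : ℝ) ^ 2)) := by
    have h6 : 2 * (1 / (20 * ((R : ℝ) + 1) ^ 2 * (t : ℝ) ^ 2))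
        = (1 / (10 * ((R : ℝ) + 1) ^ 2)) / (t : ℝ) ^ 2 := by
      field_simp
      norm_num
    rw [h6, le_div_iff₀ (by positivity)]
    linarith
  have h7 : (0 : ℝ) ≤ (1 / 2 : ℝ) ^ mm t := by positivity
  calc rho t ^ mm t ≤ (1 / 2 : ℝ) ^ mm t * (1 / 2 : ℝ) ^ mm t := by rw [← h2]; exact h1
    _ ≤ (1 / 2 : ℝ) ^ mm t * (2 * (1 / (20 * ((R : ℝ) + 1) ^ 2 * (t : ℝ) ^ 2))) :=
        mul_le_mul_of_nonneg_left (le_trans h3 h5) h7
    _ = pm t * (1 / (20 * ((R : ℝ) + 1) ^ 2 * (t : ℝ) ^ 2)) := by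
        rw [pm]
        ring

end Pool.Agent.Work.MP_2a0c1d_co
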