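import Pool.Agent.Work.MP_2a0c1d_co.Stmts

/-!
# Item NE4: numerics for family 4
-/

set_option autoImplicit false

namespace Pool.Agent.Work.MP_2a0c1d_co

open Finset Filter

/-- Powers of `(1+ρ)/2`. -/
theorem ne4_q (t j : ℕ) (ht : 3 ≤ t) (hj : j ≤ mm t) :
    ((1 + rho t) / 2) ^ (mm t - j) ≤ (t : ℝ) ^ 3 * 2 ^ j * (1 / 2) ^ mm t := by
  have ht0 : (0 : ℝ) < t := by positivity
  have ht1 : (1 : ℝ) ≤ t := by exact_mod_cast (by omega : 1 ≤ t)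
  have hm : 0 < mm t := Nat.choose_pos (by omega)
  have hmR : (0 : ℝ) < mm t := by exact_mod_cast hm
  have hlog : 0 ≤ Real.log t := Real.log_nonneg ht1
  have hrho : 0 ≤ rho t := by unfold rho; positivity
  have h1 : (1 + rho t) ^ (mm t - j) ≤ (t : ℝ) ^ 3 := by
    calc (1 + rho t) ^ (mm t - j) ≤ (1 + rho t) ^ mm t :=
          pow_le_pow_right₀ (by linarith) (Nat.sub_le _ _)
      _ ≤ (Real.exp (rho t)) ^ mm t := by
          apply pow_le_pow_left₀ (by linarith)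
          rw [add_comm]; exact Real.add_one_le_exp _
      _ = Real.exp (3 * Real.log t) := by
          rw [← Real.exp_nat_mul]
          congr 1
          unfold rho
          field_simp
      _ = (t : ℝ) ^ 3 := by
          rw [show (3 : ℝ) * Real.log t = ((3 : ℕ) : ℝ) * Real.log t by norm_num,
            Real.exp_nat_mul, Real.exp_log ht0]
  have h2 : (1 / 2 : ℝ) ^ (mm t - j) = 2 ^ j * (1 / 2) ^ mm t := by
    have : (1 / 2 : ℝ) ^ mm t = (1 / 2) ^ (mm t - j) * (1 / 2) ^ j := by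
      rw [← pow_add]; congr 1; omega
    rw [this]
    have h3 : (2 : ℝ) ^ j * (1 / 2) ^ j = 1 := by
      rw [← mul_pow]; norm_num
    calc (1 / 2 : ℝ) ^ (mm t - j) = (1 / 2 : ℝ) ^ (mm t - j) * (2 ^ j * (1 / 2) ^ j) := by
          rw [h3, mul_one]
      _ = _ := by ring
  rw [show (1 + rho t) / 2 = (1 + rho t) * (1 / 2) by ring, mul_pow, h2, mul_assoc]
  exact mul_le_mul_of_nonneg_right h1 (by positivity)

/-- The polynomial loses against `√2 ^ t`. -/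
theorem ne4_tend (C : ℝ) (K : ℕ) : ∃ T0 : ℕ, ∀ t : ℕ, T0 ≤ t →
    C * (t : ℝ) ^ K ≤ Real.sqrt 2 ^ t := by
  have h1 : (1 : ℝ) < Real.sqrt 2 := by
    rw [show (1 : ℝ) = Real.sqrt 1 by simp]
    exact Real.sqrt_lt_sqrt (by norm_num) (by norm_num)
  have h := tendsto_pow_const_div_const_pow_of_one_lt K h1
  have h' := h.const_mul C
  rw [mul_zero] at h'
  have h2 := h'.eventually (gt_mem_nhds (zero_lt_one))
  rw [eventually_atTop] at h2
  obtain ⟨T0, hT0⟩ := h2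
  refine ⟨T0, fun t ht => ?_⟩
  have h3 := hT0 t ht
  have hp : 0 < Real.sqrt 2 ^ t := by positivity
  rw [← mul_div_assoc, div_lt_one hp] at h3
  exact h3.le

theorem pr_NE4 : NE4 := by
  intro ε R hε hε2 hR
  obtain ⟨T1, hT1⟩ := ne4_tend
    (40 * ((R : ℝ) + 1) ^ 2 * (4 * (R : ℝ) ^ 2) ^ (R - 1) * (R : ℝ) ^ 3 * 2 ^ R)
    (5 * (R - 1) + 12)
  obtain ⟨T2, hT2⟩ := ne4_tend 4 0
  refine ⟨T1 + T2 + R + 3, fun t ht n hn hW => ?_⟩
  have ht3 : 3 ≤ t := by omega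
  have hmR : R ≤ mm t := by
    have h1 : t ≤ mm t := by
      unfold mm
      rw [Nat.choose_two_right, Nat.le_div_iff_mul_le (by norm_num)]
      exact Nat.mul_le_mul_left _ (by omega)
    omega
  have hm1 : 1 ≤ mm t := le_trans hR hmR
  have hlow := hn.1
  have hpoly := hT1 t (by omega)
  have hfour := hT2 t (by omega)
  simp only [pow_zero, mul_one] at hfour
  have hn4 : (4 : ℝ) ≤ n := le_trans hfour hlow
  have hn4' : 4 ≤ n := by exact_mod_cast hn4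
  have ht0 : (0 : ℝ) < t := by positivity
  have ht1 : (1 : ℝ) ≤ t := by exact_mod_cast (by omega : 1 ≤ t)
  have hR0 : (1 : ℝ) ≤ R := by exact_mod_cast hR
  have hR1 : (0 : ℝ) < R := by linarith
  have hlog : 0 ≤ Real.log t := Real.log_nonneg ht1
  have hmpos : (0 : ℝ) < mm t := by exact_mod_cast hm1
  have hrho : 0 ≤ rho t := by unfold rho; positivity
  have hq0 : 0 ≤ (1 + rho t) / 2 := by linarith
  have hpm : 0 < pm t := by unfold pm; positivity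
  have hnn : (0 : ℝ) < (n : ℝ) - 2 := by linarith
  -- first factor
  have f1 : 2 * ((1 + rho t) / 2) ^ mm t ≤ pm t * (t : ℝ) ^ 3 := by
    have := ne4_q t 0 ht3 (Nat.zero_le _)
    simp only [Nat.sub_zero, pow_zero, mul_one] at this
    unfold pm
    linarith
  -- middle factor
  have f2 : ((n - 2).choose (t - 2) : ℝ) * ((1 + rho t) / 2) ^ (mm t - 1) ≤ (t : ℝ) ^ 3 := by
    have h1 := ne4_q t 1 ht3 hm1
    have h2 : ((n - 2).choose (t - 2) : ℝ) * ((1 + rho t) / 2) ^ (mm t - 1) ≤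
        W n t * (t : ℝ) ^ 3 := by
      have := mul_le_mul_of_nonneg_left h1 (Nat.cast_nonneg (α := ℝ) ((n - 2).choose (t - 2)))
      refine this.trans (le_of_eq ?_)
      unfold W pm
      ring
    refine h2.trans ?_
    have h3 : (0 : ℝ) ≤ (t : ℝ) ^ 3 := by positivity
    nlinarith
  have hC2 : ((t * R).choose 2 : ℝ) ≤ (R : ℝ) ^ 2 * (t : ℝ) ^ 2 := by
    have h1 : (t * R).choose 2 ≤ (t * R) ^ 2 := Nat.choose_le_pow _ _
    have h2 : ((t * R).choose 2 : ℝ) ≤ ((t * R : ℕ) : ℝ) ^ 2 := by exact_mod_cast h1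
    refine h2.trans (le_of_eq ?_)
    push_cast
    ring
  have hC3 : ((t * R).choose 3 : ℝ) ≤ (R : ℝ) ^ 3 * (t : ℝ) ^ 3 := by
    have h1 : (t * R).choose 3 ≤ (t * R) ^ 3 := Nat.choose_le_pow _ _
    have h2 : ((t * R).choose 3 : ℝ) ≤ ((t * R : ℕ) : ℝ) ^ 3 := by exact_mod_cast h1
    refine h2.trans (le_of_eq ?_)
    push_cast
    ring
  have f3 : 2 * (1 + ((t * R).choose 2 : ℝ) * ((n - 2).choose (t - 2) : ℝ) *
      ((1 + rho t) / 2) ^ (mm t - 1)) ≤ 4 * (R : ℝ) ^ 2 * (t : ℝ) ^ 5 := by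
    have h1 : ((t * R).choose 2 : ℝ) * ((n - 2).choose (t - 2) : ℝ) *
        ((1 + rho t) / 2) ^ (mm t - 1) ≤ (R : ℝ) ^ 2 * (t : ℝ) ^ 2 * (t : ℝ) ^ 3 := by
      rw [mul_assoc]
      exact mul_le_mul hC2 f2 (by positivity) (by positivity)
    have h2 : (1 : ℝ) ≤ (R : ℝ) ^ 2 * (t : ℝ) ^ 5 :=
      one_le_mul_of_one_le_of_one_le (one_le_pow₀ hR0) (one_le_pow₀ ht1)
    nlinarith
  have f3' : (2 * (1 + ((t * R).choose 2 : ℝ) * ((n - 2).choose (t - 2) : ℝ) *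
      ((1 + rho t) / 2) ^ (mm t - 1))) ^ (R - 1) ≤
      (4 * (R : ℝ) ^ 2) ^ (R - 1) * (t : ℝ) ^ (5 * (R - 1)) := by
    refine (pow_le_pow_left₀ (by positivity) f3 _).trans (le_of_eq ?_)
    rw [mul_pow, ← pow_mul]
  -- last factor
  have hch : ((n : ℝ) - 2) * ((n - 3).choose (t - 3) : ℝ) =
      ((n - 2).choose (t - 2) : ℝ) * ((t : ℝ) - 2) := by
    obtain ⟨n', rfl⟩ : ∃ n', n = n' + 3 := ⟨n - 3, by omega⟩
    obtain ⟨t', rfl⟩ : ∃ t', t = t' + 3 := ⟨t - 3, by omega⟩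
    have h := Nat.add_one_mul_choose_eq n' t'
    have h' : ((n' + 1 : ℕ) : ℝ) * (n'.choose t' : ℝ) =
        ((n' + 1).choose (t' + 1) : ℝ) * ((t' + 1 : ℕ) : ℝ) := by exact_mod_cast h
    have e1 : n' + 3 - 3 = n' := by omega
    have e2 : t' + 3 - 3 = t' := by omega
    have e3 : n' + 3 - 2 = n' + 1 := by omega
    have e4 : t' + 3 - 2 = t' + 1 := by omega
    rw [e1, e2, e3, e4]
    push_cast at h' ⊢
    linarith
  have f4 : ((n - 3).choose (t - 3) : ℝ) * 2 * ((1 + rho t) / 2) ^ (mm t - R) ≤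
      2 ^ R * (t : ℝ) ^ 4 / ((n : ℝ) - 2) := by
    have h1 := ne4_q t R ht3 hmR
    have h2 : ((n - 3).choose (t - 3) : ℝ) * 2 * ((1 + rho t) / 2) ^ (mm t - R) ≤
        ((n - 3).choose (t - 3) : ℝ) * pm t * (2 ^ R * (t : ℝ) ^ 3) := by
      have := mul_le_mul_of_nonneg_left h1
        (by positivity : (0 : ℝ) ≤ ((n - 3).choose (t - 3) : ℝ) * 2)
      refine this.trans (le_of_eq ?_)
      unfold pm
      ring
    refine h2.trans ?_
    rw [le_div_iff₀ hnn]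
    have h3 : ((n - 3).choose (t - 3) : ℝ) * pm t * (2 ^ R * (t : ℝ) ^ 3) * ((n : ℝ) - 2) =
        W n t * ((t : ℝ) - 2) * (2 ^ R * (t : ℝ) ^ 3) := by
      have : ((n - 3).choose (t - 3) : ℝ) * pm t * (2 ^ R * (t : ℝ) ^ 3) * ((n : ℝ) - 2) =
        (((n : ℝ) - 2) * ((n - 3).choose (t - 3) : ℝ)) * pm t * (2 ^ R * (t : ℝ) ^ 3) := by ring
      rw [this, hch]
      unfold W
      ring
    rw [h3]
    have ht2 : (0 : ℝ) ≤ (t : ℝ) - 2 := by
      have : (3 : ℝ) ≤ t := by exact_mod_cast ht3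
      linarith
    have h4 : W n t * ((t : ℝ) - 2) ≤ t := by nlinarith
    have h5 := mul_le_mul_of_nonneg_right h4 (by positivity : (0 : ℝ) ≤ 2 ^ R * (t : ℝ) ^ 3)
    refine h5.trans (le_of_eq ?_)
    ring
  have f4' : ((t * R).choose 3 : ℝ) * ((n - 3).choose (t - 3) : ℝ) * 2 *
      ((1 + rho t) / 2) ^ (mm t - R) ≤
      (R : ℝ) ^ 3 * (t : ℝ) ^ 3 * (2 ^ R * (t : ℝ) ^ 4 / ((n : ℝ) - 2)) := by
    have : ((t * R).choose 3 : ℝ) * ((n - 3).choose (t - 3) : ℝ) * 2 *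
      ((1 + rho t) / 2) ^ (mm t - R) = ((t * R).choose 3 : ℝ) *
      (((n - 3).choose (t - 3) : ℝ) * 2 * ((1 + rho t) / 2) ^ (mm t - R)) := by ring
    rw [this]
    exact mul_le_mul hC3 f4 (by positivity) (by positivity)
  -- together
  have g1 : sum4 n t R (rho t) ≤ pm t * (t : ℝ) ^ 3 *
      ((4 * (R : ℝ) ^ 2) ^ (R - 1) * (t : ℝ) ^ (5 * (R - 1))) *
      ((R : ℝ) ^ 3 * (t : ℝ) ^ 3 * (2 ^ R * (t : ℝ) ^ 4 / ((n : ℝ) - 2))) := by
    unfold sum4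
    refine mul_le_mul (mul_le_mul f1 f3' (by positivity) (by positivity)) f4'
      (by positivity) (by positivity)
  refine g1.trans ?_
  have g2 : pm t * (t : ℝ) ^ 3 *
      ((4 * (R : ℝ) ^ 2) ^ (R - 1) * (t : ℝ) ^ (5 * (R - 1))) *
      ((R : ℝ) ^ 3 * (t : ℝ) ^ 3 * (2 ^ R * (t : ℝ) ^ 4 / ((n : ℝ) - 2))) =
      pm t * (((4 * (R : ℝ) ^ 2) ^ (R - 1) * (R : ℝ) ^ 3 * 2 ^ R *
        (t : ℝ) ^ (5 * (R - 1) + 10)) / ((n : ℝ) - 2)) := by
    rw [pow_add]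
    field_simp
  rw [g2]
  refine mul_le_mul_of_nonneg_left ?_ hpm.le
  rw [div_le_div_iff₀ hnn (by positivity)]
  have g3 : (n : ℝ) / 2 ≤ (n : ℝ) - 2 := by linarith
  have g4 : 40 * ((R : ℝ) + 1) ^ 2 * (4 * (R : ℝ) ^ 2) ^ (R - 1) * (R : ℝ) ^ 3 * 2 ^ R *
      (t : ℝ) ^ (5 * (R - 1) + 12) ≤ n := hpoly.trans hlow
  have g5 : (4 * (R : ℝ) ^ 2) ^ (R - 1) * (R : ℝ) ^ 3 * 2 ^ R *
        (t : ℝ) ^ (5 * (R - 1) + 10) * (20 * ((R : ℝ) + 1) ^ 2 * (t : ℝ) ^ 2) =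
      (40 * ((R : ℝ) + 1) ^ 2 * (4 * (R : ℝ) ^ 2) ^ (R - 1) * (R : ℝ) ^ 3 * 2 ^ R *
      (t : ℝ) ^ (5 * (R - 1) + 12)) / 2 := by
    rw [show 5 * (R - 1) + 12 = (5 * (R - 1) + 10) + 2 by ring, pow_add _ (5 * (R - 1) + 10) 2]
    ring
  rw [g5, one_mul]
  linarith

end Pool.Agent.Work.MP_2a0c1d_co
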