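import Pool.Agent.Work.MP_2a0c1d_co.Stmts

/-!
# Item NE5: the numeric bound for family 5
-/

set_option autoImplicit false

namespace Pool.Agent.Work.MP_2a0c1d_co

open Finset Filter

theorem NE5_ev_pow (a c : ℝ) (ha : 0 < a) (hc : 0 < c) (k : ℕ) :
    ∀ᶠ x : ℝ in atTop, c * (a * Real.log x) ^ k ≤ x := by
  have h := (Asymptotics.isLittleO_iff.mp (Real.isLittleO_pow_log_id_atTop (n := k)))
    (c := 1 / (c * a ^ k)) (by positivity)
  filter_upwards [h, eventually_ge_atTop (0 : ℝ)] with x hx hx0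
  rw [Real.norm_eq_abs, Real.norm_eq_abs, id, abs_of_nonneg hx0] at hx
  have h1 : Real.log x ^ k ≤ 1 / (c * a ^ k) * x := (le_abs_self _).trans hx
  have h2 : c * (a * Real.log x) ^ k = (c * a ^ k) * Real.log x ^ k := by
    rw [mul_pow]; ring
  rw [h2]
  calc (c * a ^ k) * Real.log x ^ k ≤ (c * a ^ k) * (1 / (c * a ^ k) * x) :=
        mul_le_mul_of_nonneg_left h1 (by positivity)
    _ = x := by
      have : c * a ^ k ≠ 0 := by positivity
      field_simp

theorem NE5_ev_small (r δ : ℝ) (hr : 0 < r) (hδ : 0 < δ) :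
    ∀ᶠ x : ℝ in atTop, 3 * Real.log x * x ^ (-r) ≤ δ := by
  have h := (Asymptotics.isLittleO_iff.mp (isLittleO_log_rpow_atTop hr)) (c := δ / 3) (by positivity)
  filter_upwards [h, eventually_gt_atTop (0 : ℝ)] with x hx hx0
  have hp : 0 < x ^ r := Real.rpow_pos_of_pos hx0 r
  rw [Real.norm_eq_abs, Real.norm_eq_abs, abs_of_pos hp] at hx
  have h1 : Real.log x ≤ δ / 3 * x ^ r := (le_abs_self _).trans hx
  rw [Real.rpow_neg hx0.le]
  calc 3 * Real.log x * (x ^ r)⁻¹ ≤ 3 * (δ / 3 * x ^ r) * (x ^ r)⁻¹ := by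
        gcongr
    _ = δ := by
      field_simp

theorem pr_NE5 : NE5 := by
  intro ε hε _
  obtain ⟨h, hh1, hh⟩ : ∃ h : ℕ, 1 ≤ h ∧ 6 / ε ≤ h :=
    ⟨⌈6 / ε⌉₊ + 1, by omega, (Nat.le_ceil _).trans (by push_cast; linarith)⟩
  obtain ⟨d, hd1, hd⟩ : ∃ d : ℕ, 1 ≤ d ∧ 8 / ε ≤ d :=
    ⟨⌈8 / ε⌉₊ + 1, by omega, (Nat.le_ceil _).trans (by push_cast; linarith)⟩
  set K : ℝ := 20 * (((h + h * d : ℕ) : ℝ) + 1) ^ 2 with hK
  have hKpos : 0 < K := by positivity
  set δ : ℝ := Real.log 2 / d with hδ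
  have hdpos : (0 : ℝ) < d := by exact_mod_cast hd1
  have hδpos : 0 < δ := div_pos (Real.log_pos (by norm_num)) hdpos
  have hev := (NE5_ev_pow 3 1 (by norm_num) one_pos d).and
    ((NE5_ev_pow 9 K (by norm_num) hKpos h).and (NE5_ev_small (ε / 2) δ (by linarith) hδpos))
  obtain ⟨X0, hX0⟩ := Filter.eventually_atTop.mp hev
  refine ⟨h, d, hh1, max 3 ⌈X0⌉₊, fun t ht n hW => ?_⟩
  have ht3 : 3 ≤ t := (le_max_left _ _).trans ht
  have htX : X0 ≤ (t : ℝ) := (Nat.le_ceil X0).trans (by exact_mod_cast (le_max_right _ _).trans ht)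
  obtain ⟨e1, e2, e3⟩ := hX0 t htX
  rw [one_mul] at e1
  have hx1 : (1 : ℝ) ≤ t := by exact_mod_cast (by omega : 1 ≤ t)
  have hx0 : (0 : ℝ) < t := by linarith
  set x : ℝ := (t : ℝ) with hx
  set L : ℝ := Real.log x with hL
  have hL0 : 0 ≤ L := Real.log_nonneg hx1
  have hm : 0 < mm t := Nat.choose_pos (by omega)
  have hm' : (0 : ℝ) < mm t := by exact_mod_cast hm
  have hrm : rho t * mm t = 3 * L := by
    rw [rho, div_mul_cancel₀ _ hm'.ne']
  have hr0 : 0 ≤ rho t := div_nonneg (by positivity) hm'.le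
  have hW0 : 0 ≤ W n t := by
    unfold W pm
    positivity
  set y : ℝ := rho t * mm t * W n t with hy
  set q : ℝ := x ^ (-(ε / 2)) with hq
  have hq0 : 0 < q := Real.rpow_pos_of_pos hx0 _
  have hy0 : 0 ≤ y := by
    rw [hy, hrm]; positivity
  have hyY : y ≤ 3 * L * q := by
    rw [hy, hrm]
    exact mul_le_mul_of_nonneg_left hW (by positivity)
  have hY0 : 0 ≤ 3 * L * q := by positivity
  -- first factor
  have f1 : (1 + y) ^ d ≤ 2 := by
    have g1 : 1 + y ≤ Real.exp y := by linarith [Real.add_one_le_exp y]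
    calc (1 + y) ^ d ≤ Real.exp y ^ d := pow_le_pow_left₀ (by linarith) g1 d
      _ = Real.exp (d * y) := by rw [← Real.exp_nat_mul]
      _ ≤ Real.exp (Real.log 2) := by
        apply Real.exp_le_exp.mpr
        have : y ≤ Real.log 2 / d := hyY.trans e3
        calc (d : ℝ) * y ≤ d * (Real.log 2 / d) := mul_le_mul_of_nonneg_left this hdpos.le
          _ = Real.log 2 := by field_simp
      _ = 2 := Real.exp_log (by norm_num)
  have f2 : (1 + rho t) ^ mm t ≤ x ^ (3 : ℕ) := by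
    have g1 : 1 + rho t ≤ Real.exp (rho t) := by linarith [Real.add_one_le_exp (rho t)]
    calc (1 + rho t) ^ mm t ≤ Real.exp (rho t) ^ mm t := pow_le_pow_left₀ (by linarith) g1 _
      _ = Real.exp (mm t * rho t) := by rw [← Real.exp_nat_mul]
      _ = Real.exp ((3 : ℕ) * L) := by rw [mul_comm, hrm]; norm_num
      _ = x ^ (3 : ℕ) := by rw [Real.exp_nat_mul, hL, Real.exp_log hx0]
  have hqd : q ^ d ≤ x ^ (-(4 : ℝ)) := by
    rw [hq, ← Real.rpow_natCast, ← Real.rpow_mul hx0.le]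
    apply Real.rpow_le_rpow_of_exponent_le hx1
    have : 8 ≤ ε * d := by
      have := (div_le_iff₀ hε).mp hd
      linarith
    nlinarith
  have hqh : q ^ h ≤ x ^ (-(3 : ℝ)) := by
    rw [hq, ← Real.rpow_natCast, ← Real.rpow_mul hx0.le]
    apply Real.rpow_le_rpow_of_exponent_le hx1
    have : 6 ≤ ε * h := by
      have := (div_le_iff₀ hε).mp hh
      linarith
    nlinarith
  have r4 : x ^ (-(4 : ℝ)) = (x ^ 4)⁻¹ := by
    rw [Real.rpow_neg hx0.le]
    norm_cast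
  have r3 : x ^ (-(3 : ℝ)) = (x ^ 3)⁻¹ := by
    rw [Real.rpow_neg hx0.le]
    norm_cast
  have f3 : (1 + rho t) ^ mm t * y ^ d ≤ 1 := by
    calc (1 + rho t) ^ mm t * y ^ d ≤ x ^ 3 * ((3 * L * q) ^ d) := by
          apply mul_le_mul f2 (pow_le_pow_left₀ hy0 hyY d) (by positivity) (by positivity)
      _ = x ^ 3 * ((3 * L) ^ d * q ^ d) := by rw [mul_pow]
      _ ≤ x ^ 3 * (x * (x ^ 4)⁻¹) := by
          apply mul_le_mul_of_nonneg_left _ (by positivity)
          apply mul_le_mul e1 (hqd.trans r4.le) (by positivity) hx0.le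
      _ = 1 := by field_simp
  have f4 : y * ((1 + y) ^ d + (1 + rho t) ^ mm t * y ^ d) ≤ 9 * L * q := by
    calc y * ((1 + y) ^ d + (1 + rho t) ^ mm t * y ^ d) ≤ y * (2 + 1) :=
          mul_le_mul_of_nonneg_left (add_le_add f1 f3) hy0
      _ ≤ (3 * L * q) * 3 := by nlinarith
      _ = 9 * L * q := by ring
  have f5 : 0 ≤ y * ((1 + y) ^ d + (1 + rho t) ^ mm t * y ^ d) := by positivity
  have f6 : sum5 n t h d (rho t) ≤ (9 * L * q) ^ h := by
    unfold sum5
    exact pow_le_pow_left₀ f5 f4 h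
  refine f6.trans ?_
  rw [mul_pow]
  calc (9 * L) ^ h * q ^ h ≤ (x / K) * (x ^ 3)⁻¹ := by
        apply mul_le_mul _ (hqh.trans r3.le) (by positivity) (by positivity)
        rw [le_div_iff₀ hKpos]
        linarith
    _ = 1 / (K * x ^ 2) := by
        field_simp
    _ = _ := by rw [hK]

end Pool.Agent.Work.MP_2a0c1d_co
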