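import Pool.Agent.Work.MP_2a0c1d_co.Stmts

/-!
# Item PB5
-/

set_option autoImplicit false

namespace Pool.Agent.Work.MP_2a0c1d_co

open Finset

namespace ItemPB5

theorem ed_card {n : ℕ} (S : Finset (Fin n)) : (ed S).card = S.card.choose 2 := by
  rw [← Sym2.card_image_offDiag]
  congr 1
  ext e
  induction e using Sym2.ind with
  | _ a b =>
    simp only [ed, mem_filter, Finset.mk_mem_sym2_iff, Sym2.mk_isDiag_iff, mem_image, mem_offDiag,
      Function.uncurry, Prod.exists]
    constructor
    · rintro ⟨⟨ha, hb⟩, hab⟩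
      exact ⟨a, b, ⟨ha, hb, hab⟩, rfl⟩
    · rintro ⟨c, d, ⟨hc, hd, hcd⟩, h⟩
      rcases Sym2.eq_iff.mp h with ⟨h1, h2⟩ | ⟨h1, h2⟩
      · rw [← h1, ← h2]; exact ⟨⟨hc, hd⟩, hcd⟩
      · rw [← h1, ← h2]; exact ⟨⟨hd, hc⟩, fun h3 => hcd h3.symm⟩

theorem wt_nonneg (ρ : ℝ) (h0 : 0 ≤ ρ) (h1 : ρ ≤ 1) (y : X) : 0 ≤ wt ρ y := by
  rw [wt]
  split_ifs
  · linarith
  · linarith

theorem wS_mono (ρ : ℝ) (h0 : 0 ≤ ρ) (h1 : ρ ≤ 1) {A B : Finset X} (h : A ⊆ B) :
    wS ρ A ≤ wS ρ B :=
  sum_le_sum_of_subset_of_nonneg h fun y _ _ => wt_nonneg ρ h0 h1 y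

theorem wS_nonneg (ρ : ℝ) (h0 : 0 ≤ ρ) (h1 : ρ ≤ 1) (A : Finset X) : 0 ≤ wS ρ A :=
  sum_nonneg fun y _ => wt_nonneg ρ h0 h1 y

theorem wS_col (ρ : ℝ) (h0 : 0 ≤ ρ) (h1 : ρ ≤ 1) (c : Bool) (A : Finset X)
    (h : ∀ y ∈ A, y.1 = c) : wS ρ A ≤ 1 / 2 := by
  have h2 : A ⊆ {(c, true), (c, false)} := by
    rintro ⟨y1, y2⟩ hy
    have := h _ hy
    simp only at this
    subst this
    cases y2 <;> simp
  refine (wS_mono ρ h0 h1 h2).trans (le_of_eq ?_)
  rw [wS, sum_pair (by simp)]
  simp [wt]
  ring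

theorem wS_mark (ρ : ℝ) (h0 : 0 ≤ ρ) (h1 : ρ ≤ 1) (c : Bool) (A : Finset X)
    (h : ∀ y ∈ A, y = (c, true)) : wS ρ A ≤ 1 / 2 * ρ := by
  have h2 : A ⊆ {(c, true)} := by
    intro y hy
    rw [mem_singleton]
    exact h y hy
  refine (wS_mono ρ h0 h1 h2).trans (le_of_eq ?_)
  rw [wS, sum_singleton]
  simp [wt]

theorem wS_near (ρ : ℝ) (h0 : 0 ≤ ρ) (h1 : ρ ≤ 1) (c : Bool) (A : Finset X)
    (h : ∀ y ∈ A, y.1 = (!c) ∨ y.2 = true) : wS ρ A ≤ 1 / 2 * (1 + ρ) := by
  have h2 : A ⊆ {(!c, true), (!c, false), (c, true)} := by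
    rintro ⟨y1, y2⟩ hy
    have := h _ hy
    simp only at this
    cases y1 <;> cases y2 <;> cases c <;> simp_all
  refine (wS_mono ρ h0 h1 h2).trans (le_of_eq ?_)
  rw [wS, sum_insert (by simp), sum_pair (by simp)]
  simp [wt]
  ring

theorem wS_one (ρ : ℝ) (h0 : 0 ≤ ρ) (h1 : ρ ≤ 1) (A : Finset X) : wS ρ A ≤ 1 := by
  refine (wS_mono ρ h0 h1 (subset_univ A)).trans (le_of_eq ?_)
  rw [wS]
  have : (univ : Finset X) = {(true, true), (true, false), (false, true), (false, false)} := by
    decide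
  rw [this, sum_insert (by decide), sum_insert (by decide), sum_pair (by decide)]
  simp [wt]
  ring

/-- the listed pair of a slot -/
def fl {n d : ℕ} (x : Thr n d) (l : Fin d) : Sym2 (Fin n) :=
  ((x.2.2 l).map Prod.fst).getD x.1

theorem fl_some {n d : ℕ} (x : Thr n d) (l : Fin d) (f : Sym2 (Fin n)) (Q : Finset (Fin n))
    (h : x.2.2 l = some (f, Q)) : fl x l = f := by
  rw [fl, h]
  rfl

end ItemPB5

open ItemPB5 in
theorem pr_PB5 : PB5 := by
  classical
  intro n t h d ρ a S x h0 h1 ht hOk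
  obtain ⟨hS, hT, hinj, hdisj⟩ := hOk
  have hm1 : 1 ≤ mm t := Nat.choose_pos ht
  have hpm : pm t = (1 / 2) ^ (mm t - 1) := by
    rw [pm]
    obtain ⟨k, hk⟩ := Nat.exists_eq_add_of_le hm1
    rw [hk, Nat.add_sub_cancel_left, pow_add]
    ring
  set w : Sym2 (Fin n) → ℝ := fun e => wS ρ (box5 a S x e) with hw
  have hw0 : ∀ e, 0 ≤ w e := fun e => wS_nonneg ρ h0 h1 _
  have hw1 : ∀ e, w e ≤ 1 := fun e => wS_one ρ h0 h1 _
  have hok : ∀ e y, y ∈ box5 a S x e → Ok5 a S x e y := fun e y hy => (mem_filter.mp hy).2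
  -- the three kinds of blocks
  have hroot : ∏ e ∈ blk S x none, w e ≤ (1 / 2) ^ mm t * ρ ^ h := by
    have hE : univ.image (fun i => (x i).1) ⊆ ed S := by
      intro e he
      obtain ⟨i, -, rfl⟩ := mem_image.mp he
      exact (hT i).1
    calc ∏ e ∈ blk S x none, w e
        ≤ ∏ e ∈ ed S, (1 / 2 * (if e ∈ univ.image (fun i => (x i).1) then ρ else 1)) := by
          refine prod_le_prod (fun e _ => hw0 e) fun e he => ?_
          split_ifs with h2
          · obtain ⟨i, -, hi⟩ := mem_image.mp h2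
            exact wS_mark ρ h0 h1 a _ fun y hy => (hok e y hy).2.1 i hi.symm
          · rw [mul_one]
            exact wS_col ρ h0 h1 a _ fun y hy => (hok e y hy).1 he
      _ = (1 / 2) ^ mm t * ρ ^ h := by
          rw [prod_mul_distrib, prod_const, ed_card, hS, ← prod_filter, prod_const]
          have h3 : (ed S).filter (fun e => e ∈ univ.image (fun i => (x i).1))
              = univ.image (fun i => (x i).1) := by
            rw [filter_mem_eq_inter, inter_eq_right.mpr hE]
          rw [h3, card_image_of_injective _ hinj, card_univ, Fintype.card_fin, mm]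
  have hwit : ∀ i l, ∏ e ∈ blk S x (some (i, some l)), w e
      ≤ if (x i).2.2 l = none then 1 else pm t := by
    intro i l
    obtain ⟨-, -, -, h4, -⟩ := hT i
    cases hsl : (x i).2.2 l with
    | none =>
      have h5 : blk S x (some (i, some l)) = ∅ := by simp only [blk, hsl]
      rw [h5, prod_empty, if_pos rfl]
    | some fQ =>
      obtain ⟨f, Q⟩ := fQ
      have h5 : blk S x (some (i, some l)) = (ed Q).erase f := by simp only [blk, hsl]
      obtain ⟨h6, h7, h8, h9⟩ := h4 l f Q hsl
      rw [h5, if_neg (by simp), hpm]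
      calc ∏ e ∈ (ed Q).erase f, w e ≤ ∏ _e ∈ (ed Q).erase f, (1 / 2 : ℝ) := by
            refine prod_le_prod (fun e _ => hw0 e) fun e he => ?_
            exact wS_col ρ h0 h1 a _ fun y hy =>
              ((hok e y hy).2.2.1 i l f Q hsl).2 (mem_of_mem_erase he)
        _ = _ := by rw [prod_const, card_erase_of_mem h9, ed_card, h8, mm]
  have hthr : ∀ i, ∏ e ∈ blk S x (some (i, none)), w e
      ≤ pm t * (if ∀ l, (x i).2.2 l ≠ none then (1 + ρ) ^ mm t else 1) *
        ∏ l, (if (x i).2.2 l = none then 1 else ρ) := by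
    intro i
    obtain ⟨-, h2, h3, h4, h5⟩ := hT i
    set K := univ.filter (fun l => (x i).2.2 l ≠ none) with hK
    set Fi := K.image (fl (x i)) with hFi
    set c : ℝ := if ∀ l, (x i).2.2 l ≠ none then 1 + ρ else 1 with hc
    have hc1 : 1 ≤ c := by
      rw [hc]
      split_ifs
      · linarith
      · exact le_rfl
    have hFsub : Fi ⊆ (ed (x i).2.1).erase (x i).1 := by
      intro e he
      obtain ⟨l, hl, rfl⟩ := mem_image.mp he
      have hl' := (mem_filter.mp hl).2
      obtain ⟨⟨f, Q⟩, hfQ⟩ := Option.ne_none_iff_exists'.mp hl'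
      obtain ⟨h6, h7, -, -⟩ := h4 l f Q hfQ
      rw [fl_some _ _ _ _ hfQ, mem_erase]
      exact ⟨h7, h6⟩
    have hFcard : Fi.card = K.card := by
      refine card_image_of_injOn ?_
      intro l hl l' hl' hll
      have hl1 := (mem_filter.mp (mem_coe.mp hl)).2
      have hl2 := (mem_filter.mp (mem_coe.mp hl')).2
      obtain ⟨⟨f, Q⟩, hfQ⟩ := Option.ne_none_iff_exists'.mp hl1
      obtain ⟨⟨f', Q'⟩, hfQ'⟩ := Option.ne_none_iff_exists'.mp hl2
      rw [fl_some _ _ _ _ hfQ, fl_some _ _ _ _ hfQ'] at hll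
      subst hll
      exact h5 l l' f Q Q' hfQ hfQ'
    have hprodK : ∏ l, (if (x i).2.2 l = none then (1 : ℝ) else ρ) = ρ ^ K.card := by
      rw [hK, ← prod_const, prod_filter]
      refine prod_congr rfl fun l _ => ?_
      by_cases h6 : (x i).2.2 l = none
      · rw [if_pos h6, if_neg (not_not.mpr h6)]
      · rw [if_neg h6, if_pos h6]
    rw [hprodK]
    calc ∏ e ∈ blk S x (some (i, none)), w e
        ≤ ∏ e ∈ (ed (x i).2.1).erase (x i).1, (1 / 2 * ((if e ∈ Fi then ρ else 1) * c)) := by
          refine prod_le_prod (fun e _ => hw0 e) fun e he => ?_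
          obtain ⟨he1, he2⟩ := mem_erase.mp he
          split_ifs with h6
          · obtain ⟨l, hl, hle⟩ := mem_image.mp h6
            have hl' := (mem_filter.mp hl).2
            obtain ⟨⟨f, Q⟩, hfQ⟩ := Option.ne_none_iff_exists'.mp hl'
            rw [fl_some _ _ _ _ hfQ] at hle
            have h7 : w e ≤ 1 / 2 * ρ := wS_mark ρ h0 h1 a _ fun y hy =>
              ((hok e y hy).2.2.1 i l f Q hfQ).1 hle.symm
            have h8 : ρ ≤ ρ * c := le_mul_of_one_le_right h0 hc1
            linarith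
          · have hnf : ∀ l f Q, (x i).2.2 l = some (f, Q) → e ≠ f := by
              intro l f Q hfQ hef
              apply h6
              refine mem_image.mpr ⟨l, ?_, ?_⟩
              · rw [hK, mem_filter]
                exact ⟨mem_univ _, by rw [hfQ]; simp⟩
              · rw [fl_some _ _ _ _ hfQ, hef]
            rw [one_mul, hc]
            split_ifs with h7
            · refine wS_near ρ h0 h1 a _ fun y hy => ?_
              rcases (hok e y hy).2.2.2 i he2 he1 hnf with h8 | h8
              · exact Or.inl h8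
              · exact Or.inr h8.2
            · rw [mul_one]
              refine wS_col ρ h0 h1 (!a) _ fun y hy => ?_
              rcases (hok e y hy).2.2.2 i he2 he1 hnf with h8 | h8
              · exact h8
              · exact absurd h8.1 h7
      _ = pm t * ρ ^ K.card * c ^ (mm t - 1) := by
          rw [prod_mul_distrib, prod_const, prod_mul_distrib, prod_const, ← prod_filter, prod_const,
            card_erase_of_mem h2, ed_card, h3]
          have h6 : ((ed (x i).2.1).erase (x i).1).filter (fun e => e ∈ Fi) = Fi := by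
            rw [filter_mem_eq_inter, inter_eq_right.mpr hFsub]
          rw [h6, hFcard, hpm, mm]
          ring
      _ ≤ pm t * ρ ^ K.card * (if ∀ l, (x i).2.2 l ≠ none then (1 + ρ) ^ mm t else 1) := by
          refine mul_le_mul_of_nonneg_left ?_ (by rw [pm]; positivity)
          have h6 : (if ∀ l, (x i).2.2 l ≠ none then (1 + ρ) ^ mm t else 1) = c ^ mm t := by
            rw [hc]
            split_ifs
            · rfl
            · rw [one_pow]
          rw [h6]
          exact pow_le_pow_right₀ hc1 (Nat.sub_le _ _)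
      _ = _ := by ring
  -- assemble
  have hdis : (↑(univ : Finset (Option (Fin h × Option (Fin d)))) :
      Set (Option (Fin h × Option (Fin d)))).PairwiseDisjoint (blk S x) :=
    fun u _ v _ huv => hdisj u v huv
  calc prB ρ (box5 a S x) = ∏ e, w e := rfl
    _ ≤ ∏ e ∈ (univ : Finset (Option (Fin h × Option (Fin d)))).biUnion (blk S x), w e := by
        rw [← prod_sdiff (subset_univ ((univ : Finset (Option (Fin h × Option (Fin d)))).biUnion
          (blk S x)))]
        refine mul_le_of_le_one_left (prod_nonneg fun e _ => hw0 e) ?_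
        exact prod_le_one (fun e _ => hw0 e) fun e _ => hw1 e
    _ = ∏ u, ∏ e ∈ blk S x u, w e := prod_biUnion hdis
    _ = (∏ e ∈ blk S x none, w e) * ∏ i, ((∏ e ∈ blk S x (some (i, none)), w e) *
          ∏ l, ∏ e ∈ blk S x (some (i, some l)), w e) := by
        rw [Fintype.prod_option, Fintype.prod_prod_type]
        congr 1
        refine prod_congr rfl fun i _ => ?_
        rw [Fintype.prod_option]
    _ ≤ ((1 / 2) ^ mm t * ρ ^ h) * ∏ i, ((pm t *
          (if ∀ l, (x i).2.2 l ≠ none then (1 + ρ) ^ mm t else 1) *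
          ∏ l, (if (x i).2.2 l = none then 1 else ρ)) *
          ∏ l, (if (x i).2.2 l = none then 1 else pm t)) := by
        refine mul_le_mul hroot ?_ (prod_nonneg fun i _ => mul_nonneg
          (prod_nonneg fun e _ => hw0 e) (prod_nonneg fun l _ => prod_nonneg fun e _ => hw0 e))
          (by positivity)
        refine prod_le_prod (fun i _ => mul_nonneg
          (prod_nonneg fun e _ => hw0 e) (prod_nonneg fun l _ => prod_nonneg fun e _ => hw0 e))
          fun i _ => ?_
        refine mul_le_mul (hthr i) ?_ (prod_nonneg fun l _ => prod_nonneg fun e _ => hw0 e)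
          ((prod_nonneg fun e _ => hw0 e).trans (hthr i))
        exact prod_le_prod (fun l _ => prod_nonneg fun e _ => hw0 e) fun l _ => hwit i l
    _ = _ := by
        congr 1
        refine prod_congr rfl fun i _ => ?_
        rw [mul_assoc, ← prod_mul_distrib]
        congr 1
        refine prod_congr rfl fun l _ => ?_
        split_ifs
        · rw [mul_one]
        · rfl

end Pool.Agent.Work.MP_2a0c1d_co
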