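import Pool.Agent.Work.MP_2a0c1d_co.Stmts

set_option autoImplicit false

namespace Pool.Agent.Work.MP_2a0c1d_co

open Finset

theorem PN_wt_nonneg {ρ : ℝ} (h0 : 0 ≤ ρ) (h1 : ρ ≤ 1) (x : X) : 0 ≤ wt ρ x := by
  unfold wt
  split_ifs
  · positivity
  · have : 0 ≤ 1 - ρ := by linarith
    positivity

theorem PN_wS_mono {ρ : ℝ} (h0 : 0 ≤ ρ) (h1 : ρ ≤ 1) {A B : Finset X} (h : A ⊆ B) :
    wS ρ A ≤ wS ρ B :=
  Finset.sum_le_sum_of_subset_of_nonneg h fun x _ _ => PN_wt_nonneg h0 h1 x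

theorem PN_wS_nonneg {ρ : ℝ} (h0 : 0 ≤ ρ) (h1 : ρ ≤ 1) (A : Finset X) : 0 ≤ wS ρ A :=
  Finset.sum_nonneg fun x _ => PN_wt_nonneg h0 h1 x

theorem PN_wS_univ (ρ : ℝ) : wS ρ univ = 1 := by
  unfold wS wt
  rw [Fintype.sum_prod_type]
  simp

theorem PN_wS_near (ρ : ℝ) (b : Bool) :
    wS ρ (univ.filter fun x : X => x.1 = b ∨ x.2 = true) = (1 + ρ) / 2 := by
  unfold wS wt
  rw [Finset.sum_filter, Fintype.sum_prod_type]
  cases b <;> simp <;> ring

theorem pr_PN : PN := by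
  intro n k T a ρ h0 h1
  classical
  set U := (range k).biUnion fun i => ed (T i) with hU
  have hle : ∀ e : Sym2 (Fin n), wS ρ (nearB k T a e) ≤ if e ∈ U then (1 + ρ) / 2 else 1 := by
    intro e
    split_ifs with he
    · rw [hU, Finset.mem_biUnion] at he
      obtain ⟨i, hi, hei⟩ := he
      rw [← PN_wS_near ρ (a i)]
      apply PN_wS_mono h0 h1
      intro x hx
      simp only [nearB, Finset.mem_filter, Finset.mem_univ, true_and] at hx ⊢
      exact hx i hi hei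
    · rw [← PN_wS_univ ρ]
      exact PN_wS_mono h0 h1 (Finset.subset_univ _)
  unfold prB
  calc ∏ e, wS ρ (nearB k T a e) ≤ ∏ e, (if e ∈ U then (1 + ρ) / 2 else 1) :=
        Finset.prod_le_prod (fun e _ => PN_wS_nonneg h0 h1 _) fun e _ => hle e
    _ = ((1 + ρ) / 2) ^ U.card := by
        rw [Finset.prod_ite_mem, Finset.univ_inter, Finset.prod_const]

end Pool.Agent.Work.MP_2a0c1d_co
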