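import Pool.Agent.Work.MP_2a0c1d_co.Stmts

/-!
# Item S1: the total weight of family 1
-/

set_option autoImplicit false

namespace Pool.Agent.Work.MP_2a0c1d_co

open Finset

namespace S1aux

theorem sum_biUnion_le {α β : Type} [DecidableEq α] [DecidableEq β] (s : Finset α)
    (t : α → Finset β) (f : β → ℝ) (hf : ∀ b, 0 ≤ f b) :
    ∑ b ∈ s.biUnion t, f b ≤ ∑ a ∈ s, ∑ b ∈ t a, f b := by
  induction s using Finset.induction_on with
  | empty => simp
  | insert a s ha ih =>
    rw [Finset.biUnion_insert, Finset.sum_insert ha]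
    have h1 : ∑ b ∈ t a ∪ s.biUnion t, f b ≤ ∑ b ∈ t a, f b + ∑ b ∈ s.biUnion t, f b := by
      rw [← Finset.sum_union_inter]
      have : 0 ≤ ∑ b ∈ t a ∩ s.biUnion t, f b := Finset.sum_nonneg fun b _ => hf b
      linarith
    linarith

theorem sum_image_le {α β : Type} [DecidableEq α] [DecidableEq β] (s : Finset α)
    (g : α → β) (f : β → ℝ) (hf : ∀ b, 0 ≤ f b) :
    ∑ b ∈ s.image g, f b ≤ ∑ a ∈ s, f (g a) := by
  have h := sum_biUnion_le s (fun a => {g a}) f hf
  rw [Finset.biUnion_singleton] at h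
  simpa using h

theorem card_ed {n : ℕ} (S : Finset (Fin n)) : (ed S).card = S.card.choose 2 := by
  unfold ed
  rw [Finset.sym2_eq_image, Sym2.filter_image_mk_not_isDiag, Sym2.card_image_offDiag]

theorem wS_true (ρ : ℝ) (a : Bool) : wS ρ {(a, true)} = ρ / 2 := by
  simp [wS, wt]; ring

theorem wS_false (ρ : ℝ) (a : Bool) : wS ρ {(a, false)} = (1 - ρ) / 2 := by
  simp [wS, wt]; ring

theorem wS_univ (ρ : ℝ) : wS ρ univ = 1 := by
  simp [wS, wt, Fintype.sum_prod_type]

theorem wt_nonneg (ρ : ℝ) (h0 : 0 ≤ ρ) (h1 : ρ ≤ 1) (x : X) : 0 ≤ wt ρ x := by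
  unfold wt
  split_ifs <;> linarith

theorem wS_nonneg (ρ : ℝ) (h0 : 0 ≤ ρ) (h1 : ρ ≤ 1) (A : Finset X) : 0 ≤ wS ρ A :=
  Finset.sum_nonneg fun x _ => wt_nonneg ρ h0 h1 x

theorem prB_nonneg {n : ℕ} (ρ : ℝ) (h0 : 0 ≤ ρ) (h1 : ρ ≤ 1) (B : Bx n) : 0 ≤ prB ρ B :=
  Finset.prod_nonneg fun e _ => wS_nonneg ρ h0 h1 (B e)

open Classical in
/-- The box of the data `(S, a, J)`. -/
noncomputable def bx {n : ℕ} (S : Finset (Fin n)) (a : Bool) (J : Finset (Sym2 (Fin n))) : Bx n :=
  fun e => if e ∈ J then {(a, true)} else if e ∈ ed S then {(a, false)} else univ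

theorem prB_bx {n : ℕ} (ρ : ℝ) (S : Finset (Fin n)) (a : Bool) (J : Finset (Sym2 (Fin n)))
    (hJ : J ⊆ ed S) :
    prB ρ (bx S a J) = (1 / 2) ^ (ed S).card * (ρ ^ J.card * (1 - ρ) ^ ((ed S).card - J.card)) := by
  classical
  have h1 : prB ρ (bx S a J) = ∏ e, (if e ∈ ed S then (if e ∈ J then ρ / 2 else (1 - ρ) / 2)
      else 1) := by
    unfold prB
    refine Finset.prod_congr rfl fun e _ => ?_
    unfold bx
    by_cases he : e ∈ J
    · have he' := hJ he
      simp only [he, he', if_true]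
      exact wS_true ρ a
    · by_cases he' : e ∈ ed S
      · simp only [he, he', if_true, if_false]
        exact wS_false ρ a
      · simp only [he, he', if_false]
        exact wS_univ ρ
  rw [h1, Finset.prod_ite_mem, Finset.univ_inter, Finset.prod_ite, Finset.prod_const,
    Finset.prod_const]
  have h2 : (ed S).filter (fun e => e ∈ J) = J := by
    ext e
    simp only [Finset.mem_filter]
    exact ⟨fun h => h.2, fun h => ⟨hJ h, h⟩⟩
  have h3 : (ed S).filter (fun e => ¬ e ∈ J) = ed S \ J := by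
    ext e
    simp
  rw [h2, h3, Finset.card_sdiff_of_subset hJ]
  have hle : J.card ≤ (ed S).card := Finset.card_le_card hJ
  have h4 : ((1 : ℝ) / 2) ^ (ed S).card = (1 / 2) ^ J.card * (1 / 2) ^ ((ed S).card - J.card) := by
    rw [← pow_add]
    congr 1
    omega
  rw [h4, div_eq_mul_one_div ρ 2, div_eq_mul_one_div (1 - ρ) 2, mul_pow, mul_pow]
  ring

end S1aux

open S1aux in
theorem pr_S1 : S1 := by
  classical
  intro n t h ρ h0 h1
  have hnn := prB_nonneg (n := n) ρ h0 h1
  have hsub : B1 n t h ⊆ (powersetCard t (univ : Finset (Fin n))).biUnion fun S =>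
      (univ : Finset Bool).biUnion fun a => (range h).biUnion fun j =>
        (powersetCard j (ed S)).image fun J => bx S a J := by
    intro B hB
    unfold B1 at hB
    rw [Finset.mem_filter] at hB
    obtain ⟨-, S, a, J, hS, hJ, hh, rfl⟩ := hB
    simp only [Finset.mem_biUnion, Finset.mem_image, Finset.mem_powersetCard, Finset.mem_univ,
      true_and, Finset.mem_range]
    refine ⟨S, ⟨Finset.subset_univ S, hS⟩, a, J.card, hh, J, ⟨hJ, rfl⟩, ?_⟩
    funext e
    unfold bx
    by_cases he : e ∈ J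
    · simp [he]
    · by_cases he' : e ∈ ed S
      · simp [he, he']
      · simp [he, he']
  refine (Finset.sum_le_sum_of_subset_of_nonneg hsub fun B _ _ => hnn B).trans ?_
  refine (sum_biUnion_le _ _ _ hnn).trans ?_
  have key : ∀ S ∈ powersetCard t (univ : Finset (Fin n)),
      ∑ B ∈ (univ : Finset Bool).biUnion (fun a => (range h).biUnion fun j =>
        (powersetCard j (ed S)).image fun J => bx S a J), prB ρ B ≤ pm t * sum1 t h ρ := by
    intro S hS
    rw [Finset.mem_powersetCard] at hS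
    have hcard : (ed S).card = mm t := by rw [card_ed, hS.2]; rfl
    refine (sum_biUnion_le _ _ _ hnn).trans ?_
    have key2 : ∀ a ∈ (univ : Finset Bool), ∑ B ∈ (range h).biUnion (fun j =>
        (powersetCard j (ed S)).image fun J => bx S a J), prB ρ B ≤
          (1 / 2) ^ mm t * sum1 t h ρ := by
      intro a _
      refine (sum_biUnion_le _ _ _ hnn).trans ?_
      unfold sum1
      rw [Finset.mul_sum]
      refine Finset.sum_le_sum fun j _ => ?_
      refine (sum_image_le _ _ _ hnn).trans ?_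
      have : ∀ J ∈ powersetCard j (ed S), prB ρ (bx S a J) =
          (1 / 2) ^ mm t * (ρ ^ j * (1 - ρ) ^ (mm t - j)) := by
        intro J hJ
        rw [Finset.mem_powersetCard] at hJ
        rw [prB_bx ρ S a J hJ.1, hJ.2, hcard]
      rw [Finset.sum_congr rfl this, Finset.sum_const, Finset.card_powersetCard, hcard,
        nsmul_eq_mul]
      apply le_of_eq
      ring
    refine (Finset.sum_le_sum key2).trans ?_
    rw [Finset.sum_const, Finset.card_univ, Fintype.card_bool, nsmul_eq_mul]
    unfold pm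
    apply le_of_eq
    push_cast
    ring
  refine (Finset.sum_le_sum key).trans ?_
  rw [Finset.sum_const, Finset.card_powersetCard, Finset.card_univ, Fintype.card_fin,
    nsmul_eq_mul]

end Pool.Agent.Work.MP_2a0c1d_co
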