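import Pool.Agent.Work.MP_2a0c1d_co.Stmts

/-!
# Item S2: family 2
-/

set_option autoImplicit false

namespace Pool.Agent.Work.MP_2a0c1d_co

open Finset

namespace S2aux

lemma card_ed {n : ℕ} (S : Finset (Fin n)) : (ed S).card = S.card.choose 2 := by
  unfold ed
  rw [Finset.sym2_eq_image, Sym2.filter_image_mk_not_isDiag, Sym2.card_image_offDiag]

lemma wS_univ (ρ : ℝ) : wS ρ univ = 1 := by
  unfold wS wt
  rw [Fintype.sum_prod_type]
  simp

lemma wS_mark (ρ : ℝ) : wS ρ (univ.filter (fun x : X => x.2 = true)) = ρ := by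
  unfold wS wt
  rw [Finset.sum_filter, Fintype.sum_prod_type]
  simp

lemma prB_mark {n : ℕ} (ρ : ℝ) (S : Finset (Fin n)) :
    prB ρ (fun e => if e ∈ ed S then univ.filter (fun x : X => x.2 = true) else univ) =
      ρ ^ (S.card.choose 2) := by
  classical
  unfold prB
  rw [← card_ed, ← Finset.prod_const, ← Finset.prod_subset (Finset.subset_univ (ed S))]
  · refine Finset.prod_congr rfl fun e he => ?_
    show wS ρ (if e ∈ ed S then univ.filter (fun x : X => x.2 = true) else univ) = ρ
    rw [if_pos he, wS_mark]
  · intro e _ he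
    show wS ρ (if e ∈ ed S then univ.filter (fun x : X => x.2 = true) else univ) = 1
    rw [if_neg he, wS_univ]

end S2aux

open S2aux in
theorem pr_S2 : S2 := by
  classical
  intro n t ρ h0 h1
  set f : Finset (Fin n) → Bx n :=
    fun S e => if e ∈ ed S then univ.filter (fun x : X => x.2 = true) else univ with hf
  have hsub : B2 n t ⊆ (powersetCard t univ).image f := by
    intro B hB
    unfold B2 at hB
    rw [mem_filter] at hB
    obtain ⟨-, S, hS, rfl⟩ := hB
    rw [mem_image]
    refine ⟨S, by rw [mem_powersetCard]; exact ⟨subset_univ _, hS⟩, ?_⟩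
    funext e
    simp only [hf]
  have hnn : ∀ B : Bx n, 0 ≤ prB ρ B := by
    intro B
    unfold prB wS wt
    refine prod_nonneg fun e _ => sum_nonneg fun x _ => ?_
    split_ifs
    · linarith
    · linarith
  calc ∑ B ∈ B2 n t, prB ρ B ≤ ∑ B ∈ (powersetCard t univ).image f, prB ρ B :=
        sum_le_sum_of_subset_of_nonneg hsub fun B _ _ => hnn B
    _ ≤ ∑ S ∈ powersetCard t univ, prB ρ (f S) := by
        exact sum_image_le_of_nonneg (fun B _ => hnn B)
    _ = ∑ S ∈ powersetCard t (univ : Finset (Fin n)), ρ ^ mm t := by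
        refine sum_congr rfl fun S hS => ?_
        rw [mem_powersetCard] at hS
        have := prB_mark ρ S
        rw [hS.2] at this
        unfold mm
        rw [← this]
    _ = _ := by
        rw [sum_const, card_powersetCard, card_univ, Fintype.card_fin, nsmul_eq_mul]

end Pool.Agent.Work.MP_2a0c1d_co
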