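import Pool.Agent.Work.MP_2a0c1d_co.Stmts

/-!
# Item S3: the total weight of family 3
-/

set_option autoImplicit false

namespace Pool.Agent.Work.MP_2a0c1d_co

open Finset

namespace S3P

lemma mem_ed {n : ℕ} (S : Finset (Fin n)) (e : Sym2 (Fin n)) :
    e ∈ ed S ↔ (∀ x ∈ e, x ∈ S) ∧ ¬ e.IsDiag := by
  unfold ed
  rw [mem_filter, Finset.mem_sym2_iff]

lemma card_ed {n : ℕ} (S : Finset (Fin n)) : (ed S).card = S.card.choose 2 := by
  unfold ed
  rw [Finset.sym2_eq_image, Sym2.filter_image_mk_not_isDiag, Sym2.card_image_offDiag]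

lemma ed_inter {n : ℕ} (S T : Finset (Fin n)) : ed S ∩ ed T = ed (S ∩ T) := by
  ext e
  rw [mem_inter, mem_ed, mem_ed, mem_ed]
  constructor
  · rintro ⟨⟨h1, h2⟩, h3, _⟩
    exact ⟨fun x hx => mem_inter.2 ⟨h1 x hx, h3 x hx⟩, h2⟩
  · rintro ⟨h1, h2⟩
    exact ⟨⟨fun x hx => (mem_inter.1 (h1 x hx)).1, h2⟩,
      fun x hx => (mem_inter.1 (h1 x hx)).2, h2⟩

lemma card_union_ed {n t : ℕ} (S T : Finset (Fin n)) (hS : S.card = t) (hT : T.card = t) :
    (ed S ∪ ed T).card = 2 * mm t - (S ∩ T).card.choose 2 := by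
  have h := card_union_add_card_inter (ed S) (ed T)
  rw [ed_inter, card_ed (S ∩ T), card_ed S, card_ed T, hS, hT] at h
  unfold mm
  omega

/-- The family from a pair of sets. -/
def TT {n : ℕ} (A B : Finset (Fin n)) : ℕ → Finset (Fin n) := fun i => if i = 0 then A else B

/-- The colours from a pair of colours. -/
def aa (a b : Bool) : ℕ → Bool := fun i => if i = 0 then a else b

/-- The box of a quadruple. -/
def gg {n : ℕ} (x : (Finset (Fin n) × Finset (Fin n)) × (Bool × Bool)) : Bx n :=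
  nearB 2 (TT x.1.1 x.1.2) (aa x.2.1 x.2.2)

lemma nearB_congr {n : ℕ} (T : ℕ → Finset (Fin n)) (a : ℕ → Bool) :
    nearB 2 T a = gg ((T 0, T 1), (a 0, a 1)) := by
  funext e
  unfold gg nearB
  refine filter_congr fun x _ => ?_
  constructor
  · intro h i hi he
    have hi' : i = 0 ∨ i = 1 := by
      have := mem_range.1 hi
      omega
    rcases hi' with rfl | rfl
    · exact h 0 hi he
    · exact h 1 hi he
  · intro h i hi he
    have hi' : i = 0 ∨ i = 1 := by
      have := mem_range.1 hi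
      omega
    rcases hi' with rfl | rfl
    · exact h 0 hi he
    · exact h 1 hi he

lemma wt_nonneg {ρ : ℝ} (h0 : 0 ≤ ρ) (h1 : ρ ≤ 1) (x : X) : 0 ≤ wt ρ x := by
  unfold wt
  split_ifs <;> nlinarith

lemma prB_nonneg {n : ℕ} {ρ : ℝ} (h0 : 0 ≤ ρ) (h1 : ρ ≤ 1) (B : Bx n) : 0 ≤ prB ρ B := by
  unfold prB
  refine prod_nonneg fun e _ => ?_
  unfold wS
  exact sum_nonneg fun x _ => wt_nonneg h0 h1 x

/-- Number of sets with prescribed intersection size. -/
lemma count {n t b : ℕ} (A : Finset (Fin n)) (hA : A.card = t) :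
    ((univ.filter fun B : Finset (Fin n) => B.card = t ∧ (A ∩ B).card = b).card : ℝ) ≤
      (t.choose b : ℝ) * ((n - t).choose (t - b) : ℝ) := by
  have hcard : (univ.filter fun B : Finset (Fin n) => B.card = t ∧ (A ∩ B).card = b).card ≤
      ((powersetCard b A) ×ˢ (powersetCard (t - b) Aᶜ)).card := by
    refine card_le_card_of_injOn (fun B => (A ∩ B, B \ A)) ?_ ?_
    · intro B hB
      rw [mem_coe, mem_filter] at hB
      obtain ⟨_, hB1, hB2⟩ := hB
      rw [mem_coe, mem_product, mem_powersetCard, mem_powersetCard]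
      refine ⟨⟨inter_subset_left, hB2⟩, ?_, ?_⟩
      · intro x hx
        rw [mem_compl]
        exact (mem_sdiff.1 hx).2
      · have h := card_sdiff_add_card_inter B A
        rw [inter_comm B A] at h
        simp only
        omega
    · intro B _ C _ h
      simp only [Prod.mk.injEq] at h
      have hB : B = (A ∩ B) ∪ (B \ A) := by
        ext x
        simp only [mem_union, mem_inter, mem_sdiff]
        tauto
      have hC : C = (A ∩ C) ∪ (C \ A) := by
        ext x
        simp only [mem_union, mem_inter, mem_sdiff]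
        tauto
      rw [hB, hC, h.1, h.2]
  rw [card_product, card_powersetCard, card_powersetCard, card_compl, Fintype.card_fin, hA]
    at hcard
  exact_mod_cast hcard

open Classical in
/-- Admissible quadruples. -/
noncomputable def Idx (n t : ℕ) : Finset ((Finset (Fin n) × Finset (Fin n)) × (Bool × Bool)) :=
  (univ.filter fun p : Finset (Fin n) × Finset (Fin n) => p.1.card = t ∧ p.2.card = t ∧
    3 ≤ (p.1 ∩ p.2).card ∧ (p.1 ∩ p.2).card < t) ×ˢ univ

end S3P

open S3P in
open Classical in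
theorem pr_S3 : PN → S3 := by
  intro hPN n t ρ h0 h1
  have hq0 : 0 ≤ (1 + ρ) / 2 := by linarith
  -- step 1: sum over quadruples
  have step1 : ∑ B ∈ B3 n t, prB ρ B ≤ ∑ x ∈ Idx n t, prB ρ (gg x) := by
    have hsub : B3 n t ⊆ (Idx n t).image gg := by
      intro B hB
      unfold B3 at hB
      rw [mem_filter] at hB
      obtain ⟨_, T, a, hT0, hT1, h3, hlt, hBe⟩ := hB
      rw [mem_image]
      refine ⟨((T 0, T 1), (a 0, a 1)), ?_, ?_⟩
      · unfold Idx
        rw [mem_product, mem_filter]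
        exact ⟨⟨mem_univ _, hT0, hT1, h3, hlt⟩, mem_univ _⟩
      · rw [hBe, nearB_congr]
    calc ∑ B ∈ B3 n t, prB ρ B ≤ ∑ B ∈ (Idx n t).image gg, prB ρ B :=
          sum_le_sum_of_subset_of_nonneg hsub fun B _ _ => prB_nonneg h0 h1 B
      _ ≤ ∑ x ∈ Idx n t, prB ρ (gg x) := by
          rw [← sum_fiberwise_of_maps_to (s := Idx n t) (t := (Idx n t).image gg) (g := gg)
            (fun x hx => mem_image_of_mem _ hx)]
          refine sum_le_sum fun B hB => ?_
          rw [mem_image] at hB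
          obtain ⟨x, hx, rfl⟩ := hB
          exact single_le_sum (f := fun y => prB ρ (gg y))
            (fun y _ => prB_nonneg h0 h1 _) (mem_filter.2 ⟨hx, rfl⟩)
  -- step 2: probability
  have step2 : ∑ x ∈ Idx n t, prB ρ (gg x) ≤
      ∑ x ∈ Idx n t, ((1 + ρ) / 2) ^ (2 * mm t - (x.1.1 ∩ x.1.2).card.choose 2) := by
    refine sum_le_sum fun x hx => ?_
    unfold Idx at hx
    rw [mem_product, mem_filter] at hx
    obtain ⟨⟨_, hx1, hx2, _, _⟩, _⟩ := hx
    have h := hPN n 2 (TT x.1.1 x.1.2) (aa x.2.1 x.2.2) ρ h0 h1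
    have hU : ((range 2).biUnion fun i => ed (TT x.1.1 x.1.2 i)) = ed x.1.1 ∪ ed x.1.2 := by
      ext e
      simp only [mem_biUnion, mem_range, mem_union]
      constructor
      · rintro ⟨i, hi, he⟩
        have hi' : i = 0 ∨ i = 1 := by omega
        rcases hi' with rfl | rfl
        · exact Or.inl he
        · exact Or.inr he
      · rintro (he | he)
        · exact ⟨0, by norm_num, he⟩
        · exact ⟨1, by norm_num, he⟩
    rw [hU, card_union_ed _ _ hx1 hx2] at h
    exact h
  refine step1.trans (step2.trans ?_)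
  -- step 3: counting
  unfold Idx
  rw [sum_product]
  have hcol : ∀ p : Finset (Fin n) × Finset (Fin n),
      ∑ _y ∈ (univ : Finset (Bool × Bool)),
        ((1 + ρ) / 2) ^ (2 * mm t - (p.1 ∩ p.2).card.choose 2) =
      4 * ((1 + ρ) / 2) ^ (2 * mm t - (p.1 ∩ p.2).card.choose 2) := by
    intro p
    rw [sum_const, card_univ, Fintype.card_prod, Fintype.card_bool, nsmul_eq_mul]
    norm_num
  rw [sum_congr rfl fun p _ => hcol p]
  have hsplit : (univ.filter fun p : Finset (Fin n) × Finset (Fin n) => p.1.card = t ∧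
      p.2.card = t ∧ 3 ≤ (p.1 ∩ p.2).card ∧ (p.1 ∩ p.2).card < t) =
      (powersetCard t (univ : Finset (Fin n))).biUnion fun A =>
        (Ico 3 t).biUnion fun b =>
          (univ.filter fun B : Finset (Fin n) => B.card = t ∧ (A ∩ B).card = b).image
            fun B => (A, B) := by
    ext p
    simp only [mem_filter, mem_univ, true_and, mem_biUnion, mem_powersetCard, subset_univ,
      mem_Ico, mem_image]
    constructor
    · rintro ⟨h1, h2, h3, h4⟩
      exact ⟨p.1, h1, (p.1 ∩ p.2).card, ⟨h3, h4⟩, p.2, ⟨h2, rfl⟩, rfl⟩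
    · rintro ⟨A, hA, b, ⟨h3, h4⟩, B, ⟨hB, hb⟩, rfl⟩
      refine ⟨hA, hB, ?_, ?_⟩
      · simp only
        omega
      · simp only
        omega
  rw [hsplit]
  have hnn : ∀ p : Finset (Fin n) × Finset (Fin n),
      0 ≤ 4 * ((1 + ρ) / 2) ^ (2 * mm t - (p.1 ∩ p.2).card.choose 2) := fun p => by positivity
  have hb1 : ∀ {ι : Type} [DecidableEq ι] (s : Finset ι)
      (u : ι → Finset (Finset (Fin n) × Finset (Fin n)))
      (f : Finset (Fin n) × Finset (Fin n) → ℝ), (∀ p, 0 ≤ f p) →
      ∑ p ∈ s.biUnion u, f p ≤ ∑ i ∈ s, ∑ p ∈ u i, f p := by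
    intro ι _ s u f hf
    induction s using Finset.induction_on with
    | empty => simp
    | insert i s hi ih =>
      rw [biUnion_insert, sum_insert hi]
      have h := sum_union_inter (s₁ := u i) (s₂ := s.biUnion u) (f := f)
      have h2 : 0 ≤ ∑ p ∈ u i ∩ s.biUnion u, f p := sum_nonneg fun p _ => hf p
      linarith
  refine (hb1 _ _ _ hnn).trans ?_
  have hA : ∀ A ∈ powersetCard t (univ : Finset (Fin n)),
      ∑ p ∈ (Ico 3 t).biUnion (fun b =>
          (univ.filter fun B : Finset (Fin n) => B.card = t ∧ (A ∩ B).card = b).image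
            fun B => (A, B)),
        4 * ((1 + ρ) / 2) ^ (2 * mm t - (p.1 ∩ p.2).card.choose 2) ≤ sum3 n t ρ := by
    intro A hA
    have hAt : A.card = t := (mem_powersetCard.1 hA).2
    refine (hb1 _ _ _ hnn).trans ?_
    unfold sum3
    refine sum_le_sum fun b _ => ?_
    rw [sum_image (fun B _ C _ h => (Prod.mk.inj h).2)]
    have hc : ∑ B ∈ univ.filter (fun B : Finset (Fin n) => B.card = t ∧ (A ∩ B).card = b),
        4 * ((1 + ρ) / 2) ^ (2 * mm t - (A ∩ B).card.choose 2) =
        ((univ.filter fun B : Finset (Fin n) => B.card = t ∧ (A ∩ B).card = b).card : ℝ) *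
          (4 * ((1 + ρ) / 2) ^ (2 * mm t - b.choose 2)) := by
      rw [← nsmul_eq_mul, ← sum_const]
      refine sum_congr rfl fun B hB => ?_
      rw [(mem_filter.1 hB).2.2]
    simp only
    rw [hc]
    have hcount := count (b := b) A hAt
    have hpos : 0 ≤ 4 * ((1 + ρ) / 2) ^ (2 * mm t - b.choose 2) := by positivity
    have := mul_le_mul_of_nonneg_right hcount hpos
    linarith
  calc ∑ A ∈ powersetCard t (univ : Finset (Fin n)), _ ≤
      ∑ _A ∈ powersetCard t (univ : Finset (Fin n)), sum3 n t ρ := sum_le_sum hA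
    _ = (n.choose t : ℝ) * sum3 n t ρ := by
      rw [sum_const, card_powersetCard, card_univ, Fintype.card_fin, nsmul_eq_mul]

end Pool.Agent.Work.MP_2a0c1d_co
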