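import Pool.Agent.Work.MP_2a0c1d_co.Stmts

/-!
# Item S4
-/

set_option autoImplicit false

namespace Pool.Agent.Work.MP_2a0c1d_co

open Finset

namespace ItemS4

theorem ed_card {n : ℕ} (S : Finset (Fin n)) : (ed S).card = S.card.choose 2 := by
  rw [← Sym2.card_image_offDiag]
  congr 1
  ext e
  induction e using Sym2.ind with
  | _ a b =>
    simp only [ed, mem_filter, Finset.mk_mem_sym2_iff, Sym2.mk_isDiag_iff, mem_image, mem_offDiag,
      Function.uncurry, Prod.exists]
    constructor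
    · rintro ⟨⟨ha, hb⟩, hab⟩
      exact ⟨a, b, ⟨ha, hb, hab⟩, rfl⟩
    · rintro ⟨c, d, ⟨hc, hd, hcd⟩, h⟩
      rcases Sym2.eq_iff.mp h with ⟨h1, h2⟩ | ⟨h1, h2⟩
      · rw [← h1, ← h2]; exact ⟨⟨hc, hd⟩, hcd⟩
      · rw [← h1, ← h2]; exact ⟨⟨hd, hc⟩, fun h3 => hcd h3.symm⟩

theorem ed_mono {n : ℕ} {S S' : Finset (Fin n)} (h : S ⊆ S') : ed S ⊆ ed S' := by
  intro e he
  rw [ed, mem_filter] at he ⊢
  exact ⟨Finset.sym2_mono h he.1, he.2⟩

theorem ed_inter {n : ℕ} (S S' : Finset (Fin n)) : ed S ∩ ed S' = ed (S ∩ S') := by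
  ext e
  rw [mem_inter, ed, ed, ed, mem_filter, mem_filter, mem_filter, mem_sym2_iff, mem_sym2_iff,
    mem_sym2_iff]
  constructor
  · rintro ⟨⟨h1, h2⟩, h3, -⟩
    exact ⟨fun a ha => mem_inter.mpr ⟨h1 a ha, h3 a ha⟩, h2⟩
  · rintro ⟨h1, h2⟩
    exact ⟨⟨fun a ha => (mem_inter.mp (h1 a ha)).1, h2⟩,
      fun a ha => (mem_inter.mp (h1 a ha)).2, h2⟩

theorem count_sup {n : ℕ} (U : Finset (Fin n)) (b t : ℕ) :
    (univ.filter fun x : Finset (Fin n) => x.card = t ∧ b ≤ (x ∩ U).card).card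
      ≤ U.card.choose b * (n - b).choose (t - b) := by
  classical
  have h1 : (univ.filter fun x : Finset (Fin n) => x.card = t ∧ b ≤ (x ∩ U).card)
      ⊆ (U.powersetCard b).biUnion fun Y =>
        univ.filter fun x : Finset (Fin n) => x.card = t ∧ Y ⊆ x := by
    intro x hx
    rw [mem_filter] at hx
    obtain ⟨Y, hY1, hY2⟩ := Finset.exists_subset_card_eq hx.2.2
    rw [mem_biUnion]
    refine ⟨Y, mem_powersetCard.mpr ⟨hY1.trans inter_subset_right, hY2⟩, ?_⟩
    rw [mem_filter]
    exact ⟨mem_univ _, hx.2.1, hY1.trans inter_subset_left⟩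
  refine (card_le_card h1).trans (card_biUnion_le.trans ?_)
  have h2 : ∀ Y ∈ U.powersetCard b,
      (univ.filter fun x : Finset (Fin n) => x.card = t ∧ Y ⊆ x).card
        ≤ (n - b).choose (t - b) := by
    intro Y hY
    have hYb : Y.card = b := (mem_powersetCard.mp hY).2
    have h3 : ((univ \ Y).powersetCard (t - b)).card = (n - b).choose (t - b) := by
      rw [card_powersetCard, card_sdiff_of_subset (subset_univ _), card_univ, Fintype.card_fin, hYb]
    rw [← h3]
    refine card_le_card_of_injOn (fun x => x \ Y) ?_ ?_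
    · intro x hx
      have hx' := (mem_filter.mp (Finset.mem_coe.mp hx)).2
      rw [Finset.mem_coe, mem_powersetCard]
      refine ⟨sdiff_subset_sdiff (subset_univ _) subset_rfl, ?_⟩
      rw [card_sdiff_of_subset hx'.2, hx'.1, hYb]
    · intro x hx x' hx' hxx
      have h4 := (mem_filter.mp (Finset.mem_coe.mp hx)).2.2
      have h5 := (mem_filter.mp (Finset.mem_coe.mp hx')).2.2
      have h6 : x \ Y = x' \ Y := hxx
      rw [← sdiff_union_of_subset h4, h6, sdiff_union_of_subset h5]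
  calc ∑ Y ∈ U.powersetCard b, (univ.filter fun x : Finset (Fin n) => x.card = t ∧ Y ⊆ x).card
      ≤ ∑ _Y ∈ U.powersetCard b, (n - b).choose (t - b) := sum_le_sum h2
    _ = _ := by rw [sum_const, smul_eq_mul, card_powersetCard]

/-- extension of a finite sequence by empty sets -/
def xt {n j : ℕ} (T : Fin j → Finset (Fin n)) : ℕ → Finset (Fin n) :=
  fun i => if h : i < j then T ⟨i, h⟩ else ∅

theorem xt_snoc_lt {n j : ℕ} (T : Fin j → Finset (Fin n)) (x : Finset (Fin n)) (i : ℕ)
    (h : i < j) : xt (Fin.snoc T x : Fin (j + 1) → Finset (Fin n)) i = xt T i := by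
  have h1 : i < j + 1 := Nat.lt_succ_of_lt h
  rw [xt, xt, dif_pos h1, dif_pos h]
  have h2 : (⟨i, h1⟩ : Fin (j + 1)) = Fin.castSucc ⟨i, h⟩ := rfl
  rw [h2, Fin.snoc_castSucc]

theorem xt_snoc_eq {n j : ℕ} (T : Fin j → Finset (Fin n)) (x : Finset (Fin n)) :
    xt (Fin.snoc T x : Fin (j + 1) → Finset (Fin n)) j = x := by
  rw [xt, dif_pos (Nat.lt_succ_self j)]
  have h2 : (⟨j, Nat.lt_succ_self j⟩ : Fin (j + 1)) = Fin.last j := rfl
  rw [h2, Fin.snoc_last]

/-- union of the pairs -/
def Ug {n : ℕ} (T : ℕ → Finset (Fin n)) (k : ℕ) : Finset (Sym2 (Fin n)) :=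
  (range k).biUnion fun i => ed (T i)

theorem Un_congr {n : ℕ} (T T' : ℕ → Finset (Fin n)) (k : ℕ) (h : ∀ i < k, T i = T' i) :
    Un T k = Un T' k :=
  Finset.biUnion_congr rfl fun i hi => h i (mem_range.mp hi)

theorem Ug_congr {n : ℕ} (T T' : ℕ → Finset (Fin n)) (k : ℕ) (h : ∀ i < k, T i = T' i) :
    Ug T k = Ug T' k :=
  Finset.biUnion_congr rfl fun i hi => by rw [h i (mem_range.mp hi)]

/-- validity of the first `j` sets -/
def Val {n : ℕ} (t R j : ℕ) (T : ℕ → Finset (Fin n)) : Prop :=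
  (1 ≤ j → (T 0).card = t) ∧
  (∀ i, 1 ≤ i → i < j → i < R → T i = ∅ ∨ ((T i).card = t ∧ (T i ∩ Un T i).card = 2)) ∧
  (R < j → (T R).card = t ∧ 3 ≤ (T R ∩ Un T R).card ∧ ∀ i < R, (T R ∩ T i).card ≤ 2)

theorem Val_congr {n : ℕ} (t R j : ℕ) (T T' : ℕ → Finset (Fin n)) (h : ∀ i < j, T i = T' i)
    (hV : Val t R j T) : Val t R j T' := by
  obtain ⟨h1, h2, h3⟩ := hV
  refine ⟨fun hj => by rw [← h 0 (by omega)]; exact h1 hj, fun i hi hij hiR => ?_, fun hR => ?_⟩
  · rw [← h i hij, ← Un_congr T T' i fun l hl => h l (hl.trans hij)]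
    exact h2 i hi hij hiR
  · obtain ⟨h4, h5, h6⟩ := h3 hR
    rw [← h R hR, ← Un_congr T T' R fun l hl => h l (hl.trans hR)]
    exact ⟨h4, h5, fun i hi => by rw [← h i (hi.trans hR)]; exact h6 i hi⟩

theorem Val_mono {n : ℕ} (t R j : ℕ) (T : ℕ → Finset (Fin n)) (hV : Val t R (j + 1) T) :
    Val t R j T := by
  obtain ⟨h1, h2, h3⟩ := hV
  exact ⟨fun _ => h1 (by omega), fun i hi hij hiR => h2 i hi (by omega) hiR,
    fun hR => h3 (by omega)⟩

theorem Un_card_le {n : ℕ} (t R j : ℕ) (hj : j ≤ R) (hR : 1 ≤ R) (T : ℕ → Finset (Fin n))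
    (hV : Val t R j T) : (Un T j).card ≤ t * R := by
  have h1 : ∀ i ∈ range j, (T i).card ≤ t := by
    intro i hi
    have hi' := mem_range.mp hi
    rcases Nat.eq_zero_or_pos i with h0 | h0
    · subst h0
      exact (hV.1 hi').le
    · rcases hV.2.1 i h0 hi' (by omega) with h | h
      · rw [h, card_empty]; exact Nat.zero_le _
      · exact h.1.le
  calc (Un T j).card ≤ ∑ i ∈ range j, (T i).card := card_biUnion_le
    _ ≤ ∑ _i ∈ range j, t := sum_le_sum h1
    _ = j * t := by rw [sum_const, card_range, smul_eq_mul]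
    _ ≤ t * R := by rw [mul_comm]; exact Nat.mul_le_mul_left t hj

theorem Ug_succ {n : ℕ} (T : ℕ → Finset (Fin n)) (j : ℕ) :
    (Ug T (j + 1)).card = (Ug T j).card + (ed (T j) \ Ug T j).card := by
  classical
  have h : Ug T (j + 1) = Ug T j ∪ (ed (T j) \ Ug T j) := by
    rw [Finset.union_sdiff_self_eq_union]
    rw [Ug, Ug, Finset.range_add_one, Finset.biUnion_insert, Finset.union_comm]
  rw [h, Finset.card_union_of_disjoint Finset.disjoint_sdiff]

/-- common pairs with all earlier sets lie in the intersection with the union -/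
theorem inter_Ug_subset {n : ℕ} (T : ℕ → Finset (Fin n)) (j : ℕ) (x : Finset (Fin n)) :
    ed x ∩ Ug T j ⊆ ed (x ∩ Un T j) := by
  intro e he
  rw [mem_inter, Ug, mem_biUnion] at he
  obtain ⟨h1, i, hi, h2⟩ := he
  have h3 : e ∈ ed (x ∩ T i) := by rw [← ed_inter]; exact mem_inter.mpr ⟨h1, h2⟩
  exact ed_mono (inter_subset_inter subset_rfl (subset_biUnion_of_mem T hi)) h3

theorem new_clean {n : ℕ} (T : ℕ → Finset (Fin n)) (j t : ℕ) (x : Finset (Fin n))
    (hx : x.card = t) (h2 : (x ∩ Un T j).card = 2) : mm t - 1 ≤ (ed x \ Ug T j).card := by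
  have h1 : (ed x \ Ug T j).card = (ed x).card - (Ug T j ∩ ed x).card := by
    rw [Finset.card_sdiff]
  rw [h1, ed_card, hx, inter_comm]
  have h3 : (ed x ∩ Ug T j).card ≤ 1 := by
    refine (card_le_card (inter_Ug_subset T j x)).trans ?_
    rw [ed_card, h2]
    exact le_of_eq (by decide)
  exact Nat.sub_le_sub_left h3 _

theorem new_last {n : ℕ} (T : ℕ → Finset (Fin n)) (R t : ℕ) (x : Finset (Fin n))
    (hx : x.card = t) (h2 : ∀ i < R, (x ∩ T i).card ≤ 2) :
    mm t - R ≤ (ed x \ Ug T R).card := by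
  classical
  have h1 : (ed x \ Ug T R).card = (ed x).card - (Ug T R ∩ ed x).card := by
    rw [Finset.card_sdiff]
  rw [h1, ed_card, hx]
  have h3 : (Ug T R ∩ ed x).card ≤ R := by
    have h4 : Ug T R ∩ ed x = (range R).biUnion fun i => ed (T i) ∩ ed x := by
      rw [Ug, Finset.biUnion_inter]
    rw [h4]
    calc ((range R).biUnion fun i => ed (T i) ∩ ed x).card
        ≤ ∑ i ∈ range R, (ed (T i) ∩ ed x).card := card_biUnion_le
      _ ≤ ∑ _i ∈ range R, 1 := by
        refine sum_le_sum fun i hi => ?_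
        rw [ed_inter, ed_card, inter_comm]
        calc (x ∩ T i).card.choose 2 ≤ Nat.choose 2 2 :=
              Nat.choose_le_choose 2 (h2 i (mem_range.mp hi))
          _ = 1 := by decide
      _ = R := by rw [sum_const, card_range, smul_eq_mul, mul_one]
  exact Nat.sub_le_sub_left h3 _

open Classical in
/-- the weights of the partial sequences -/
noncomputable def F (n t R : ℕ) (ρ : ℝ) (j : ℕ) (T : Fin j → Finset (Fin n)) : ℝ :=
  if Val t R j (xt T) then 2 ^ j * ((1 + ρ) / 2) ^ (Ug (xt T) j).card else 0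

theorem F_nonneg (n t R : ℕ) (ρ : ℝ) (h0 : 0 ≤ ρ) (j : ℕ) (T : Fin j → Finset (Fin n)) :
    0 ≤ F n t R ρ j T := by
  rw [F]
  split_ifs
  · positivity
  · exact le_rfl

/-- one step, pointwise -/
theorem step_pt (n t R : ℕ) (ρ : ℝ) (h0 : 0 ≤ ρ) (h1 : ρ ≤ 1) (j : ℕ)
    (T : Fin j → Finset (Fin n)) (x : Finset (Fin n)) (P : Prop) [Decidable P] (l : ℕ)
    (hP : Val t R (j + 1) (xt (Fin.snoc T x : Fin (j + 1) → Finset (Fin n))) → P)
    (hl : P → l ≤ (ed x \ Ug (xt T) j).card) :
    F n t R ρ (j + 1) (Fin.snoc T x : Fin (j + 1) → Finset (Fin n)) ≤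
      F n t R ρ j T * (2 * (if P then ((1 + ρ) / 2) ^ l else 0)) := by
  have hq0 : 0 ≤ (1 + ρ) / 2 := by linarith
  have hq1 : (1 + ρ) / 2 ≤ 1 := by linarith
  by_cases hV : Val t R (j + 1) (xt (Fin.snoc T x : Fin (j + 1) → Finset (Fin n)))
  · have hV' : Val t R j (xt T) := Val_congr t R j _ _ (fun i hi => xt_snoc_lt T x i hi)
      (Val_mono t R j _ hV)
    have hP' := hP hV
    rw [F, F, if_pos hV, if_pos hV', if_pos hP', Ug_succ, xt_snoc_eq,
      Ug_congr _ (xt T) j (fun i hi => xt_snoc_lt T x i hi), pow_succ, pow_add]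
    have h2 : ((1 + ρ) / 2) ^ (ed x \ Ug (xt T) j).card ≤ ((1 + ρ) / 2) ^ l :=
      pow_le_pow_of_le_one hq0 hq1 (hl hP')
    have h3 : (0 : ℝ) ≤ 2 ^ j * ((1 + ρ) / 2) ^ (Ug (xt T) j).card := by positivity
    calc (2 : ℝ) ^ j * 2 * (((1 + ρ) / 2) ^ (Ug (xt T) j).card *
          ((1 + ρ) / 2) ^ (ed x \ Ug (xt T) j).card)
        = 2 ^ j * ((1 + ρ) / 2) ^ (Ug (xt T) j).card *
          (2 * ((1 + ρ) / 2) ^ (ed x \ Ug (xt T) j).card) := by ring
      _ ≤ 2 ^ j * ((1 + ρ) / 2) ^ (Ug (xt T) j).card * (2 * ((1 + ρ) / 2) ^ l) :=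
        mul_le_mul_of_nonneg_left (by linarith) h3
  · have h4 : F n t R ρ (j + 1) (Fin.snoc T x : Fin (j + 1) → Finset (Fin n)) = 0 := by
      rw [F, if_neg hV]
    rw [h4]
    refine mul_nonneg (F_nonneg n t R ρ h0 j T) ?_
    split_ifs
    · positivity
    · simp

/-- the constants -/
noncomputable def c (n t R : ℕ) (ρ : ℝ) (j : ℕ) : ℝ :=
  if j = 0 then (n.choose t : ℝ) * (2 * ((1 + ρ) / 2) ^ mm t)
  else if j < R then 2 * (1 + ((t * R).choose 2 : ℝ) * ((n - 2).choose (t - 2) : ℝ) *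
      ((1 + ρ) / 2) ^ (mm t - 1))
  else ((t * R).choose 3 : ℝ) * ((n - 3).choose (t - 3) : ℝ) * 2 * ((1 + ρ) / 2) ^ (mm t - R)

theorem c_nonneg (n t R : ℕ) (ρ : ℝ) (h0 : 0 ≤ ρ) (j : ℕ) : 0 ≤ c n t R ρ j := by
  rw [c]
  split_ifs <;> positivity

theorem step (n t R : ℕ) (ρ : ℝ) (h0 : 0 ≤ ρ) (h1 : ρ ≤ 1) (hR : 1 ≤ R) (j : ℕ) (hj : j < R + 1)
    (T : Fin j → Finset (Fin n)) :
    ∑ x, F n t R ρ (j + 1) (Fin.snoc T x : Fin (j + 1) → Finset (Fin n)) ≤
      c n t R ρ j * F n t R ρ j T := by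
  classical
  have hF0 := F_nonneg n t R ρ h0 j T
  have hq0 : 0 ≤ (1 + ρ) / 2 := by linarith
  by_cases hV : Val t R j (xt T)
  · rcases Nat.eq_zero_or_pos j with hj0 | hj0
    · -- first set
      subst hj0
      have h2 : ∀ x, F n t R ρ 1 (Fin.snoc T x : Fin (0 + 1) → Finset (Fin n)) ≤
          F n t R ρ 0 T * (2 * (if x.card = t then ((1 + ρ) / 2) ^ mm t else 0)) := by
        intro x
        refine step_pt n t R ρ h0 h1 0 T x (x.card = t) (mm t) ?_ ?_
        · intro hV'
          have h3 := hV'.1 (by omega)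
          rw [xt_snoc_eq] at h3
          exact h3
        · intro hx
          have h4 : Ug (xt T) 0 = ∅ := by rw [Ug, range_zero, biUnion_empty]
          rw [h4, sdiff_empty, ed_card, hx]
          exact le_rfl
      refine (sum_le_sum fun x _ => h2 x).trans (le_of_eq ?_)
      rw [← mul_sum, ← mul_sum, ← sum_filter, sum_const, nsmul_eq_mul]
      have h5 : (univ.filter fun x : Finset (Fin n) => x.card = t) = powersetCard t univ := by
        ext x
        rw [mem_filter, mem_powersetCard]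
        exact ⟨fun h => ⟨subset_univ _, h.2⟩, fun h => ⟨mem_univ _, h.2⟩⟩
      rw [h5, card_powersetCard, card_univ, Fintype.card_fin, c, if_pos rfl]
      ring
    · rcases Nat.lt_or_ge j R with hjR | hjR
      · -- clean sets
        have h2 : ∀ x, F n t R ρ (j + 1) (Fin.snoc T x : Fin (j + 1) → Finset (Fin n)) ≤
            F n t R ρ j T * (2 * ((if x = ∅ then 1 else 0) +
              (if x.card = t ∧ 2 ≤ (x ∩ Un (xt T) j).card then
                ((1 + ρ) / 2) ^ (mm t - 1) else 0))) := by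
          intro x
          by_cases hx : x = ∅
          · have h3 := step_pt n t R ρ h0 h1 j T x True 0 (fun _ => trivial)
              (fun _ => Nat.zero_le _)
            refine h3.trans (mul_le_mul_of_nonneg_left ?_ hF0)
            rw [if_pos trivial, if_pos hx, pow_zero]
            have h4 : (0 : ℝ) ≤ (if x.card = t ∧ 2 ≤ (x ∩ Un (xt T) j).card then
                ((1 + ρ) / 2) ^ (mm t - 1) else 0) := by
              split_ifs
              · positivity
              · exact le_rfl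
            linarith
          · have h3 := step_pt n t R ρ h0 h1 j T x
              (x.card = t ∧ (x ∩ Un (xt T) j).card = 2) (mm t - 1) (by
                intro hV'
                have h4 := hV'.2.1 j hj0 (Nat.lt_succ_self j) hjR
                rw [xt_snoc_eq, Un_congr _ (xt T) j (fun i hi => xt_snoc_lt T x i hi)] at h4
                exact h4.resolve_left hx) (fun h5 => new_clean (xt T) j t x h5.1 h5.2)
            refine h3.trans (mul_le_mul_of_nonneg_left ?_ hF0)
            rw [if_neg hx, zero_add]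
            refine mul_le_mul_of_nonneg_left ?_ zero_le_two
            by_cases h6 : x.card = t ∧ (x ∩ Un (xt T) j).card = 2
            · rw [if_pos h6, if_pos ⟨h6.1, h6.2.ge⟩]
            · rw [if_neg h6]
              split_ifs
              · positivity
              · exact le_rfl
        refine (sum_le_sum fun x _ => h2 x).trans ?_
        rw [← mul_sum, ← mul_sum, sum_add_distrib, sum_ite_eq' , if_pos (mem_univ _), ← sum_filter,
          sum_const, nsmul_eq_mul, mul_comm]
        refine mul_le_mul_of_nonneg_right ?_ hF0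
        rw [c, if_neg (by omega), if_pos hjR]
        have h7 : (((univ.filter fun x : Finset (Fin n) =>
            x.card = t ∧ 2 ≤ (x ∩ Un (xt T) j).card).card : ℕ) : ℝ)
            ≤ ((t * R).choose 2 : ℝ) * ((n - 2).choose (t - 2) : ℝ) := by
          rw [← Nat.cast_mul]
          refine Nat.cast_le.mpr ((count_sup _ 2 t).trans (Nat.mul_le_mul_right _ ?_))
          exact Nat.choose_le_choose 2 (Un_card_le t R j hjR.le hR _ hV)
        have h8 := mul_le_mul_of_nonneg_right h7 (pow_nonneg hq0 (mm t - 1))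
        linarith
      · -- last set
        have hjR' : j = R := by omega
        subst hjR'
        have h2 : ∀ x, F n t j ρ (j + 1) (Fin.snoc T x : Fin (j + 1) → Finset (Fin n)) ≤
            F n t j ρ j T * (2 * (if x.card = t ∧ 3 ≤ (x ∩ Un (xt T) j).card then
                ((1 + ρ) / 2) ^ (mm t - j) else 0)) := by
          intro x
          have h3 := step_pt n t j ρ h0 h1 j T x
              (x.card = t ∧ 3 ≤ (x ∩ Un (xt T) j).card ∧ ∀ i < j, (x ∩ xt T i).card ≤ 2)
              (mm t - j) (by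
                intro hV'
                have h4 := hV'.2.2 (Nat.lt_succ_self j)
                rw [xt_snoc_eq, Un_congr _ (xt T) j (fun i hi => xt_snoc_lt T x i hi)] at h4
                exact ⟨h4.1, h4.2.1, fun i hi => by
                  rw [← xt_snoc_lt T x i hi]; exact h4.2.2 i hi⟩)
              (fun h5 => new_last (xt T) j t x h5.1 h5.2.2)
          refine h3.trans (mul_le_mul_of_nonneg_left ?_ hF0)
          refine mul_le_mul_of_nonneg_left ?_ zero_le_two
          by_cases h6 : x.card = t ∧ 3 ≤ (x ∩ Un (xt T) j).card ∧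
              ∀ i < j, (x ∩ xt T i).card ≤ 2
          · rw [if_pos h6, if_pos ⟨h6.1, h6.2.1⟩]
          · rw [if_neg h6]
            split_ifs
            · positivity
            · exact le_rfl
        refine (sum_le_sum fun x _ => h2 x).trans ?_
        rw [← mul_sum, ← mul_sum, ← sum_filter, sum_const, nsmul_eq_mul, mul_comm]
        refine mul_le_mul_of_nonneg_right ?_ hF0
        rw [c, if_neg (by omega), if_neg (lt_irrefl _)]
        have h7 : (((univ.filter fun x : Finset (Fin n) =>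
            x.card = t ∧ 3 ≤ (x ∩ Un (xt T) j).card).card : ℕ) : ℝ)
            ≤ ((t * j).choose 3 : ℝ) * ((n - 3).choose (t - 3) : ℝ) := by
          rw [← Nat.cast_mul]
          refine Nat.cast_le.mpr ((count_sup _ 3 t).trans (Nat.mul_le_mul_right _ ?_))
          exact Nat.choose_le_choose 3 (Un_card_le t j j le_rfl hR _ hV)
        have h8 := mul_le_mul_of_nonneg_right h7 (pow_nonneg hq0 (mm t - j))
        linarith
  · -- not valid
    have h2 : F n t R ρ j T = 0 := by rw [F, if_neg hV]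
    rw [h2, mul_zero]
    refine le_of_eq (sum_eq_zero fun x _ => ?_)
    rw [F, if_neg]
    intro hV'
    exact hV (Val_congr t R j _ _ (fun i hi => xt_snoc_lt T x i hi) (Val_mono t R j _ hV'))

/-- extension of a finite sequence of colours -/
def extB {j : ℕ} (a : Fin j → Bool) : ℕ → Bool :=
  fun i => if h : i < j then a ⟨i, h⟩ else true

theorem nearB_congr {n : ℕ} (k : ℕ) (T T' : ℕ → Finset (Fin n)) (a a' : ℕ → Bool)
    (hT : ∀ i < k, T i = T' i) (ha : ∀ i < k, a i = a' i) : nearB k T a = nearB k T' a' := by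
  funext e
  rw [nearB, nearB]
  refine filter_congr fun x _ => ?_
  constructor
  · intro h i hi he
    rw [← ha i (mem_range.mp hi)]
    exact h i hi (by rw [hT i (mem_range.mp hi)]; exact he)
  · intro h i hi he
    rw [ha i (mem_range.mp hi)]
    exact h i hi (by rw [← hT i (mem_range.mp hi)]; exact he)

theorem prB_nonneg {n : ℕ} (ρ : ℝ) (h0 : 0 ≤ ρ) (h1 : ρ ≤ 1) (B : Bx n) : 0 ≤ prB ρ B := by
  refine prod_nonneg fun e _ => sum_nonneg fun x _ => ?_
  rw [wt]
  split_ifs
  · linarith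
  · linarith

end ItemS4

open ItemS4 in
theorem pr_S4 : PN → SEQ → S4 := by
  intro hPN hSEQ n t R ρ h0 h1 hR
  classical
  -- the sum over the sequences
  have hA : ∑ T : Fin (R + 1) → Finset (Fin n), F n t R ρ (R + 1) T
      ≤ ∏ j ∈ range (R + 1), c n t R ρ j := by
    refine hSEQ (Finset (Fin n)) (R + 1) (F n t R ρ) (c n t R ρ) (c_nonneg n t R ρ h0) ?_ ?_
    · intro T
      rw [F]
      split_ifs
      · have h2 : Ug (xt T) 0 = ∅ := by rw [Ug, range_zero, biUnion_empty]
        rw [h2, card_empty, pow_zero, pow_zero, mul_one]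
      · exact zero_le_one
    · intro j hj T
      exact step n t R ρ h0 h1 hR j hj T
  -- choose data for every box
  have hB : ∀ B ∈ B4 n t R, ∃ p : (Fin (R + 1) → Finset (Fin n)) × (Fin (R + 1) → Bool),
      Val t R (R + 1) (xt p.1) ∧ B = nearB (R + 1) (xt p.1) (extB p.2) := by
    intro B hB
    rw [B4, mem_filter] at hB
    obtain ⟨-, T, a, ⟨hc0, hc⟩, hTR, h3, h2, rfl⟩ := hB
    have hT : ∀ i < R + 1, T i = xt (fun i : Fin (R + 1) => T i) i := by
      intro i hi
      rw [xt, dif_pos hi]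
    have ha : ∀ i < R + 1, a i = extB (fun i : Fin (R + 1) => a i) i := by
      intro i hi
      rw [extB, dif_pos hi]
    refine ⟨(fun i => T i, fun i => a i), ?_, nearB_congr _ _ _ _ _ hT ha⟩
    refine Val_congr t R (R + 1) T _ hT ⟨fun _ => hc0, fun i hi _ hiR => hc i hi hiR,
      fun _ => ⟨hTR, h3, h2⟩⟩
  choose! g hg1 hg2 using hB
  set φ : (Fin (R + 1) → Finset (Fin n)) × (Fin (R + 1) → Bool) → ℝ :=
    fun p => prB ρ (nearB (R + 1) (xt p.1) (extB p.2)) with hφ
  have hinj : Set.InjOn g (B4 n t R : Set (Bx n)) := by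
    intro B hB B' hB' h
    rw [hg2 B hB, hg2 B' hB', h]
  have hC : ∑ B ∈ B4 n t R, prB ρ B ≤
      ∑ p : (Fin (R + 1) → Finset (Fin n)) × (Fin (R + 1) → Bool),
        (if Val t R (R + 1) (xt p.1) then φ p else 0) := by
    rw [← sum_filter]
    have h2 : ∑ B ∈ B4 n t R, prB ρ B = ∑ p ∈ (B4 n t R).image g, φ p := by
      rw [sum_image hinj]
      refine sum_congr rfl fun B hB => ?_
      rw [hφ]
      dsimp only
      rw [← hg2 B hB]
    rw [h2]
    refine sum_le_sum_of_subset_of_nonneg ?_ fun p _ _ => prB_nonneg ρ h0 h1 _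
    intro p hp
    obtain ⟨B, hB, rfl⟩ := mem_image.mp hp
    rw [mem_filter]
    exact ⟨mem_univ _, hg1 B hB⟩
  have hD : ∑ p : (Fin (R + 1) → Finset (Fin n)) × (Fin (R + 1) → Bool),
        (if Val t R (R + 1) (xt p.1) then φ p else 0)
      ≤ ∑ T : Fin (R + 1) → Finset (Fin n), F n t R ρ (R + 1) T := by
    rw [Fintype.sum_prod_type]
    refine sum_le_sum fun T _ => ?_
    dsimp only
    by_cases hV : Val t R (R + 1) (xt T)
    · rw [F, if_pos hV]
      calc ∑ a : Fin (R + 1) → Bool, (if Val t R (R + 1) (xt T) then φ (T, a) else 0)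
          ≤ ∑ _a : Fin (R + 1) → Bool, ((1 + ρ) / 2) ^ (Ug (xt T) (R + 1)).card := by
            refine sum_le_sum fun a _ => ?_
            rw [if_pos hV, hφ]
            exact hPN n (R + 1) (xt T) (extB a) ρ h0 h1
        _ = _ := by
            rw [sum_const, card_univ, nsmul_eq_mul, Fintype.card_fun, Fintype.card_bool,
              Fintype.card_fin]
            push_cast
            ring
    · rw [F, if_neg hV]
      simp [hV]
  refine (hC.trans (hD.trans hA)).trans (le_of_eq ?_)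
  obtain ⟨R', rfl⟩ : ∃ R', R = R' + 1 := ⟨R - 1, by omega⟩
  rw [prod_range_succ, prod_range_succ']
  have h2 : ∀ j ∈ range R', c n t (R' + 1) ρ (j + 1) =
      2 * (1 + ((t * (R' + 1)).choose 2 : ℝ) * ((n - 2).choose (t - 2) : ℝ) *
        ((1 + ρ) / 2) ^ (mm t - 1)) := by
    intro j hj
    have hj' := mem_range.mp hj
    rw [c, if_neg (by omega), if_pos (by omega)]
  rw [prod_congr rfl h2, prod_const, card_range, c, if_pos rfl, c, if_neg (by omega),
    if_neg (lt_irrefl _), sum4, Nat.add_sub_cancel]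
  ring

end Pool.Agent.Work.MP_2a0c1d_co
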