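import Pool.Agent.Work.MP_2a0c1d_co.Stmts

set_option autoImplicit false

namespace Pool.Agent.Work.MP_2a0c1d_co

open Finset

theorem S5_ed_card {n : ℕ} (S : Finset (Fin n)) : (ed S).card ≤ S.card.choose 2 := by
  classical
  rw [← Sym2.card_image_offDiag S]
  apply Finset.card_le_card
  intro e he
  unfold ed at he
  rw [Finset.mem_filter] at he
  obtain ⟨h1, h2⟩ := he
  induction e using Sym2.ind with
  | _ x y =>
    rw [Finset.mk_mem_sym2_iff] at h1
    rw [Sym2.mk_isDiag_iff] at h2
    rw [Finset.mem_image]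
    exact ⟨(x, y), Finset.mem_offDiag.mpr ⟨h1.1, h1.2, h2⟩, rfl⟩

theorem S5_mem_ed {n : ℕ} {S : Finset (Fin n)} {x y : Fin n} :
    s(x, y) ∈ ed S ↔ x ∈ S ∧ y ∈ S ∧ x ≠ y := by
  unfold ed
  rw [Finset.mem_filter, Finset.mk_mem_sym2_iff, Sym2.mk_isDiag_iff]
  tauto

open Classical in
theorem S5_through {n : ℕ} (t : ℕ) (e : Sym2 (Fin n)) (he : ¬ e.IsDiag) :
    (univ.filter fun Q : Finset (Fin n) => Q.card = t ∧ e ∈ ed Q).card ≤
      (n - 2).choose (t - 2) := by
  induction e using Sym2.ind with
  | _ x y =>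
    have hxy : x ≠ y := by rwa [Sym2.mk_isDiag_iff] at he
    have hcard : ((univ : Finset (Fin n)) \ {x, y}).card = n - 2 := by
      rw [Finset.card_sdiff_of_subset (Finset.subset_univ _), Finset.card_univ, Fintype.card_fin,
        Finset.card_pair hxy]
    rw [← hcard, ← Finset.card_powersetCard]
    apply Finset.card_le_card_of_injOn (fun Q => Q \ {x, y})
    · intro Q hQ
      rw [Finset.mem_coe, Finset.mem_filter] at hQ
      obtain ⟨-, hQ1, hQ2⟩ := hQ
      rw [S5_mem_ed] at hQ2
      rw [Finset.mem_coe, Finset.mem_powersetCard]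
      refine ⟨Finset.sdiff_subset_sdiff (Finset.subset_univ _) (le_refl _), ?_⟩
      rw [Finset.card_sdiff_of_subset, hQ1, Finset.card_pair hxy]
      intro z hz
      rw [Finset.mem_insert, Finset.mem_singleton] at hz
      rcases hz with rfl | rfl
      · exact hQ2.1
      · exact hQ2.2.1
    · intro Q hQ Q' hQ' heq
      rw [Finset.mem_coe, Finset.mem_filter] at hQ hQ'
      obtain ⟨-, -, hQ2⟩ := hQ
      obtain ⟨-, -, hQ2'⟩ := hQ'
      rw [S5_mem_ed] at hQ2 hQ2'
      ext z
      by_cases hz : z = x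
      · subst hz; exact ⟨fun _ => hQ2'.1, fun _ => hQ2.1⟩
      by_cases hz' : z = y
      · subst hz'; exact ⟨fun _ => hQ2'.2.1, fun _ => hQ2.2.1⟩
      have h := Finset.ext_iff.mp heq z
      simp only [Finset.mem_sdiff, Finset.mem_insert, Finset.mem_singleton, hz, hz', or_self,
        not_false_eq_true, and_true] at h
      exact h

/-- Weight of a slot. -/
noncomputable def S5_c {n : ℕ} (z r : ℝ) : Wit n → ℝ
  | none => z
  | some _ => r

open Classical in
/-- The valid pairs of a slot. -/
noncomputable def S5_VP {n : ℕ} (t : ℕ) (Q' : Finset (Fin n)) :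
    Finset (Sym2 (Fin n) × Finset (Fin n)) :=
  univ.filter fun p => p.1 ∈ ed Q' ∧ p.2.card = t ∧ p.1 ∈ ed p.2

open Classical in
/-- The valid slots. -/
noncomputable def S5_VW {n : ℕ} (t : ℕ) (Q' : Finset (Fin n)) : Finset (Wit n) :=
  insert none ((S5_VP t Q').image some)

open Classical in
theorem S5_VP_card {n : ℕ} (t : ℕ) (Q' : Finset (Fin n)) (hQ : Q'.card = t) :
    (S5_VP t Q').card ≤ mm t * (n - 2).choose (t - 2) := by
  have h1 : (S5_VP t Q').card = ∑ e ∈ ed Q',
      (univ.filter fun Q : Finset (Fin n) => Q.card = t ∧ e ∈ ed Q).card := by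
    unfold S5_VP
    rw [Finset.card_filter, Fintype.sum_prod_type, ← Finset.sum_subset (Finset.subset_univ (ed Q'))]
    · apply Finset.sum_congr rfl
      intro e he
      rw [Finset.card_filter]
      apply Finset.sum_congr rfl
      intro Q _
      simp [he]
    · intro e _ he
      apply Finset.sum_eq_zero
      intro Q _
      simp [he]
  rw [h1]
  calc ∑ e ∈ ed Q', (univ.filter fun Q : Finset (Fin n) => Q.card = t ∧ e ∈ ed Q).card
      ≤ ∑ _e ∈ ed Q', (n - 2).choose (t - 2) := by
        apply Finset.sum_le_sum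
        intro e he
        apply S5_through t e
        unfold ed at he
        exact (Finset.mem_filter.mp he).2
    _ = (ed Q').card * (n - 2).choose (t - 2) := by rw [Finset.sum_const, smul_eq_mul]
    _ ≤ mm t * (n - 2).choose (t - 2) := by
        apply Nat.mul_le_mul_right
        have := S5_ed_card Q'
        rw [hQ] at this
        exact this

open Classical in
theorem S5_slot {n : ℕ} (t : ℕ) (Q' : Finset (Fin n)) (z r : ℝ) :
    ∑ v ∈ S5_VW t Q', S5_c z r v = z + (S5_VP t Q').card * r := by
  unfold S5_VW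
  rw [Finset.sum_insert, Finset.sum_image]
  · simp only [S5_c, Finset.sum_const, nsmul_eq_mul]
  · intro a _ b _ h
    exact Option.some_injective _ h
  · simp

open Classical in
theorem S5_slots {n : ℕ} (t d : ℕ) (Q' : Finset (Fin n)) (hQ : Q'.card = t) (ρ : ℝ) (h0 : 0 ≤ ρ) :
    ∑ w ∈ Fintype.piFinset (fun _ : Fin d => S5_VW t Q'),
      ((if ∀ l, w l ≠ none then (1 + ρ) ^ mm t else 1) *
        ∏ l, (if w l = none then 1 else ρ * pm t)) ≤
      (1 + ρ * mm t * W n t) ^ d + (1 + ρ) ^ mm t * (ρ * mm t * W n t) ^ d := by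
  have hpm : 0 ≤ pm t := by unfold pm; positivity
  have hr : 0 ≤ ρ * pm t := mul_nonneg h0 hpm
  have hN : ((S5_VP t Q').card : ℝ) * (ρ * pm t) ≤ ρ * mm t * W n t := by
    have h1 : ((S5_VP t Q').card : ℝ) ≤ (mm t : ℝ) * ((n - 2).choose (t - 2) : ℝ) := by
      exact_mod_cast S5_VP_card t Q' hQ
    calc ((S5_VP t Q').card : ℝ) * (ρ * pm t)
        ≤ (mm t : ℝ) * ((n - 2).choose (t - 2) : ℝ) * (ρ * pm t) :=
          mul_le_mul_of_nonneg_right h1 hr
      _ = ρ * mm t * W n t := by unfold W; ring
  have e1 : ∀ z : ℝ, ∑ w ∈ Fintype.piFinset (fun _ : Fin d => S5_VW t Q'),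
      ∏ l, S5_c z (ρ * pm t) (w l) = (z + (S5_VP t Q').card * (ρ * pm t)) ^ d := by
    intro z
    rw [← Finset.prod_univ_sum (fun _ : Fin d => S5_VW t Q') (fun _ v => S5_c z (ρ * pm t) v)]
    rw [Finset.prod_const, S5_slot, Finset.card_univ, Fintype.card_fin]
  have hbd : ∀ w : Fin d → Wit n, ((if ∀ l, w l ≠ none then (1 + ρ) ^ mm t else 1) *
        ∏ l, (if w l = none then 1 else ρ * pm t)) ≤
      ∏ l, S5_c 1 (ρ * pm t) (w l) + (1 + ρ) ^ mm t * ∏ l, S5_c 0 (ρ * pm t) (w l) := by
    intro w
    have hc1 : ∏ l, (if w l = none then 1 else ρ * pm t) = ∏ l, S5_c 1 (ρ * pm t) (w l) := by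
      apply Finset.prod_congr rfl
      intro l _
      cases w l <;> simp [S5_c]
    have hn1 : 0 ≤ ∏ l, S5_c 1 (ρ * pm t) (w l) := by
      apply Finset.prod_nonneg
      intro l _
      cases w l <;> simp [S5_c, hr]
    have hn0 : 0 ≤ (1 + ρ) ^ mm t * ∏ l, S5_c 0 (ρ * pm t) (w l) := by
      apply mul_nonneg (by positivity)
      apply Finset.prod_nonneg
      intro l _
      cases w l <;> simp [S5_c, hr]
    by_cases hall : ∀ l, w l ≠ none
    · rw [if_pos hall, hc1]
      have : ∏ l, S5_c 1 (ρ * pm t) (w l) = ∏ l, S5_c 0 (ρ * pm t) (w l) := by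
        apply Finset.prod_congr rfl
        intro l _
        have := hall l
        cases hh : w l with
        | none => exact absurd hh this
        | some _ => simp [S5_c]
      rw [← this]
      linarith
    · rw [if_neg hall, one_mul, hc1]
      linarith
  calc ∑ w ∈ Fintype.piFinset (fun _ : Fin d => S5_VW t Q'),
      ((if ∀ l, w l ≠ none then (1 + ρ) ^ mm t else 1) *
        ∏ l, (if w l = none then 1 else ρ * pm t))
      ≤ ∑ w ∈ Fintype.piFinset (fun _ : Fin d => S5_VW t Q'),
        (∏ l, S5_c 1 (ρ * pm t) (w l) + (1 + ρ) ^ mm t * ∏ l, S5_c 0 (ρ * pm t) (w l)) :=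
        Finset.sum_le_sum fun w _ => hbd w
    _ = (1 + (S5_VP t Q').card * (ρ * pm t)) ^ d +
        (1 + ρ) ^ mm t * (0 + (S5_VP t Q').card * (ρ * pm t)) ^ d := by
        rw [Finset.sum_add_distrib, ← Finset.mul_sum, e1, e1]
    _ ≤ (1 + ρ * mm t * W n t) ^ d + (1 + ρ) ^ mm t * (ρ * mm t * W n t) ^ d := by
        rw [zero_add]
        apply add_le_add
        · apply pow_le_pow_left₀ (by positivity)
          linarith
        · apply mul_le_mul_of_nonneg_left _ (by positivity)
          apply pow_le_pow_left₀ (by positivity) hN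

/-- The weight of one threat. -/
noncomputable def S5_g {n d : ℕ} (t : ℕ) (ρ : ℝ) (y : Thr n d) : ℝ := by
  classical
  exact pm t * (if ∀ l, y.2.2 l ≠ none then (1 + ρ) ^ mm t else 1) *
      ∏ l, (if y.2.2 l = none then 1 else ρ * pm t)

open Classical in
/-- The valid threats. -/
noncomputable def S5_V {n d : ℕ} (t : ℕ) (S : Finset (Fin n)) : Finset (Thr n d) :=
  univ.filter fun y => y.1 ∈ ed S ∧ (y.2.1.card = t ∧ y.1 ∈ ed y.2.1) ∧
    y.2.2 ∈ Fintype.piFinset (fun _ : Fin d => S5_VW t y.2.1)

theorem S5_g_nonneg {n d : ℕ} (t : ℕ) (ρ : ℝ) (h0 : 0 ≤ ρ) (y : Thr n d) : 0 ≤ S5_g t ρ y := by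
  classical
  have hpm : 0 ≤ pm t := by unfold pm; positivity
  unfold S5_g
  apply mul_nonneg
  · apply mul_nonneg hpm
    split_ifs <;> positivity
  · apply Finset.prod_nonneg
    intro l _
    split_ifs <;> positivity

open Classical in
theorem S5_one {n d : ℕ} (t : ℕ) (S : Finset (Fin n)) (hS : S.card = t) (ρ : ℝ) (h0 : 0 ≤ ρ) :
    ∑ y ∈ S5_V (d := d) t S, S5_g t ρ y ≤
      mm t * W n t * ((1 + ρ * mm t * W n t) ^ d + (1 + ρ) ^ mm t * (ρ * mm t * W n t) ^ d) := by
  have hpm : 0 ≤ pm t := by unfold pm; positivity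
  have hW : 0 ≤ W n t := by unfold W; positivity
  set K : ℝ := (1 + ρ * mm t * W n t) ^ d + (1 + ρ) ^ mm t * (ρ * mm t * W n t) ^ d with hK
  have hK0 : 0 ≤ K := by rw [hK]; positivity
  have e1 : ∑ y ∈ S5_V (d := d) t S, S5_g t ρ y = ∑ e ∈ ed S,
      ∑ Q ∈ univ.filter (fun Q : Finset (Fin n) => Q.card = t ∧ e ∈ ed Q),
        ∑ w ∈ Fintype.piFinset (fun _ : Fin d => S5_VW t Q), S5_g t ρ (e, Q, w) := by
    unfold S5_V
    rw [Finset.sum_filter, Fintype.sum_prod_type, ← Finset.sum_subset (Finset.subset_univ (ed S))]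
    · apply Finset.sum_congr rfl
      intro e he
      rw [Fintype.sum_prod_type, Finset.sum_filter]
      apply Finset.sum_congr rfl
      intro Q _
      by_cases hQ : Q.card = t ∧ e ∈ ed Q
      · rw [if_pos hQ, ← Finset.sum_filter]
        apply Finset.sum_congr _ (fun _ _ => rfl)
        ext w
        simp only [Finset.mem_filter, Finset.mem_univ, true_and]
        tauto
      · rw [if_neg hQ]
        apply Finset.sum_eq_zero
        intro w _
        rw [if_neg]
        intro h
        exact hQ h.2.1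
    · intro e _ he
      apply Finset.sum_eq_zero
      intro q _
      rw [if_neg]
      intro h
      exact he h.1
  rw [e1]
  have e2 : ∀ e ∈ ed S, ∑ Q ∈ univ.filter (fun Q : Finset (Fin n) => Q.card = t ∧ e ∈ ed Q),
        ∑ w ∈ Fintype.piFinset (fun _ : Fin d => S5_VW t Q), S5_g t ρ (e, Q, w) ≤
      ((n - 2).choose (t - 2) : ℝ) * (pm t * K) := by
    intro e he
    have hd : ¬ e.IsDiag := by
      unfold ed at he
      exact (Finset.mem_filter.mp he).2
    calc ∑ Q ∈ univ.filter (fun Q : Finset (Fin n) => Q.card = t ∧ e ∈ ed Q),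
        ∑ w ∈ Fintype.piFinset (fun _ : Fin d => S5_VW t Q), S5_g t ρ (e, Q, w)
        ≤ ∑ Q ∈ univ.filter (fun Q : Finset (Fin n) => Q.card = t ∧ e ∈ ed Q), pm t * K := by
          apply Finset.sum_le_sum
          intro Q hQ
          rw [Finset.mem_filter] at hQ
          have := S5_slots (n := n) t d Q hQ.2.1 ρ h0
          calc ∑ w ∈ Fintype.piFinset (fun _ : Fin d => S5_VW t Q), S5_g t ρ (e, Q, w)
              = pm t * ∑ w ∈ Fintype.piFinset (fun _ : Fin d => S5_VW t Q),
                ((if ∀ l, w l ≠ none then (1 + ρ) ^ mm t else 1) *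
                  ∏ l, (if w l = none then 1 else ρ * pm t)) := by
                rw [Finset.mul_sum]
                apply Finset.sum_congr rfl
                intro w _
                unfold S5_g
                rw [mul_assoc]
            _ ≤ pm t * K := mul_le_mul_of_nonneg_left this hpm
      _ = ((univ.filter (fun Q : Finset (Fin n) => Q.card = t ∧ e ∈ ed Q)).card : ℝ) *
            (pm t * K) := by rw [Finset.sum_const, nsmul_eq_mul]
      _ ≤ ((n - 2).choose (t - 2) : ℝ) * (pm t * K) := by
          apply mul_le_mul_of_nonneg_right _ (mul_nonneg hpm hK0)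
          exact_mod_cast S5_through t e hd
  calc _ ≤ ∑ _e ∈ ed S, ((n - 2).choose (t - 2) : ℝ) * (pm t * K) := Finset.sum_le_sum e2
    _ = ((ed S).card : ℝ) * (((n - 2).choose (t - 2) : ℝ) * (pm t * K)) := by
        rw [Finset.sum_const, nsmul_eq_mul]
    _ ≤ (mm t : ℝ) * (((n - 2).choose (t - 2) : ℝ) * (pm t * K)) := by
        apply mul_le_mul_of_nonneg_right
        · have := S5_ed_card S
          rw [hS] at this
          exact_mod_cast this
        · positivity
    _ = mm t * W n t * K := by unfold W; ring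

theorem S5_valid {n d : ℕ} (t : ℕ) (S : Finset (Fin n)) (y : Thr n d) (h : OkT t S y) :
    y ∈ S5_V (d := d) t S := by
  classical
  obtain ⟨h1, h2, h3, h4, -⟩ := h
  unfold S5_V
  rw [Finset.mem_filter]
  refine ⟨Finset.mem_univ _, h1, ⟨h3, h2⟩, ?_⟩
  rw [Fintype.mem_piFinset]
  intro l
  unfold S5_VW
  rw [Finset.mem_insert]
  cases hh : y.2.2 l with
  | none => exact Or.inl rfl
  | some p =>
    right
    rw [Finset.mem_image]
    refine ⟨p, ?_, rfl⟩
    unfold S5_VP
    rw [Finset.mem_filter]
    obtain ⟨f, Q⟩ := p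
    obtain ⟨g1, -, g3, g4⟩ := h4 l f Q hh
    exact ⟨Finset.mem_univ _, g1, g3, g4⟩

theorem pr_S5 : PB5 → S5 := by
  classical
  intro hPB n t h d ρ h0 h1 ht
  have hpm : 0 ≤ pm t := by unfold pm; positivity
  have hW : 0 ≤ W n t := by unfold W; positivity
  have hprB : ∀ B : Bx n, 0 ≤ prB ρ B := by
    intro B
    unfold prB wS
    apply Finset.prod_nonneg
    intro e _
    apply Finset.sum_nonneg
    intro x _
    unfold wt
    split_ifs
    · positivity
    · have : 0 ≤ 1 - ρ := by linarith
      positivity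
  -- B5 as an image
  set D : Finset (Bool × Finset (Fin n) × (Fin h → Thr n d)) :=
    univ.filter fun z => OkD t z.2.1 z.2.2 with hD
  have hB5 : B5 n t h d = D.image (fun z => box5 z.1 z.2.1 z.2.2) := by
    ext B
    unfold B5
    rw [Finset.mem_filter, Finset.mem_image]
    constructor
    · rintro ⟨-, a, S, x, hx, hB⟩
      exact ⟨(a, S, x), Finset.mem_filter.mpr ⟨Finset.mem_univ _, hx⟩, hB.symm⟩
    · rintro ⟨z, hz, hB⟩
      exact ⟨Finset.mem_univ _, z.1, z.2.1, z.2.2, (Finset.mem_filter.mp hz).2, hB.symm⟩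
  set K : ℝ := (1 + ρ * mm t * W n t) ^ d + (1 + ρ) ^ mm t * (ρ * mm t * W n t) ^ d with hK
  have hK0 : 0 ≤ K := by rw [hK]; positivity
  rw [hB5]
  calc ∑ B ∈ D.image (fun z => box5 z.1 z.2.1 z.2.2), prB ρ B
      ≤ ∑ z ∈ D, prB ρ (box5 z.1 z.2.1 z.2.2) := by
        apply Finset.sum_image_le_of_nonneg
        intro z _
        exact hprB _
    _ ≤ ∑ z ∈ D, (1 / 2) ^ mm t * ρ ^ h * ∏ i, S5_g t ρ (z.2.2 i) := by
        apply Finset.sum_le_sum
        intro z hz
        have hz2 := (Finset.mem_filter.mp hz).2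
        have := hPB n t h d ρ z.1 z.2.1 z.2.2 h0 h1 ht hz2
        refine le_trans this (le_of_eq ?_)
        unfold S5_g
        congr 1
    _ ≤ ∑ _a : Bool, ∑ S ∈ Finset.powersetCard t (univ : Finset (Fin n)),
          ∑ x ∈ Fintype.piFinset (fun _ : Fin h => S5_V (d := d) t S),
            (1 / 2) ^ mm t * ρ ^ h * ∏ i, S5_g t ρ (x i) := by
        rw [hD, Finset.sum_filter, Fintype.sum_prod_type]
        apply Finset.sum_le_sum
        intro a _
        rw [Fintype.sum_prod_type]
        rw [← Finset.sum_subset (Finset.subset_univ (Finset.powersetCard t univ))]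
        · apply Finset.sum_le_sum
          intro S _
          rw [← Finset.sum_filter]
          apply Finset.sum_le_sum_of_subset_of_nonneg
          · intro x hx
            have hx2 := (Finset.mem_filter.mp hx).2
            rw [Fintype.mem_piFinset]
            intro i
            exact S5_valid t S (x i) (hx2.2.1 i)
          · intro x _ _
            apply mul_nonneg (by positivity)
            apply Finset.prod_nonneg
            intro i _
            exact S5_g_nonneg t ρ h0 _
        · intro S _ hS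
          apply Finset.sum_eq_zero
          intro x _
          rw [if_neg]
          intro hx
          apply hS
          rw [Finset.mem_powersetCard]
          exact ⟨Finset.subset_univ _, hx.1⟩
    _ ≤ ∑ _a : Bool, ∑ _S ∈ Finset.powersetCard t (univ : Finset (Fin n)),
          (1 / 2) ^ mm t * (ρ * mm t * W n t * K) ^ h := by
        apply Finset.sum_le_sum
        intro a _
        apply Finset.sum_le_sum
        intro S hS
        rw [Finset.mem_powersetCard] at hS
        rw [← Finset.mul_sum, ← Finset.prod_univ_sum (fun _ : Fin h => S5_V (d := d) t S)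
          (fun _ y => S5_g t ρ y), Finset.prod_const, Finset.card_univ, Fintype.card_fin,
          mul_assoc]
        apply mul_le_mul_of_nonneg_left _ (by positivity)
        rw [← mul_pow]
        apply pow_le_pow_left₀
        · apply mul_nonneg h0
          apply Finset.sum_nonneg
          intro y _
          exact S5_g_nonneg t ρ h0 y
        · calc ρ * ∑ y ∈ S5_V (d := d) t S, S5_g t ρ y ≤ ρ * (mm t * W n t * K) :=
              mul_le_mul_of_nonneg_left (S5_one t S hS.2 ρ h0) h0
            _ = ρ * mm t * W n t * K := by ring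
    _ = (n.choose t : ℝ) * (pm t * sum5 n t h d ρ) := by
        rw [Finset.sum_const, Finset.sum_const, Finset.card_powersetCard, Finset.card_univ,
          Finset.card_univ, Fintype.card_fin, Fintype.card_bool]
        unfold sum5 pm
        rw [nsmul_eq_mul, nsmul_eq_mul]
        push_cast
        ring

end Pool.Agent.Work.MP_2a0c1d_co
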