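import Pool.Agent.Work.MP_2a0c1d_co.Stmts

set_option autoImplicit false

namespace Pool.Agent.Work.MP_2a0c1d_co

open Finset

theorem pr_SEQ : SEQ := by
  intro α _ k F c hc hF0 hF
  have main : ∀ k' ≤ k, ∑ T : Fin k' → α, F k' T ≤ ∏ j ∈ range k', c j := by
    intro k'
    induction k' with
    | zero =>
      intro _
      rw [prod_range_zero, Fintype.sum_unique]
      exact hF0 _
    | succ m ih =>
      intro hm
      have h1 : ∑ T : Fin (m + 1) → α, F (m + 1) T
          = ∑ T : Fin m → α, ∑ x, F (m + 1) (Fin.snoc T x) := by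
        rw [← (Fin.snocEquiv (fun _ : Fin (m + 1) => α)).sum_comp, Fintype.sum_prod_type,
          Finset.sum_comm]
        rfl
      rw [h1, prod_range_succ]
      calc ∑ T : Fin m → α, ∑ x, F (m + 1) (Fin.snoc T x)
          ≤ ∑ T : Fin m → α, c m * F m T := Finset.sum_le_sum (fun T _ => hF m (by omega) T)
        _ = c m * ∑ T : Fin m → α, F m T := by rw [Finset.mul_sum]
        _ ≤ c m * ∏ j ∈ range m, c j := mul_le_mul_of_nonneg_left (ih (by omega)) (hc m)
        _ = (∏ j ∈ range m, c j) * c m := mul_comm _ _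
  exact main k le_rfl

end Pool.Agent.Work.MP_2a0c1d_co
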