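import Pool.Agent.Work.MP_2a0c1d_co.Stmts

/-!
# Item SYM: the total weight through a pair
-/

set_option autoImplicit false

namespace Pool.Agent.Work.MP_2a0c1d_co

open Finset

namespace NSYM

lemma prB_nonneg {n : ℕ} {ρ : ℝ} (h0 : 0 ≤ ρ) (h1 : ρ ≤ 1) (B : Bx n) : 0 ≤ prB ρ B := by
  refine Finset.prod_nonneg fun e _ => Finset.sum_nonneg fun x _ => ?_
  unfold wt
  split_ifs
  · positivity
  · have : 0 ≤ 1 - ρ := by linarith
    positivity

/-- the action of a permutation on boxes -/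
def ph {n : ℕ} (σ : Equiv.Perm (Fin n)) (B : Bx n) : Bx n := fun e => B (e.map σ)

lemma map_map_inv {n : ℕ} (σ : Equiv.Perm (Fin n)) (e : Sym2 (Fin n)) :
    (e.map σ).map ⇑(σ⁻¹) = e := by
  rw [Sym2.map_map]
  have : (⇑(σ⁻¹) ∘ ⇑σ) = id := by
    funext x
    simp
  rw [this, Sym2.map_id, id]

lemma map_inv_map {n : ℕ} (σ : Equiv.Perm (Fin n)) (e : Sym2 (Fin n)) :
    (e.map ⇑(σ⁻¹)).map σ = e := by
  rw [Sym2.map_map]
  have : (⇑σ ∘ ⇑(σ⁻¹)) = id := by
    funext x
    simp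
  rw [this, Sym2.map_id, id]

lemma prB_ph {n : ℕ} (ρ : ℝ) (σ : Equiv.Perm (Fin n)) (B : Bx n) : prB ρ (ph σ B) = prB ρ B := by
  unfold prB ph
  let E : Sym2 (Fin n) ≃ Sym2 (Fin n) :=
    { toFun := fun e => e.map σ
      invFun := fun e => e.map ⇑(σ⁻¹)
      left_inv := map_map_inv σ
      right_inv := map_inv_map σ }
  exact Fintype.prod_equiv E _ _ fun e => rfl

lemma mem_supp_ph {n : ℕ} (σ : Equiv.Perm (Fin n)) (B : Bx n) (e : Sym2 (Fin n)) :
    e ∈ supp (ph σ B) ↔ e.map σ ∈ supp B := by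
  simp [supp, ph]

lemma exists_perm {n : ℕ} (e f : Sym2 (Fin n)) (he : ¬ e.IsDiag) (hf : ¬ f.IsDiag) :
    ∃ σ : Equiv.Perm (Fin n), e.map σ = f := by
  induction e using Sym2.ind with
  | h a b =>
  induction f using Sym2.ind with
  | h c d =>
  rw [Sym2.mk_isDiag_iff] at he hf
  have h1 : Equiv.swap a c b ≠ c := by
    intro h
    have h2 : Equiv.swap a c b = Equiv.swap a c a := by rw [h, Equiv.swap_apply_left]
    exact he ((Equiv.swap a c).injective h2).symm
  refine ⟨(Equiv.swap (Equiv.swap a c b) d) * (Equiv.swap a c), ?_⟩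
  rw [Sym2.map_mk]
  simp only [Equiv.Perm.mul_apply, Equiv.swap_apply_left]
  rw [Equiv.swap_apply_of_ne_of_ne h1.symm hf]

end NSYM

open NSYM in
theorem pr_SYM : SYM := by
  classical
  intro n M ρ hρ0 hρ1 BS hinv hsupp e0 he0
  set F : Sym2 (Fin n) → ℝ := fun e => ∑ B ∈ BS.filter (fun B => e ∈ supp B), prB ρ B with hF
  have hFσ : ∀ (σ : Equiv.Perm (Fin n)) (e : Sym2 (Fin n)), F (e.map σ) = F e := by
    intro σ e
    simp only [hF]
    refine Finset.sum_nbij' (ph σ) (ph σ⁻¹) ?_ ?_ ?_ ?_ ?_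
    · intro B hB
      rw [Finset.mem_filter] at hB ⊢
      exact ⟨hinv σ B hB.1, (mem_supp_ph σ B e).2 hB.2⟩
    · intro B hB
      rw [Finset.mem_filter] at hB ⊢
      refine ⟨hinv σ⁻¹ B hB.1, (mem_supp_ph σ⁻¹ B _).2 ?_⟩
      rw [map_map_inv]
      exact hB.2
    · intro B _
      funext e
      simp only [ph]
      rw [map_inv_map]
    · intro B _
      funext e
      simp only [ph]
      rw [map_map_inv]
    · intro B _
      exact (prB_ph ρ σ B).symm
  have hFe : ∀ e : Sym2 (Fin n), ¬ e.IsDiag → F e = F e0 := by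
    intro e he
    obtain ⟨σ, hσ⟩ := exists_perm e0 e he0 he
    rw [← hσ, hFσ]
  have hcard : (univ.filter fun e : Sym2 (Fin n) => ¬ e.IsDiag).card = n.choose 2 := by
    have h := Sym2.card_subtype_not_diag (α := Fin n)
    rw [Fintype.card_fin] at h
    rw [← h, Fintype.card_subtype]
  have h1 : F e0 * (n.choose 2 : ℝ) =
      ∑ e ∈ univ.filter (fun e : Sym2 (Fin n) => ¬ e.IsDiag), F e := by
    rw [Finset.sum_congr rfl fun e he => hFe e (Finset.mem_filter.1 he).2, Finset.sum_const, hcard,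
      nsmul_eq_mul, mul_comm]
  show F e0 * (n.choose 2 : ℝ) ≤ _
  rw [h1]
  simp only [hF, Finset.sum_filter]
  rw [← Finset.sum_filter, Finset.sum_comm, Finset.mul_sum]
  refine Finset.sum_le_sum fun B hB => ?_
  rw [← Finset.sum_filter, Finset.sum_const, nsmul_eq_mul]
  refine mul_le_mul_of_nonneg_right ?_ (prB_nonneg hρ0 hρ1 B)
  have h2 : ((univ.filter (fun e : Sym2 (Fin n) => ¬ e.IsDiag)).filter
      (fun e => e ∈ supp B)).card ≤ M := by
    refine le_trans (Finset.card_le_card ?_) (hsupp B hB).1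
    intro e he
    exact (Finset.mem_filter.1 he).2
  exact_mod_cast h2

end Pool.Agent.Work.MP_2a0c1d_co
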