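import Pool.Agent.Work.MP_2a0c1d_co.Stmts

/-!
# Item TREE
-/

set_option autoImplicit false

namespace Pool.Agent.Work.MP_2a0c1d_co

open Finset

theorem TREE_mem {n : ℕ} (S : Finset (Fin n)) (e : Sym2 (Fin n)) :
    e ∈ ed S ↔ (∀ a ∈ e, a ∈ S) ∧ ¬ e.IsDiag := by
  unfold ed
  rw [Finset.mem_filter, Finset.mem_sym2_iff]

theorem TREE_two {n : ℕ} (A : Finset (Fin n)) (h : A.card = 2) (g g' : Sym2 (Fin n))
    (hg : g ∈ ed A) (hg' : g' ∈ ed A) : g = g' := by
  obtain ⟨u, v, _, rfl⟩ := Finset.card_eq_two.mp h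
  have key : ∀ z : Sym2 (Fin n), z ∈ ed ({u, v} : Finset (Fin n)) → z = s(u, v) := by
    intro z
    induction z using Sym2.ind with
    | _ a b =>
      intro hz
      rw [TREE_mem] at hz
      obtain ⟨h1, h2⟩ := hz
      have ha := h1 a (Sym2.mem_mk_left a b)
      have hb := h1 b (Sym2.mem_mk_right a b)
      rw [Sym2.mk_isDiag_iff] at h2
      simp only [Finset.mem_insert, Finset.mem_singleton] at ha hb
      rcases ha with rfl | rfl <;> rcases hb with rfl | rfl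
      · exact absurd rfl h2
      · rfl
      · exact Sym2.eq_swap
      · exact absurd rfl h2
  rw [key g hg, key g' hg']

theorem TREE_inter {n : ℕ} (T : ℕ → Finset (Fin n)) (i k : ℕ) (hk : k < i) (g : Sym2 (Fin n))
    (h1 : g ∈ ed (T i)) (h2 : g ∈ ed (T k)) : g ∈ ed (T i ∩ Un T i) := by
  rw [TREE_mem] at h1 h2 ⊢
  refine ⟨fun a ha => ?_, h1.2⟩
  rw [Finset.mem_inter]
  refine ⟨h1.1 a ha, ?_⟩
  unfold Un
  rw [Finset.mem_biUnion]
  exact ⟨k, Finset.mem_range.mpr hk, h2.1 a ha⟩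

theorem TREE_ne {n : ℕ} (S : Finset (Fin n)) (e : Sym2 (Fin n)) (h : e ∈ ed S) : S ≠ ∅ := by
  rintro rfl
  rw [TREE_mem] at h
  induction e using Sym2.ind with
  | _ a b => exact absurd (h.1 a (Sym2.mem_mk_left a b)) (Finset.notMem_empty a)

theorem pr_TREE : TREE := by
  intro n R T p E hT r hr1 hrR hTr hclean j hj heq
  obtain ⟨q1, q2, q3, q4, q5, q6⟩ := hT r hr1 hrR hTr
  -- the basic fact
  have star : ∀ i k, 1 ≤ i → i < r → T i ≠ ∅ → k < i → ∀ g, g ∈ ed (T i) → g ∈ ed (T k) →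
      g = E i := by
    intro i k hi hir hne hk g h1 h2
    obtain ⟨w1, w2, w3, _⟩ := hT i hi (by omega) hne
    exact TREE_two _ (hclean i hi hir hne) g (E i) (TREE_inter T i k hk g h1 h2)
      (TREE_inter T i (p i) w1 (E i) w2 w3)
  have hjp : j ≠ p r := by
    rintro rfl
    exact q4 heq
  have hTp : T (p r) ≠ ∅ := TREE_ne _ _ q3
  rcases lt_or_gt_of_ne hjp with hlt | hgt
  · -- j < p
    have h1p : 1 ≤ p r := by omega
    have : E r = E (p r) := star (p r) j h1p q1 hTp hlt _ q3 (heq ▸ q2)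
    exact q5 h1p this
  · -- p < j
    have hj1 : 1 ≤ j := by omega
    have hTj : T j ≠ ∅ := heq ▸ hTr
    have e1 : E r = E j := star j (p r) hj1 hj hTj hgt _ (heq ▸ q2) q3
    obtain ⟨w1, w2, w3, w4, w5, w6⟩ := hT j hj1 (by omega) hTj
    rcases lt_trichotomy (p j) (p r) with h | h | h
    · have h1p : 1 ≤ p r := by omega
      have : E r = E (p r) := star (p r) (p j) h1p q1 hTp h _ q3 (e1 ▸ w3)
      exact q5 h1p this
    · exact q6 j hj1 hj hTj h e1.symm
    · have h1 : 1 ≤ p j := by omega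
      have hTpj : T (p j) ≠ ∅ := TREE_ne _ _ w3
      have : E j = E (p j) := star (p j) (p r) h1 (by omega) hTpj h _ w3 (e1 ▸ q3)
      exact w5 h1 this

end Pool.Agent.Work.MP_2a0c1d_co
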