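import Mathlib

/-!
# Lower order improvement of the diagonal Ramsey lower bound: definitions
-/

set_option autoImplicit false

namespace Pool.Agent.Work.MP_2a0c1d_co

open Finset

/-- Label of a pair: its colour and its mark. -/
abbrev X := Bool × Bool

/-- The proper pairs inside `S`. -/
def ed {n : ℕ} (S : Finset (Fin n)) : Finset (Sym2 (Fin n)) := S.sym2.filter fun e => ¬ e.IsDiag

/-- Outcomes: a label for every pair (the diagonal pairs are never used). -/
abbrev Om (n : ℕ) := Sym2 (Fin n) → X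

/-- Boxes: for every pair a set of allowed labels. -/
abbrev Bx (n : ℕ) := Sym2 (Fin n) → Finset X

/-- Weight of a label: fair colour, marked with probability `ρ`. -/
noncomputable def wt (ρ : ℝ) (x : X) : ℝ := (1 / 2) * (if x.2 = true then ρ else 1 - ρ)

/-- Weight of a set of labels. -/
noncomputable def wS (ρ : ℝ) (A : Finset X) : ℝ := ∑ x ∈ A, wt ρ x

/-- Probability of a box. -/
noncomputable def prB {n : ℕ} (ρ : ℝ) (B : Bx n) : ℝ := ∏ e, wS ρ (B e)

/-- The outcome `ω` lies in the box `B`. -/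
def Holds {n : ℕ} (ω : Om n) (B : Bx n) : Prop := ∀ e, ω e ∈ B e

/-- Support of a box: the pairs it restricts. -/
def supp {n : ℕ} (B : Bx n) : Finset (Sym2 (Fin n)) := univ.filter fun e => B e ≠ univ

/-- Colour. -/
def col {n : ℕ} (ω : Om n) (e : Sym2 (Fin n)) : Bool := (ω e).1

/-- Mark. -/
def mk {n : ℕ} (ω : Om n) (e : Sym2 (Fin n)) : Bool := (ω e).2

/-- `S` is a `t`-set all of whose pairs have colour `a` under `f`. -/
def Mono {n : ℕ} (t : ℕ) (f : Sym2 (Fin n) → Bool) (S : Finset (Fin n)) (a : Bool) : Prop :=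
  S.card = t ∧ ∀ e ∈ ed S, f e = a

/-- `e` lies in a monochromatic `t`-set (of its own colour). -/
def Hot {n : ℕ} (t : ℕ) (ω : Om n) (e : Sym2 (Fin n)) : Prop :=
  ∃ Q, e ∈ ed Q ∧ Mono t (col ω) Q (col ω e)

/-- `S` threatens `e`: every other pair of `S` has the other colour, or the same colour and is
marked and hot. -/
def Threat {n : ℕ} (t : ℕ) (ω : Om n) (e : Sym2 (Fin n)) (S : Finset (Fin n)) : Prop :=
  S.card = t ∧ e ∈ ed S ∧ ∀ f ∈ ed S, f ≠ e →
    col ω f ≠ col ω e ∨ (col ω f = col ω e ∧ mk ω f = true ∧ Hot t ω f)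

/-- `e` is threatened by some set. -/
def Bad {n : ℕ} (t : ℕ) (ω : Om n) (e : Sym2 (Fin n)) : Prop := ∃ S, Threat t ω e S

/-- `e` is flipped: marked, hot and not bad. -/
def Flip {n : ℕ} (t : ℕ) (ω : Om n) (e : Sym2 (Fin n)) : Prop :=
  mk ω e = true ∧ Hot t ω e ∧ ¬ Bad t ω e

open Classical in
/-- The colouring after the flips. -/
noncomputable def cst {n : ℕ} (t : ℕ) (ω : Om n) (e : Sym2 (Fin n)) : Bool :=
  if Flip t ω e then !(col ω e) else col ω e

/-- All pairs of `T` have colour `a` or are marked. -/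
def Near {n : ℕ} (ω : Om n) (T : Finset (Fin n)) (a : Bool) : Prop :=
  ∀ e ∈ ed T, col ω e = a ∨ mk ω e = true

/-- Union of `T 0, ..., T (k-1)`. -/
def Un {n : ℕ} (T : ℕ → Finset (Fin n)) (k : ℕ) : Finset (Fin n) := (range k).biUnion T

/-- The box saying that `T i` is near with colour `a i` for all `i < k`. -/
def nearB {n : ℕ} (k : ℕ) (T : ℕ → Finset (Fin n)) (a : ℕ → Bool) : Bx n :=
  fun e => univ.filter fun x => ∀ i ∈ range k, e ∈ ed (T i) → x.1 = a i ∨ x.2 = true

open Classical in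
/-- Family 1: `S` has colour `a`, its marked pairs are exactly `J`, and `J` has fewer than `h`
elements. -/
noncomputable def B1 (n t h : ℕ) : Finset (Bx n) := univ.filter fun B =>
  ∃ (S : Finset (Fin n)) (a : Bool) (J : Finset (Sym2 (Fin n))), S.card = t ∧ J ⊆ ed S ∧
    J.card < h ∧ B = fun e => if e ∈ J then {(a, true)} else if e ∈ ed S then {(a, false)} else univ

open Classical in
/-- Family 2: all pairs of `S` are marked. -/
noncomputable def B2 (n t : ℕ) : Finset (Bx n) := univ.filter fun B =>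
  ∃ (S : Finset (Fin n)), S.card = t ∧
    B = fun e => if e ∈ ed S then univ.filter (fun x : X => x.2 = true) else univ

open Classical in
/-- Family 3: two near sets with at least three and fewer than `t` common points. -/
noncomputable def B3 (n t : ℕ) : Finset (Bx n) := univ.filter fun B =>
  ∃ (T : ℕ → Finset (Fin n)) (a : ℕ → Bool), (T 0).card = t ∧ (T 1).card = t ∧
    3 ≤ (T 0 ∩ T 1).card ∧ (T 0 ∩ T 1).card < t ∧ B = nearB 2 T a

/-- `T 0, ..., T (k-1)`: `T 0` is a `t`-set, and the others are empty or `t`-sets which meet the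
union of the earlier sets in exactly two points. -/
def CleanSeq {n : ℕ} (t k : ℕ) (T : ℕ → Finset (Fin n)) : Prop :=
  (T 0).card = t ∧ ∀ i, 1 ≤ i → i < k → T i = ∅ ∨ ((T i).card = t ∧ (T i ∩ Un T i).card = 2)

open Classical in
/-- Family 4: near sets `T 0, ..., T R`, the first `R` clean, the last one meets the union of the
others in at least three points but each single one in at most two. -/
noncomputable def B4 (n t R : ℕ) : Finset (Bx n) := univ.filter fun B =>
  ∃ (T : ℕ → Finset (Fin n)) (a : ℕ → Bool), CleanSeq t R T ∧ (T R).card = t ∧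
    3 ≤ (T R ∩ Un T R).card ∧ (∀ j < R, (T R ∩ T j).card ≤ 2) ∧ B = nearB (R + 1) T a

/-- A witness slot: empty, or a pair `f` with a set `Q`. -/
abbrev Wit (n : ℕ) := Option (Sym2 (Fin n) × Finset (Fin n))

/-- Threat data: the threatened pair, the threatening set and `d` witness slots. -/
abbrev Thr (n d : ℕ) := Sym2 (Fin n) × Finset (Fin n) × (Fin d → Wit n)

/-- Valid threat data for the root set `S`. -/
def OkT {n d : ℕ} (t : ℕ) (S : Finset (Fin n)) (x : Thr n d) : Prop :=
  x.1 ∈ ed S ∧ x.1 ∈ ed x.2.1 ∧ x.2.1.card = t ∧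
  (∀ l f Q, x.2.2 l = some (f, Q) → f ∈ ed x.2.1 ∧ f ≠ x.1 ∧ Q.card = t ∧ f ∈ ed Q) ∧
  (∀ l l' f Q Q', x.2.2 l = some (f, Q) → x.2.2 l' = some (f, Q') → l = l')

/-- The edge blocks of a tree: `none` is the root, `(i, none)` the `i`-th threat without its
threatened pair, `(i, l)` the `l`-th witness of the `i`-th threat without its pair. -/
def blk {n h d : ℕ} (S : Finset (Fin n)) (x : Fin h → Thr n d) :
    Option (Fin h × Option (Fin d)) → Finset (Sym2 (Fin n))
  | none => ed S
  | some (i, none) => (ed (x i).2.1).erase (x i).1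
  | some (i, some l) =>
    match (x i).2.2 l with
    | none => ∅
    | some (f, Q) => (ed Q).erase f

/-- Valid tree data. -/
def OkD {n h d : ℕ} (t : ℕ) (S : Finset (Fin n)) (x : Fin h → Thr n d) : Prop :=
  S.card = t ∧ (∀ i, OkT t S (x i)) ∧ Function.Injective (fun i => (x i).1) ∧
  (∀ u v, u ≠ v → Disjoint (blk S x u) (blk S x v))

/-- The label `y` is allowed at `e` by the tree `(a, S, x)`. -/
def Ok5 {n h d : ℕ} (a : Bool) (S : Finset (Fin n)) (x : Fin h → Thr n d) (e : Sym2 (Fin n))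
    (y : X) : Prop :=
  (e ∈ ed S → y.1 = a) ∧
  (∀ i, e = (x i).1 → y = (a, true)) ∧
  (∀ i l f Q, (x i).2.2 l = some (f, Q) → (e = f → y = (a, true)) ∧ (e ∈ ed Q → y.1 = a)) ∧
  (∀ i, e ∈ ed (x i).2.1 → e ≠ (x i).1 → (∀ l f Q, (x i).2.2 l = some (f, Q) → e ≠ f) →
    y.1 = !a ∨ ((∀ l, (x i).2.2 l ≠ none) ∧ y.2 = true))

open Classical in
/-- The box of a tree. -/
noncomputable def box5 {n h d : ℕ} (a : Bool) (S : Finset (Fin n)) (x : Fin h → Thr n d) : Bx n :=
  fun e => univ.filter fun y => Ok5 a S x e y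

open Classical in
/-- Family 5: complete trees. -/
noncomputable def B5 (n t h d : ℕ) : Finset (Bx n) := univ.filter fun B =>
  ∃ (a : Bool) (S : Finset (Fin n)) (x : Fin h → Thr n d), OkD t S x ∧ B = box5 a S x

open Classical in
/-- All bad boxes, with `R = h + h d`. -/
noncomputable def BB (n t h d : ℕ) : Finset (Bx n) :=
  B1 n t h ∪ B2 n t ∪ B3 n t ∪ B4 n t (h + h * d) ∪ B5 n t h d

/-- Number of pairs of a `t`-set. -/
def mm (t : ℕ) : ℕ := t.choose 2

/-- Marking probability `3 log t / C(t,2)`. -/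
noncomputable def rho (t : ℕ) : ℝ := 3 * Real.log t / (mm t)

/-- `2^(1-m)`, the probability that a `t`-set is monochromatic. -/
noncomputable def pm (t : ℕ) : ℝ := 2 * (1 / 2) ^ (mm t)

/-- Expected number of monochromatic `t`-sets through a pair. -/
noncomputable def W (n t : ℕ) : ℝ := ((n - 2).choose (t - 2) : ℝ) * pm t

/-- The range of `n` considered. -/
def InR (ε : ℝ) (t n : ℕ) : Prop :=
  Real.sqrt 2 ^ t ≤ (n : ℝ) ∧
  (n : ℝ) < (1 + (1 / 2 - ε) * Real.log t / t) * (Real.sqrt 2 * t / Real.exp 1) * Real.sqrt 2 ^ t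

end Pool.Agent.Work.MP_2a0c1d_co
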