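import Pool.Agent.Work.MP_2a0c1d_co.Stmts

/-!
# Item CLEAN
-/

set_option autoImplicit false

namespace Pool.Agent.Work.MP_2a0c1d_co

open Finset

theorem CLEAN_ed_empty {n : ℕ} (e : Sym2 (Fin n)) : e ∉ ed (∅ : Finset (Fin n)) := by
  simp [ed]

theorem CLEAN_two {n : ℕ} (A B : Finset (Fin n)) (e : Sym2 (Fin n)) (hA : e ∈ ed A)
    (hB : e ∈ ed B) : 2 ≤ (A ∩ B).card := by
  induction e using Sym2.ind with
  | _ u v =>
    simp only [ed, mem_filter, mk_mem_sym2_iff, Sym2.mk_isDiag_iff] at hA hB
    have h1 : ({u, v} : Finset (Fin n)) ⊆ A ∩ B := by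
      intro w hw
      simp only [mem_insert, mem_singleton] at hw
      rcases hw with rfl | rfl
      · exact mem_inter.2 ⟨hA.1.1, hB.1.1⟩
      · exact mem_inter.2 ⟨hA.1.2, hB.1.2⟩
    have h2 := card_le_card h1
    rw [card_pair hA.2] at h2
    exact h2

theorem CLEAN_holds {n : ℕ} (ω : Om n) (k : ℕ) (T : ℕ → Finset (Fin n)) (a : ℕ → Bool)
    (h : ∀ i < k, Near ω (T i) (a i)) : Holds ω (nearB k T a) := by
  intro e
  simp only [nearB, mem_filter, mem_univ, true_and, mem_range]
  intro i hi he
  exact h i hi e he

theorem pr_CLEAN : TREE → CLEAN := by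
  intro hTREE n t R ω h3 h4 T a p E hT0 hcard hnear hdata i
  induction i using Nat.strong_induction_on with
  | _ i ih =>
  intro hi1 hiR hne
  have hIH : ∀ k, 1 ≤ k → k < i → T k ≠ ∅ → (T k ∩ Un T k).card = 2 :=
    fun k hk1 hki hk => ih k hki hk1 (by omega) hk
  obtain ⟨hp, hEi, hEp, hTp, -, -⟩ := hdata i hi1 hiR hne
  have hdiff := hTREE n R T p E hdata i hi1 hiR hne hIH
  have hci : (T i).card = t := (hcard i hiR).resolve_left hne
  have hge : 2 ≤ (T i ∩ Un T i).card := by
    refine le_trans (CLEAN_two _ _ _ hEi hEp) (card_le_card ?_)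
    apply inter_subset_inter_left
    exact subset_biUnion_of_mem T (mem_range.2 hp)
  by_contra hne2
  have hge3 : 3 ≤ (T i ∩ Un T i).card := by omega
  by_cases hcase : ∃ j < i, 3 ≤ (T i ∩ T j).card
  · obtain ⟨j, hj, hj3⟩ := hcase
    have hTj : T j ≠ ∅ := by
      intro h
      rw [h, inter_empty, card_empty] at hj3
      omega
    have hcj : (T j).card = t := (hcard j (by omega)).resolve_left hTj
    have hlt : (T i ∩ T j).card < t := by
      by_contra hcon
      push Not at hcon
      have e1 : T i ∩ T j = T i := eq_of_subset_of_card_le inter_subset_left (by rw [hci]; exact hcon)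
      have e2 : T i ∩ T j = T j := eq_of_subset_of_card_le inter_subset_right (by rw [hcj]; exact hcon)
      exact hdiff j hj (e1.symm.trans e2)
    refine h3 (nearB 2 (fun k => if k = 0 then T j else T i) (fun k => if k = 0 then a j else a i))
      ?_ ?_
    · simp only [B3, mem_filter, mem_univ, true_and]
      refine ⟨_, _, ?_, ?_, ?_, ?_, rfl⟩
      · simpa using hcj
      · simpa using hci
      · simp only [if_true, one_ne_zero, if_false]
        rw [inter_comm]
        exact hj3
      · simp only [if_true, one_ne_zero, if_false]
        rw [inter_comm]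
        exact hlt
    · apply CLEAN_holds
      intro k _
      by_cases hk0 : k = 0
      · simp only [hk0, if_true]
        exact hnear j (by omega)
      · simp only [hk0, if_false]
        exact hnear i hiR
  · push Not at hcase
    set T' : ℕ → Finset (Fin n) := fun k => if k < i then T k else if k = R then T i else ∅
      with hT'
    have hT'lt : ∀ k, k < i → T' k = T k := fun k hk => by simp [hT', hk]
    have hT'R : T' R = T i := by
      have : ¬ R < i := by omega
      simp [hT', this]
    have hT'mid : ∀ k, ¬ k < i → k ≠ R → T' k = ∅ := fun k hk hkR => by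
      simp [hT', hk, hkR]
    have hUn : ∀ k, k ≤ i → Un T' k = Un T k := by
      intro k hk
      unfold Un
      apply biUnion_congr rfl
      intro l hl
      have := mem_range.1 hl
      exact hT'lt l (by omega)
    have hUnR : Un T i ⊆ Un T' R := by
      rw [← hUn i le_rfl]
      unfold Un
      apply biUnion_subset_biUnion_of_subset_left
      exact range_subset_range.2 hiR
    refine h4 (nearB (R + 1) T' (fun k => if k < i then a k else a i)) ?_ ?_
    · simp only [B4, mem_filter, mem_univ, true_and]
      refine ⟨T', _, ⟨?_, ?_⟩, ?_, ?_, ?_, rfl⟩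
      · rw [hT'lt 0 (by omega)]
        exact hT0
      · intro k hk1 hkR
        by_cases hki : k < i
        · rw [hT'lt k hki, hUn k hki.le]
          by_cases hk : T k = ∅
          · exact Or.inl hk
          · exact Or.inr ⟨(hcard k (by omega)).resolve_left hk, hIH k hk1 hki hk⟩
        · exact Or.inl (hT'mid k hki (by omega))
      · rw [hT'R]
        exact hci
      · rw [hT'R]
        exact le_trans hge3 (card_le_card (inter_subset_inter_left hUnR))
      · intro j hj
        rw [hT'R]
        by_cases hji : j < i
        · rw [hT'lt j hji]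
          have := hcase j hji
          omega
        · rw [hT'mid j hji (by omega), inter_empty, card_empty]
          omega
    · apply CLEAN_holds
      intro k hk
      by_cases hki : k < i
      · rw [hT'lt k hki]
        simp only [hki, if_true]
        exact hnear k (by omega)
      · simp only [hki, if_false]
        by_cases hkR : k = R
        · rw [hkR, hT'R]
          exact hnear i hiR
        · rw [hT'mid k hki hkR]
          intro e he
          exact absurd he (CLEAN_ed_empty e)

end Pool.Agent.Work.MP_2a0c1d_co
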