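import Pool.Agent.Work.MP_2a0c1d_co.Stmts

/-!
# Item NE3
-/

set_option autoImplicit false

namespace Pool.Agent.Work.MP_2a0c1d_co

open Finset

private theorem ne3_s_pos : (0:ℝ) < Real.sqrt 2 := Real.sqrt_pos.mpr (by norm_num)

private theorem ne3_s_sq : Real.sqrt 2 ^ 2 = 2 := Real.sq_sqrt (by norm_num)

private theorem ne3_u_pos : (0:ℝ) < (Real.sqrt 2)⁻¹ := inv_pos.mpr ne3_s_pos

private theorem ne3_su : Real.sqrt 2 * (Real.sqrt 2)⁻¹ = 1 := mul_inv_cancel₀ ne3_s_pos.ne'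

private theorem ne3_u_sq : (Real.sqrt 2)⁻¹ ^ 2 = 1 / 2 := by
  rw [inv_pow, ne3_s_sq]; norm_num

private theorem ne3_s_gt : (1:ℝ) < Real.sqrt 2 := by
  rw [show (1:ℝ) = Real.sqrt 1 by simp]
  exact Real.sqrt_lt_sqrt (by norm_num) (by norm_num)

private theorem ne3_u_lt : (Real.sqrt 2)⁻¹ < 1 := inv_lt_one_of_one_lt₀ ne3_s_gt

private theorem ne3_choose (n t : ℕ) (hn : t ≤ n) (b : ℕ) (h2 : 2 ≤ b) : b ≤ t →
    ((n - b).choose (t - b) : ℝ) * (n:ℝ) ^ (b - 2) ≤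
      ((n - 2).choose (t - 2) : ℝ) * (t:ℝ) ^ (b - 2) := by
  induction b, h2 using Nat.le_induction with
  | base => intro _; simp
  | succ b hb ih =>
    intro hbt
    have ih' := ih (by omega)
    have hN : (n - b) * (n - (b + 1)).choose (t - (b + 1)) = (n - b).choose (t - b) * (t - b) := by
      have h1 : n - b = (n - (b + 1)) + 1 := by omega
      have h2 : t - b = (t - (b + 1)) + 1 := by omega
      rw [h1, h2]
      exact Nat.add_one_mul_choose_eq _ _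
    have hR : ((n:ℝ) - b) * ((n - (b + 1)).choose (t - (b + 1)) : ℝ)
        = ((n - b).choose (t - b) : ℝ) * ((t:ℝ) - b) := by
      have := congrArg (fun x : ℕ => (x:ℝ)) hN
      simp only [Nat.cast_mul] at this
      rw [Nat.cast_sub (by omega), Nat.cast_sub (by omega)] at this
      exact this
    have hbn : (b:ℝ) < n := by exact_mod_cast (by omega : b < n)
    have htn : (t:ℝ) ≤ n := by exact_mod_cast hn
    have hb0 : (0:ℝ) ≤ b := Nat.cast_nonneg _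
    have hpos : (0:ℝ) < (n:ℝ) - b := by linarith
    have hexp : b + 1 - 2 = (b - 2) + 1 := by omega
    rw [hexp]
    set c1 : ℝ := ((n - (b + 1)).choose (t - (b + 1)) : ℝ) with hc1
    set c0 : ℝ := ((n - b).choose (t - b) : ℝ) with hc0
    set c2 : ℝ := ((n - 2).choose (t - 2) : ℝ) with hc2
    have hc0' : 0 ≤ c0 := Nat.cast_nonneg _
    have hpn : (0:ℝ) ≤ (n:ℝ) ^ (b - 2) := by positivity
    have h3 : ((n:ℝ) - b) * (c1 * (n:ℝ) ^ ((b - 2) + 1)) ≤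
        ((n:ℝ) - b) * (c2 * (t:ℝ) ^ ((b - 2) + 1)) := by
      have h4 : (n:ℝ) * ((t:ℝ) - b) ≤ (t:ℝ) * ((n:ℝ) - b) := by nlinarith
      calc ((n:ℝ) - b) * (c1 * (n:ℝ) ^ ((b - 2) + 1))
          = (((n:ℝ) - b) * c1) * (n:ℝ) ^ (b - 2) * n := by rw [pow_succ]; ring
        _ = c0 * (n:ℝ) ^ (b - 2) * ((n:ℝ) * ((t:ℝ) - b)) := by rw [hR]; ring
        _ ≤ c0 * (n:ℝ) ^ (b - 2) * ((t:ℝ) * ((n:ℝ) - b)) :=
            mul_le_mul_of_nonneg_left h4 (mul_nonneg hc0' hpn)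
        _ ≤ (c2 * (t:ℝ) ^ (b - 2)) * ((t:ℝ) * ((n:ℝ) - b)) :=
            mul_le_mul_of_nonneg_right ih' (mul_nonneg (Nat.cast_nonneg _) hpos.le)
        _ = ((n:ℝ) - b) * (c2 * (t:ℝ) ^ ((b - 2) + 1)) := by rw [pow_succ]; ring
    exact le_of_mul_le_mul_left h3 hpos

private theorem ne3_two_choose (b : ℕ) : 2 * b.choose 2 = b * (b - 1) := by
  rw [Nat.choose_two_right]
  exact Nat.mul_div_cancel' (Nat.even_mul_pred_self b).two_dvd

private theorem ne3_half_pow (k : ℕ) : ((1:ℝ) / 2) ^ k = (Real.sqrt 2)⁻¹ ^ (2 * k) := by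
  rw [pow_mul, ne3_u_sq]

private theorem ne3_pw (x w : ℝ) (k : ℕ) (hx : 0 ≤ x) (hxw : x ≤ w) (hw : w ≤ 1) (hk : k ≠ 0) :
    x ^ k ≤ w := by
  have h1 : x ^ k ≤ w ^ k := pow_le_pow_left₀ hx hxw k
  exact h1.trans (pow_le_of_le_one (hx.trans hxw) hw hk)

/-- small intersections -/
private theorem ne3_case1 (n t b : ℕ) (ht : 1 ≤ t) (hn : t ≤ n)
    (hx : Real.sqrt 2 ^ t ≤ (n:ℝ)) (hW : W n t ≤ 1)
    (hw : (t:ℝ) ^ 4 * (Real.sqrt 2)⁻¹ ^ (t / 2 - 1) ≤ 1) (hb3 : 3 ≤ b) (hbt : b ≤ t / 2) :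
    (t.choose b : ℝ) * ((n - t).choose (t - b) : ℝ) * (1 / 2) ^ (mm t - b.choose 2) ≤
      (t:ℝ) ^ 4 * (Real.sqrt 2)⁻¹ ^ (t / 2 - 1) := by
  set s := Real.sqrt 2 with hs
  set u := s⁻¹ with hu
  have hs0 : 0 < s := ne3_s_pos
  have hu0 : 0 < u := ne3_u_pos
  have hu1 : u ≤ 1 := ne3_u_lt.le
  have hsu : s * u = 1 := ne3_su
  have hs2 : s ^ 2 = 2 := ne3_s_sq
  have hbt' : b ≤ t := hbt.trans (Nat.div_le_self _ _)
  have ht1 : (1:ℝ) ≤ t := by exact_mod_cast ht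
  obtain ⟨k, rfl⟩ : ∃ k, b = k + 2 := ⟨b - 2, by omega⟩
  have hk : 1 ≤ k := by omega
  have h1 : (t.choose (k + 2) : ℝ) ≤ (t:ℝ) ^ (k + 2) := by
    exact_mod_cast Nat.choose_le_pow t (k + 2)
  have h2 : ((n - t).choose (t - (k + 2)) : ℝ) ≤ ((n - (k + 2)).choose (t - (k + 2)) : ℝ) := by
    exact_mod_cast Nat.choose_le_choose _ (by omega)
  have h3 := ne3_choose n t hn (k + 2) (by omega) hbt'
  have hk2 : k + 2 - 2 = k := by omega
  rw [hk2] at h3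
  set c2 : ℝ := ((n - 2).choose (t - 2) : ℝ) with hc2
  have hc2' : 0 ≤ c2 := Nat.cast_nonneg _
  set cb : ℝ := ((n - (k + 2)).choose (t - (k + 2)) : ℝ) with hcb
  have hcb' : 0 ≤ cb := Nat.cast_nonneg _
  have h4 : cb ≤ c2 * (t:ℝ) ^ k * (u ^ t) ^ k := by
    have h5 : cb * (s ^ t) ^ k ≤ c2 * (t:ℝ) ^ k :=
      (mul_le_mul_of_nonneg_left (pow_le_pow_left₀ (by positivity) hx k) hcb').trans h3
    have h6 : (s ^ t) ^ k * (u ^ t) ^ k = 1 := by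
      rw [← mul_pow, ← mul_pow, hsu, one_pow, one_pow]
    calc cb = cb * ((s ^ t) ^ k * (u ^ t) ^ k) := by rw [h6, mul_one]
      _ = cb * (s ^ t) ^ k * (u ^ t) ^ k := by ring
      _ ≤ c2 * (t:ℝ) ^ k * (u ^ t) ^ k := mul_le_mul_of_nonneg_right h5 (by positivity)
  have h7 : c2 * (1 / 2 : ℝ) ^ mm t ≤ 1 / 2 := by
    unfold W pm at hW
    rw [← hc2] at hW
    nlinarith [hW]
  have hCm : (k + 2).choose 2 ≤ mm t := Nat.choose_le_choose 2 hbt'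
  have h8 : ((1:ℝ) / 2) ^ (mm t - (k + 2).choose 2) = (1 / 2) ^ mm t * 2 ^ ((k + 2).choose 2) := by
    have : ((1:ℝ) / 2) ^ mm t = (1 / 2) ^ (mm t - (k + 2).choose 2) * (1 / 2) ^ ((k + 2).choose 2) := by
      rw [← pow_add, Nat.sub_add_cancel hCm]
    rw [this, mul_assoc, ← mul_pow]
    norm_num
  have h9 : (u ^ t) ^ k * 2 ^ ((k + 2).choose 2) ≤ 2 * (u ^ (t / 2 - 1)) ^ k := by
    have h10 : (2:ℝ) ^ ((k + 2).choose 2) = 2 * (s ^ (k + 3)) ^ k := by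
      have : (2:ℝ) ^ ((k + 2).choose 2) = s ^ (2 * (k + 2).choose 2) := by rw [pow_mul, hs2]
      rw [this, ne3_two_choose, show (k + 2) * (k + 2 - 1) = 2 + (k + 3) * k by
        rw [show k + 2 - 1 = k + 1 by omega]; ring, pow_add, hs2, pow_mul]
    have h11 : u ^ t = u ^ (t - k - 3) * u ^ (k + 3) := by
      rw [← pow_add]; congr 1; omega
    have h12 : (u ^ t) ^ k * 2 ^ ((k + 2).choose 2) = 2 * (u ^ (t - k - 3)) ^ k := by
      rw [h10, h11]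
      have h13 : u ^ (k + 3) * s ^ (k + 3) = 1 := by rw [← mul_pow, mul_comm u s, hsu, one_pow]
      calc (u ^ (t - k - 3) * u ^ (k + 3)) ^ k * (2 * (s ^ (k + 3)) ^ k)
          = 2 * (u ^ (t - k - 3)) ^ k * (u ^ (k + 3) * s ^ (k + 3)) ^ k := by
            rw [mul_pow, mul_pow]; ring
        _ = 2 * (u ^ (t - k - 3)) ^ k := by rw [h13, one_pow, mul_one]
    rw [h12]
    refine mul_le_mul_of_nonneg_left (pow_le_pow_left₀ (by positivity) ?_ k) (by norm_num)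
    exact pow_le_pow_of_le_one hu0.le hu1 (by omega)
  have h14 : (t:ℝ) ^ (k + 2) * (t:ℝ) ^ k ≤ ((t:ℝ) ^ 4) ^ k := by
    rw [← pow_add, ← pow_mul]
    exact pow_le_pow_right₀ ht1 (by omega)
  have hA : (t.choose (k + 2) : ℝ) * ((n - t).choose (t - (k + 2)) : ℝ) ≤
      (t:ℝ) ^ (k + 2) * (c2 * (t:ℝ) ^ k * (u ^ t) ^ k) :=
    mul_le_mul h1 (h2.trans h4) (Nat.cast_nonneg _) (by positivity)
  calc (t.choose (k + 2) : ℝ) * ((n - t).choose (t - (k + 2)) : ℝ) *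
        (1 / 2) ^ (mm t - (k + 2).choose 2)
      ≤ (t:ℝ) ^ (k + 2) * (c2 * (t:ℝ) ^ k * (u ^ t) ^ k) *
        ((1 / 2) ^ mm t * 2 ^ ((k + 2).choose 2)) := by
          rw [h8]
          exact mul_le_mul_of_nonneg_right hA (by positivity)
    _ = (c2 * (1 / 2) ^ mm t) * ((t:ℝ) ^ (k + 2) * (t:ℝ) ^ k) *
        ((u ^ t) ^ k * 2 ^ ((k + 2).choose 2)) := by ring
    _ ≤ (1 / 2) * ((t:ℝ) ^ 4) ^ k * (2 * (u ^ (t / 2 - 1)) ^ k) := by
        refine mul_le_mul (mul_le_mul h7 h14 (by positivity) (by norm_num)) h9 (by positivity)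
          (by positivity)
    _ = ((t:ℝ) ^ 4 * u ^ (t / 2 - 1)) ^ k := by rw [mul_pow]; ring
    _ ≤ (t:ℝ) ^ 4 * u ^ (t / 2 - 1) := ne3_pw _ _ k (by positivity) le_rfl hw (by omega)

/-- large intersections -/
private theorem ne3_case2 (n t b : ℕ) (ht : 1 ≤ t)
    (hx : (n:ℝ) ≤ t * Real.sqrt 2 ^ t)
    (hw : (t:ℝ) ^ 4 * (Real.sqrt 2)⁻¹ ^ (t / 2 - 1) ≤ 1) (hb1 : 1 ≤ b) (hb : t / 2 < b)
    (hbt : b < t) :
    (t.choose b : ℝ) * ((n - t).choose (t - b) : ℝ) * (1 / 2) ^ (mm t - b.choose 2) ≤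
      (t:ℝ) ^ 4 * (Real.sqrt 2)⁻¹ ^ (t / 2 - 1) := by
  set s := Real.sqrt 2 with hs
  set u := s⁻¹ with hu
  have hs0 : 0 < s := ne3_s_pos
  have hu0 : 0 < u := ne3_u_pos
  have hu1 : u ≤ 1 := ne3_u_lt.le
  have hsu : s * u = 1 := ne3_su
  have ht1 : (1:ℝ) ≤ t := by exact_mod_cast ht
  obtain ⟨c, rfl⟩ : ∃ c, b = c + 1 := ⟨b - 1, by omega⟩
  obtain ⟨k, hk⟩ : ∃ k, t = c + 1 + k := ⟨t - (c + 1), by omega⟩
  have hk1 : 1 ≤ k := by omega
  have htk : t - (c + 1) = k := by omega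
  have h1 : (t.choose (c + 1) : ℝ) ≤ (t:ℝ) ^ k := by
    rw [← Nat.choose_symm (by omega : c + 1 ≤ t), htk]
    exact_mod_cast Nat.choose_le_pow t k
  have h2 : ((n - t).choose (t - (c + 1)) : ℝ) ≤ (t * s ^ t) ^ k := by
    rw [htk]
    have h3 : ((n - t).choose k : ℝ) ≤ ((n - t : ℕ) : ℝ) ^ k := by
      exact_mod_cast Nat.choose_le_pow (n - t) k
    refine h3.trans (pow_le_pow_left₀ (Nat.cast_nonneg _) (le_trans ?_ hx) k)
    exact_mod_cast Nat.sub_le n t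
  have hexp : 2 * (mm t - (c + 1).choose 2) = (t + c) * k := by
    have e1 := ne3_two_choose t
    have e2 := ne3_two_choose (c + 1)
    unfold mm
    rw [Nat.mul_sub, e1, e2]
    rw [hk]
    rw [show c + 1 + k - 1 = c + k by omega, show c + 1 - 1 = c by omega]
    have : (c + 1 + k) * (c + k) = (c + 1) * c + (c + 1 + k + c) * k := by ring
    rw [this, Nat.add_sub_cancel_left]
  have h4 : ((1:ℝ) / 2) ^ (mm t - (c + 1).choose 2) = (u ^ (t + c)) ^ k := by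
    rw [ne3_half_pow, hexp, pow_mul]
  have h5 : u ^ c ≤ u ^ (t / 2 - 1) := pow_le_pow_of_le_one hu0.le hu1 (by omega)
  calc (t.choose (c + 1) : ℝ) * ((n - t).choose (t - (c + 1)) : ℝ) *
        (1 / 2) ^ (mm t - (c + 1).choose 2)
      ≤ (t:ℝ) ^ k * (t * s ^ t) ^ k * (u ^ (t + c)) ^ k := by
        rw [h4]
        exact mul_le_mul_of_nonneg_right (mul_le_mul h1 h2 (Nat.cast_nonneg _) (by positivity))
          (by positivity)
    _ = ((t:ℝ) ^ 2 * u ^ c) ^ k := by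
        rw [← mul_pow, ← mul_pow]
        congr 1
        rw [pow_add]
        have : s ^ t * u ^ t = 1 := by rw [← mul_pow, hsu, one_pow]
        calc (t:ℝ) * (t * s ^ t) * (u ^ t * u ^ c) = (t:ℝ) ^ 2 * u ^ c * (s ^ t * u ^ t) := by ring
          _ = _ := by rw [this, mul_one]
    _ ≤ (t:ℝ) ^ 4 * u ^ (t / 2 - 1) := by
        refine ne3_pw _ _ k (by positivity) ?_ hw (by omega)
        exact mul_le_mul (pow_le_pow_right₀ ht1 (by norm_num)) h5 (by positivity) (by positivity)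

private theorem ne3_ev (R : ℕ) : ∃ T : ℕ, ∀ t : ℕ, T ≤ t →
    40 * ((R:ℝ) + 1) ^ 2 * (t:ℝ) ^ 13 * (Real.sqrt 2)⁻¹ ^ (t / 2 - 1) ≤ 1 := by
  set u := (Real.sqrt 2)⁻¹ with hu
  have hu0 : 0 < u := ne3_u_pos
  have hlim : Filter.Tendsto (fun n : ℕ => (n:ℝ) ^ 13 * u ^ n) Filter.atTop (nhds 0) :=
    tendsto_pow_const_mul_const_pow_of_abs_lt_one 13 (by rw [abs_of_pos hu0]; exact ne3_u_lt)
  have hC : (0:ℝ) < 40 * ((R:ℝ) + 1) ^ 2 * 3 ^ 13 * Real.sqrt 2 := by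
    have := ne3_s_pos
    positivity
  have hev := hlim.eventually (gt_mem_nhds (b := 0)
    (show (0:ℝ) < 1 / (40 * ((R:ℝ) + 1) ^ 2 * 3 ^ 13 * Real.sqrt 2) from by positivity))
  obtain ⟨K, hK⟩ := Filter.eventually_atTop.mp hev
  refine ⟨2 * K + 4, fun t ht => ?_⟩
  obtain ⟨k, hk⟩ : ∃ k, k = t / 2 := ⟨_, rfl⟩
  have hkK : K ≤ k := by omega
  have hk1 : 1 ≤ k := by omega
  have h1 := hK k hkK
  have h2 : (t:ℝ) ≤ 3 * k := by exact_mod_cast (by omega : t ≤ 3 * k)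
  have h3 : u ^ (k - 1) = Real.sqrt 2 * u ^ k := by
    have : u ^ k = u ^ (k - 1) * u := by rw [← pow_succ]; congr 1; omega
    rw [this, ← mul_assoc, mul_comm (Real.sqrt 2) (u ^ (k - 1)), mul_assoc, ne3_su, mul_one]
  rw [← hk, h3]
  have h4 : (t:ℝ) ^ 13 ≤ 3 ^ 13 * (k:ℝ) ^ 13 := by
    rw [← mul_pow]
    exact pow_le_pow_left₀ (Nat.cast_nonneg _) h2 13
  calc 40 * ((R:ℝ) + 1) ^ 2 * (t:ℝ) ^ 13 * (Real.sqrt 2 * u ^ k)
      ≤ 40 * ((R:ℝ) + 1) ^ 2 * (3 ^ 13 * (k:ℝ) ^ 13) * (Real.sqrt 2 * u ^ k) := by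
        refine mul_le_mul_of_nonneg_right (mul_le_mul_of_nonneg_left h4 (by positivity)) ?_
        have := ne3_s_pos
        positivity
    _ = (40 * ((R:ℝ) + 1) ^ 2 * 3 ^ 13 * Real.sqrt 2) * ((k:ℝ) ^ 13 * u ^ k) := by ring
    _ ≤ (40 * ((R:ℝ) + 1) ^ 2 * 3 ^ 13 * Real.sqrt 2) *
        (1 / (40 * ((R:ℝ) + 1) ^ 2 * 3 ^ 13 * Real.sqrt 2)) :=
        mul_le_mul_of_nonneg_left h1.le hC.le
    _ = 1 := by rw [mul_one_div, div_self hC.ne']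

private theorem ne3_ev2 : ∃ T : ℕ, ∀ t : ℕ, T ≤ t → (t:ℝ) ≤ Real.sqrt 2 ^ t := by
  set u := (Real.sqrt 2)⁻¹ with hu
  have hu0 : 0 < u := ne3_u_pos
  have hlim : Filter.Tendsto (fun n : ℕ => (n:ℝ) ^ 1 * u ^ n) Filter.atTop (nhds 0) :=
    tendsto_pow_const_mul_const_pow_of_abs_lt_one 1 (by rw [abs_of_pos hu0]; exact ne3_u_lt)
  obtain ⟨K, hK⟩ := Filter.eventually_atTop.mp (hlim.eventually (gt_mem_nhds (zero_lt_one' ℝ)))
  refine ⟨K, fun t ht => ?_⟩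
  have h1 := hK t ht
  rw [pow_one] at h1
  have h2 : Real.sqrt 2 ^ t * u ^ t = 1 := by rw [← mul_pow, ne3_su, one_pow]
  have h3 : (0:ℝ) < u ^ t := by positivity
  have h4 : (t:ℝ) * u ^ t ≤ Real.sqrt 2 ^ t * u ^ t := by rw [h2]; exact h1.le
  exact le_of_mul_le_mul_right h4 h3

private theorem ne3_n_le (ε : ℝ) (hε : 0 < ε) (t n : ℕ) (ht : 1 ≤ t)
    (h : InR ε t n) : (n:ℝ) ≤ t * Real.sqrt 2 ^ t := by
  obtain ⟨_, h2⟩ := h
  have ht1 : (1:ℝ) ≤ t := by exact_mod_cast ht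
  have ht0 : (0:ℝ) < t := by linarith
  have hs := ne3_s_pos
  have hlog : Real.log t / t ≤ 1 := by
    rw [div_le_one ht0]
    linarith [Real.log_le_sub_one_of_pos ht0]
  have hlog0 : 0 ≤ Real.log t / t := div_nonneg (Real.log_nonneg ht1) ht0.le
  have h3 : 1 + (1 / 2 - ε) * Real.log t / t ≤ 3 / 2 := by
    rw [mul_div_assoc]
    nlinarith
  have hs15 : Real.sqrt 2 ≤ 3 / 2 := by
    rw [show (3:ℝ) / 2 = Real.sqrt ((3 / 2) ^ 2) by rw [Real.sqrt_sq (by norm_num)]]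
    exact Real.sqrt_le_sqrt (by norm_num)
  have he := Real.exp_one_gt_d9
  have h4 : Real.sqrt 2 * t / Real.exp 1 ≤ 2 / 3 * t := by
    rw [div_le_iff₀ (Real.exp_pos 1)]
    nlinarith [mul_le_mul_of_nonneg_right hs15 ht0.le,
      mul_le_mul_of_nonneg_right (show (9/4 : ℝ) ≤ Real.exp 1 by linarith) ht0.le]
  have h5 : 0 ≤ Real.sqrt 2 * t / Real.exp 1 := by positivity
  have h6 : (1 + (1 / 2 - ε) * Real.log t / t) * (Real.sqrt 2 * t / Real.exp 1) ≤ t := by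
    calc (1 + (1 / 2 - ε) * Real.log t / t) * (Real.sqrt 2 * t / Real.exp 1)
        ≤ 3 / 2 * (Real.sqrt 2 * t / Real.exp 1) := mul_le_mul_of_nonneg_right h3 h5
      _ ≤ 3 / 2 * (2 / 3 * t) := mul_le_mul_of_nonneg_left h4 (by norm_num)
      _ = t := by ring
  exact h2.le.trans (mul_le_mul_of_nonneg_right h6 (by positivity))

theorem pr_NE3 : NE3 := by
  intro ε R hε hε2
  obtain ⟨T1, hT1⟩ := ne3_ev R
  obtain ⟨T2, hT2⟩ := ne3_ev2
  refine ⟨max (max T1 T2) 10, fun t ht n hn hW => ?_⟩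
  have ht1 : T1 ≤ t := (le_max_left _ _).trans ((le_max_left _ _).trans ht)
  have ht2 : T2 ≤ t := (le_max_right _ _).trans ((le_max_left _ _).trans ht)
  have ht10 : 10 ≤ t := (le_max_right _ _).trans ht
  have hA := hT1 t ht1
  have hB := hT2 t ht2
  have htR : (1:ℝ) ≤ t := by exact_mod_cast (by omega : 1 ≤ t)
  have ht0 : (0:ℝ) < t := by linarith
  set w : ℝ := (Real.sqrt 2)⁻¹ ^ (t / 2 - 1) with hw
  have hw0 : 0 < w := pow_pos ne3_u_pos _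
  have hR1 : (1:ℝ) ≤ ((R:ℝ) + 1) ^ 2 := by
    have : (0:ℝ) ≤ R := Nat.cast_nonneg _
    nlinarith
  have hw4 : (t:ℝ) ^ 4 * w ≤ 1 := by
    refine le_trans ?_ hA
    have h1 : (t:ℝ) ^ 4 ≤ (t:ℝ) ^ 13 := pow_le_pow_right₀ htR (by norm_num)
    have h2 : (t:ℝ) ^ 4 * w ≤ (t:ℝ) ^ 13 * w := mul_le_mul_of_nonneg_right h1 hw0.le
    have h3 : 0 ≤ (t:ℝ) ^ 13 * w := by positivity
    nlinarith
  have htn : t ≤ n := by
    have : (t:ℝ) ≤ n := hB.trans hn.1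
    exact_mod_cast this
  have hnx := ne3_n_le ε hε t n (by omega) hn
  have hmm : 0 < mm t := Nat.choose_pos (by omega)
  have hmmR : (0:ℝ) < mm t := by exact_mod_cast hmm
  have hlog : 0 ≤ Real.log t := Real.log_nonneg htR
  have hrho : 0 ≤ rho t := by unfold rho; positivity
  have hpow : (1 + rho t) ^ (2 * mm t) ≤ (t:ℝ) ^ 6 := by
    have h1 : 1 + rho t ≤ Real.exp (rho t) := by linarith [Real.add_one_le_exp (rho t)]
    calc (1 + rho t) ^ (2 * mm t) ≤ Real.exp (rho t) ^ (2 * mm t) :=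
          pow_le_pow_left₀ (by linarith) h1 _
      _ = Real.exp (((2 * mm t : ℕ) : ℝ) * rho t) := by rw [Real.exp_nat_mul]
      _ = Real.exp (((6:ℕ):ℝ) * Real.log t) := by
          congr 1
          unfold rho
          push_cast
          field_simp
          ring
      _ = (t:ℝ) ^ 6 := by rw [Real.exp_nat_mul, Real.exp_log ht0]
  have hterm : ∀ b ∈ Ico 3 t, (t.choose b : ℝ) * ((n - t).choose (t - b) : ℝ) * 4 *
      ((1 + rho t) / 2) ^ (2 * mm t - b.choose 2) ≤ pm t * (2 * (t:ℝ) ^ 6 * ((t:ℝ) ^ 4 * w)) := by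
    intro b hb
    rw [Finset.mem_Ico] at hb
    have hCm : b.choose 2 ≤ mm t := Nat.choose_le_choose 2 hb.2.le
    have hAb : (t.choose b : ℝ) * ((n - t).choose (t - b) : ℝ) * (1 / 2) ^ (mm t - b.choose 2) ≤
        (t:ℝ) ^ 4 * w := by
      by_cases hc : b ≤ t / 2
      · exact ne3_case1 n t b (by omega) htn hn.1 hW hw4 hb.1 hc
      · exact ne3_case2 n t b (by omega) hnx hw4 (by omega) (by omega) hb.2
    have h1 : ((1 + rho t) / 2) ^ (2 * mm t - b.choose 2) ≤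
        (t:ℝ) ^ 6 * ((1 / 2) ^ mm t * (1 / 2) ^ (mm t - b.choose 2)) := by
      rw [show (1 + rho t) / 2 = (1 + rho t) * (1 / 2) by ring, mul_pow, ← pow_add,
        show mm t + (mm t - b.choose 2) = 2 * mm t - b.choose 2 by omega]
      refine mul_le_mul_of_nonneg_right (le_trans ?_ hpow) (by positivity)
      exact pow_le_pow_right₀ (by linarith) (by omega)
    calc (t.choose b : ℝ) * ((n - t).choose (t - b) : ℝ) * 4 *
          ((1 + rho t) / 2) ^ (2 * mm t - b.choose 2)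
        ≤ (t.choose b : ℝ) * ((n - t).choose (t - b) : ℝ) * 4 *
          ((t:ℝ) ^ 6 * ((1 / 2) ^ mm t * (1 / 2) ^ (mm t - b.choose 2))) :=
          mul_le_mul_of_nonneg_left h1 (by positivity)
      _ = (2 * (1 / 2) ^ mm t) * (2 * (t:ℝ) ^ 6 * ((t.choose b : ℝ) *
          ((n - t).choose (t - b) : ℝ) * (1 / 2) ^ (mm t - b.choose 2))) := by ring
      _ ≤ (2 * (1 / 2) ^ mm t) * (2 * (t:ℝ) ^ 6 * ((t:ℝ) ^ 4 * w)) :=
          mul_le_mul_of_nonneg_left (mul_le_mul_of_nonneg_left hAb (by positivity))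
            (by positivity)
      _ = pm t * (2 * (t:ℝ) ^ 6 * ((t:ℝ) ^ 4 * w)) := rfl
  have hpm : 0 < pm t := by unfold pm; positivity
  have hsum : sum3 n t (rho t) ≤ (t:ℝ) * (pm t * (2 * (t:ℝ) ^ 6 * ((t:ℝ) ^ 4 * w))) := by
    unfold sum3
    refine (Finset.sum_le_card_nsmul _ _ _ hterm).trans ?_
    rw [Nat.card_Ico, nsmul_eq_mul]
    refine mul_le_mul_of_nonneg_right ?_ (by positivity)
    exact_mod_cast Nat.sub_le t 3
  refine hsum.trans ?_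
  have hfin : (t:ℝ) * (2 * (t:ℝ) ^ 6 * ((t:ℝ) ^ 4 * w)) ≤
      1 / (20 * ((R:ℝ) + 1) ^ 2 * (t:ℝ) ^ 2) := by
    rw [le_div_iff₀ (by positivity)]
    calc (t:ℝ) * (2 * (t:ℝ) ^ 6 * ((t:ℝ) ^ 4 * w)) * (20 * ((R:ℝ) + 1) ^ 2 * (t:ℝ) ^ 2)
        = 40 * ((R:ℝ) + 1) ^ 2 * (t:ℝ) ^ 13 * w := by ring
      _ ≤ 1 := hA
  calc (t:ℝ) * (pm t * (2 * (t:ℝ) ^ 6 * ((t:ℝ) ^ 4 * w)))
      = pm t * ((t:ℝ) * (2 * (t:ℝ) ^ 6 * ((t:ℝ) ^ 4 * w))) := by ring
    _ ≤ _ := mul_le_mul_of_nonneg_left hfin hpm.le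

end Pool.Agent.Work.MP_2a0c1d_co
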