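import Pool.Agent.Work.MP_2a0c1d_co.Stmts

/-!
# Item SUPP: supports of the bad boxes
-/

set_option autoImplicit false

namespace Pool.Agent.Work.MP_2a0c1d_co

open Finset

namespace SUPP_aux

theorem ed_eq {n : ℕ} (S : Finset (Fin n)) :
    ed S = S.offDiag.image (fun p => s(p.1, p.2)) := by
  ext e
  induction e using Sym2.inductionOn with
  | hf a b =>
    simp only [ed, mem_filter, Finset.mk_mem_sym2_iff, Sym2.mk_isDiag_iff, mem_image,
      mem_offDiag, Prod.exists]
    constructor
    · rintro ⟨⟨h1, h2⟩, h3⟩
      exact ⟨a, b, ⟨h1, h2, h3⟩, rfl⟩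
    · rintro ⟨x, y, ⟨h1, h2, h3⟩, h4⟩
      rw [Sym2.eq_iff] at h4
      rcases h4 with ⟨rfl, rfl⟩ | ⟨rfl, rfl⟩
      · exact ⟨⟨h1, h2⟩, h3⟩
      · exact ⟨⟨h2, h1⟩, fun h => h3 h.symm⟩

theorem card_ed {n : ℕ} (S : Finset (Fin n)) : (ed S).card = mm S.card := by
  rw [ed_eq, mm]
  exact Sym2.card_image_offDiag S

theorem card_ed_t {n t : ℕ} (S : Finset (Fin n)) (h : S.card = t) : (ed S).card = mm t := by
  rw [card_ed, h]

theorem card_ed_le {n t : ℕ} (S : Finset (Fin n)) (h : S = ∅ ∨ S.card = t) :
    (ed S).card ≤ mm t := by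
  rcases h with rfl | h
  · simp [ed]
  · rw [card_ed, h]

theorem mm_pos {t : ℕ} (ht : 2 ≤ t) : 0 < mm t := Nat.choose_pos ht

theorem ed_nonempty {n t : ℕ} (ht : 2 ≤ t) (S : Finset (Fin n)) (h : S.card = t) :
    ∃ e, e ∈ ed S := by
  have : 0 < (ed S).card := by rw [card_ed, h]; exact mm_pos ht
  exact Finset.card_pos.mp this

theorem not_diag_of_ed {n : ℕ} {S : Finset (Fin n)} {e : Sym2 (Fin n)} (h : e ∈ ed S) :
    ¬ e.IsDiag := (mem_filter.mp h).2

theorem sing_ne (x : X) : ({x} : Finset X) ≠ univ := by
  intro h
  have := congrArg Finset.card h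
  simp at this

/-- the box is supported on a union of `k` sets of pairs -/
theorem key {n : ℕ} (B : Bx n) (ι : Type) [DecidableEq ι] (I : Finset ι) (F : ι → Finset (Sym2 (Fin n)))
    (m K : ℕ) (h1 : ∀ e, B e ≠ univ → ∃ i ∈ I, e ∈ F i) (h2 : ∀ i ∈ I, (F i).card ≤ m)
    (h3 : I.card ≤ K) (h4 : ∀ i ∈ I, ∀ e ∈ F i, ¬ e.IsDiag) :
    (supp B).card ≤ K * m ∧ ∀ e ∈ supp B, ¬ e.IsDiag := by
  constructor
  · calc (supp B).card ≤ (I.biUnion F).card := by
          apply card_le_card
          intro e he
          rw [supp, mem_filter] at he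
          obtain ⟨i, hi, h⟩ := h1 e he.2
          exact mem_biUnion.mpr ⟨i, hi, h⟩
      _ ≤ ∑ i ∈ I, (F i).card := card_biUnion_le
      _ ≤ ∑ _i ∈ I, m := sum_le_sum h2
      _ = I.card * m := by rw [sum_const, smul_eq_mul]
      _ ≤ K * m := Nat.mul_le_mul_right m h3
  · intro e he
    rw [supp, mem_filter] at he
    obtain ⟨i, hi, h⟩ := h1 e he.2
    exact h4 i hi e h

theorem nearB_ne {n : ℕ} (k : ℕ) (T : ℕ → Finset (Fin n)) (a : ℕ → Bool) (e : Sym2 (Fin n))
    (h : nearB k T a e ≠ univ) : ∃ i ∈ range k, e ∈ ed (T i) := by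
  by_contra hc
  push Not at hc
  apply h
  rw [nearB, filter_eq_self]
  intro x _ i hi he
  exact absurd he (hc i hi)

theorem nearB_ne' {n : ℕ} (k : ℕ) (hk : 1 ≤ k) (T : ℕ → Finset (Fin n)) (a : ℕ → Bool)
    (e : Sym2 (Fin n)) (h : e ∈ ed (T 0)) : nearB k T a e ≠ univ := by
  intro hc
  rw [nearB, filter_eq_self] at hc
  have := hc (!(a 0), false) (mem_univ _) 0 (mem_range.mpr hk) h
  simp at this

end SUPP_aux

open SUPP_aux in
theorem pr_SUPP : SUPP := by
  classical
  intro n t h d hh ht B hB
  simp only [BB, mem_union] at hB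
  rcases hB with (((hB | hB) | hB) | hB) | hB
  · -- B1
    rw [B1, mem_filter] at hB
    obtain ⟨-, S, a, J, hS, hJ, -, rfl⟩ := hB
    constructor
    · obtain ⟨e, he⟩ := ed_nonempty ht S hS
      refine ⟨e, ?_⟩
      by_cases h1 : e ∈ J
      · simp only [h1, if_true]; exact sing_ne _
      · simp only [h1, if_false, he, if_true]; exact sing_ne _
    · refine key _ Unit {()} (fun _ => ed S) (mm t) _ ?_ ?_ ?_ ?_
      · intro e he
        refine ⟨(), by simp, ?_⟩
        by_contra hc
        apply he
        have : e ∉ J := fun h => hc (hJ h)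
        simp [this, hc]
      · intro i _; rw [card_ed_t S hS]
      · simp
      · intro i _ e he; exact not_diag_of_ed he
  · -- B2
    rw [B2, mem_filter] at hB
    obtain ⟨-, S, hS, rfl⟩ := hB
    constructor
    · obtain ⟨e, he⟩ := ed_nonempty ht S hS
      refine ⟨e, ?_⟩
      simp only [he, if_true]
      intro hc
      rw [filter_eq_self] at hc
      have := hc (true, false) (mem_univ _)
      simp at this
    · refine key _ Unit {()} (fun _ => ed S) (mm t) _ ?_ ?_ ?_ ?_
      · intro e he
        refine ⟨(), by simp, ?_⟩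
        by_contra hc
        apply he
        simp [hc]
      · intro i _; rw [card_ed_t S hS]
      · simp
      · intro i _ e he; exact not_diag_of_ed he
  · -- B3
    rw [B3, mem_filter] at hB
    obtain ⟨-, T, a, h0, h1, -, -, rfl⟩ := hB
    constructor
    · obtain ⟨e, he⟩ := ed_nonempty ht _ h0
      exact ⟨e, nearB_ne' 2 (by norm_num) T a e he⟩
    · refine key _ ℕ (range 2) (fun i => ed (T i)) (mm t) _ ?_ ?_ ?_ ?_
      · intro e he; exact nearB_ne 2 T a e he
      · intro i hi
        have hi' := mem_range.mp hi
        have : i = 0 ∨ i = 1 := by omega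
        rcases this with rfl | rfl
        · rw [card_ed_t _ h0]
        · rw [card_ed_t _ h1]
      · rw [card_range]
        have := Nat.zero_le (h * d)
        omega
      · intro i _ e he; exact not_diag_of_ed he
  · -- B4
    rw [B4, mem_filter] at hB
    obtain ⟨-, T, a, hc, hR, -, -, rfl⟩ := hB
    constructor
    · obtain ⟨e, he⟩ := ed_nonempty ht _ hc.1
      exact ⟨e, nearB_ne' _ (by omega) T a e he⟩
    · refine key _ ℕ (range (h + h * d + 1)) (fun i => ed (T i)) (mm t) _ ?_ ?_ ?_ ?_
      · intro e he; exact nearB_ne _ T a e he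
      · intro i hi
        have hi' := mem_range.mp hi
        apply card_ed_le
        rcases Nat.eq_zero_or_pos i with rfl | hi0
        · exact Or.inr hc.1
        · rcases Nat.lt_or_ge i (h + h * d) with h2 | h2
          · rcases hc.2 i hi0 h2 with h3 | h3
            · exact Or.inl h3
            · exact Or.inr h3.1
          · have : i = h + h * d := by omega
            subst this
            exact Or.inr hR
      · rw [card_range]
      · intro i _ e he; exact not_diag_of_ed he
  · -- B5
    rw [B5, mem_filter] at hB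
    obtain ⟨-, a, S, x, hx, rfl⟩ := hB
    constructor
    · obtain ⟨e, he⟩ := ed_nonempty ht _ hx.1
      refine ⟨e, ?_⟩
      intro hc
      rw [box5, filter_eq_self] at hc
      have := (hc (!a, false) (mem_univ _)).1 he
      simp at this
    · refine key _ (Option (Fin h × Option (Fin d))) univ
        (fun u => match u with
          | none => ed S
          | some (i, none) => ed (x i).2.1
          | some (i, some l) => match (x i).2.2 l with
            | none => ∅
            | some (_, Q) => ed Q) (mm t) _ ?_ ?_ ?_ ?_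
      · intro e he
        by_contra hc
        push Not at hc
        have hS := hc none (mem_univ _)
        have hT := fun i => hc (some (i, none)) (mem_univ _)
        have hQ := fun i l => hc (some (i, some l)) (mem_univ _)
        simp only at hS hT hQ
        apply he
        rw [box5, filter_eq_self]
        intro y _
        refine ⟨fun h => absurd h hS, ?_, ?_, ?_⟩
        · intro i hi
          exact absurd (hi ▸ (hx.2.1 i).1) hS
        · intro i l f Q hl
          have h1 := (hx.2.1 i).2.2.2.1 l f Q hl
          constructor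
          · intro hf
            exact absurd (hf ▸ h1.1) (hT i)
          · intro hf
            have h2 := hQ i l
            rw [hl] at h2
            exact absurd hf h2
        · intro i hi
          exact absurd hi (hT i)
      · intro u _
        rcases u with _ | ⟨i, _ | l⟩
        · simp only; rw [card_ed_t S hx.1]
        · simp only; rw [card_ed_t _ (hx.2.1 i).2.2.1]
        · simp only
          rcases hl : (x i).2.2 l with _ | ⟨f, Q⟩
          · simp
          · simp only
            rw [card_ed_t _ ((hx.2.1 i).2.2.2.1 l f Q hl).2.2.1]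
      · rw [card_univ, Fintype.card_option, Fintype.card_prod, Fintype.card_fin, Fintype.card_option,
          Fintype.card_fin]
        have : h * (d + 1) = h + h * d := by ring
        omega
      · intro u _ e he
        rcases u with _ | ⟨i, _ | l⟩
        · exact not_diag_of_ed he
        · exact not_diag_of_ed he
        · simp only at he
          rcases hl : (x i).2.2 l with _ | ⟨f, Q⟩
          · rw [hl] at he; simp at he
          · rw [hl] at he; exact not_diag_of_ed he

end Pool.Agent.Work.MP_2a0c1d_co
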